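import Pool.Agent.Lib.MP_a1c723_lc.BV.Stmts
import Pool.Agent.Lib.MP_a4e7db_lc.Coin

/-!
# MP_a1c723_lc, module DOM: a Cohen real over the product is not dominated
-/

set_option autoImplicit false

namespace Pool.Agent.StarRoth.BV

open Pool.Agent.MPa4e7db MeasureTheory Filter Topology

namespace DomAux

variable {I J W : Type}

/-- `E` depends, in its first variable, only on the coordinates in `C`. -/
def Dep (C : Set I) (E : Set ((I → Bool) × (J → Bool))) : Prop :=
  ∀ x x' y, (∀ i ∈ C, x i = x' i) → ((x, y) ∈ E ↔ (x', y) ∈ E)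

theorem exists_dep {E : Set ((I → Bool) × (J → Bool))} (hE : MeasurableSet E) :
    ∃ C : Set I, C.Countable ∧ Dep C E := by
  let G : MeasurableSpace ((I → Bool) × (J → Bool)) :=
    { MeasurableSet' := fun A => ∃ C : Set I, C.Countable ∧ Dep C A
      measurableSet_empty := ⟨∅, Set.countable_empty, fun _ _ _ _ => Iff.rfl⟩
      measurableSet_compl := fun A ⟨C, hC, hA⟩ =>
        ⟨C, hC, fun x x' y h => not_congr (hA x x' y h)⟩
      measurableSet_iUnion := fun A hA => by
        choose C hC hA using hA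
        refine ⟨⋃ n, C n, Set.countable_iUnion hC, fun x x' y h => ?_⟩
        simp only [Set.mem_iUnion]
        exact exists_congr fun n => hA n x x' y fun i hi => h i (Set.mem_iUnion.mpr ⟨n, hi⟩) }
  have h : (Prod.instMeasurableSpace : MeasurableSpace ((I → Bool) × (J → Bool))) ≤ G := by
    refine sup_le ?_ ?_
    · rw [MeasurableSpace.pi, MeasurableSpace.comap_iSup]
      refine iSup_le fun i => ?_
      rintro A ⟨B, ⟨s, -, rfl⟩, rfl⟩
      refine ⟨{i}, Set.countable_singleton i, fun x x' y h => ?_⟩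
      simp only [Set.mem_preimage]
      rw [h i (Set.mem_singleton i)]
    · rintro A ⟨s, -, rfl⟩
      exact ⟨∅, Set.countable_empty, fun x x' y _ => Iff.rfl⟩
  exact h E hE

/-- Choice of a new first coordinate. -/
theorem exists_new [Infinite W] (C : W → Set (Set W × ℕ × ℕ)) (hC : ∀ w, (C w).Countable) :
    ∃ s₀ : Set W, ∀ w, ∀ i ∈ C w, i.1 ≠ s₀ := by
  by_contra hcon
  push Not at hcon
  have huniv : (⋃ w, Prod.fst '' (C w)) = (Set.univ : Set (Set W)) := by
    ext s
    simp only [Set.mem_iUnion, Set.mem_image, Set.mem_univ, iff_true]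
    obtain ⟨w, i, hi, rfl⟩ := hcon s
    exact ⟨w, i, hi, rfl⟩
  have h1 := Cardinal.mk_iUnion_le (fun w => Prod.fst '' (C w))
  rw [huniv, Cardinal.mk_univ, Cardinal.mk_set] at h1
  have h2 : (⨆ w, Cardinal.mk (Prod.fst '' (C w) : Set (Set W))) ≤ Cardinal.aleph0 := by
    refine ciSup_le' fun w => ?_
    exact Cardinal.le_aleph0_iff_set_countable.mpr ((hC w).image _)
  have h3 : Cardinal.mk W * Cardinal.aleph0 = Cardinal.mk W :=
    Cardinal.mul_aleph0_eq (Cardinal.aleph0_le_mk W)
  have h4 : (2 : Cardinal) ^ Cardinal.mk W ≤ Cardinal.mk W :=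
    h1.trans ((mul_le_mul_right h2 _).trans_eq h3)
  exact absurd h4 (not_le.mpr (Cardinal.cantor _))

/-- The least `k` with `x (s₀, m, k) = true`, and `0` if there is none. -/
noncomputable def least (s₀ : Set W) (x : (Set W × ℕ × ℕ) → Bool) (m : ℕ) : ℕ :=
  sInf {k | x (s₀, m, k) = true}

theorem measurable_least (s₀ : Set W) (m : ℕ) :
    Measurable fun x : (Set W × ℕ × ℕ) → Bool => least s₀ x m := by
  refine measurable_to_countable' fun k => ?_
  have hset : (fun x : (Set W × ℕ × ℕ) → Bool => least s₀ x m) ⁻¹' {k} =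
      ({x | x (s₀, m, k) = true} ∩ ⋂ j : ℕ, ⋂ (_ : j < k), {x | x (s₀, m, j) = true}ᶜ) ∪
        ({_x | k = 0} ∩ ⋂ j : ℕ, {x | x (s₀, m, j) = true}ᶜ) := by
    ext x
    simp only [least, Set.mem_preimage, Set.mem_singleton_iff, Set.mem_union, Set.mem_inter_iff,
      Set.mem_ofPred_eq, Set.mem_iInter, Set.mem_compl_iff]
    constructor
    · intro h
      by_cases hne : ({k | x (s₀, m, k) = true} : Set ℕ).Nonempty
      · left
        have h1 := Nat.sInf_mem hne
        rw [h] at h1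
        refine ⟨h1, fun j hj hj' => ?_⟩
        exact Nat.notMem_of_lt_sInf (h ▸ hj) hj'
      · right
        rw [Set.not_nonempty_iff_eq_empty] at hne
        rw [hne, Nat.sInf_empty] at h
        refine ⟨h.symm, fun j hj => ?_⟩
        have : j ∈ ({k | x (s₀, m, k) = true} : Set ℕ) := hj
        rw [hne] at this
        exact this
    · rintro (⟨h1, h2⟩ | ⟨h1, h2⟩)
      · refine le_antisymm (Nat.sInf_le h1) ?_
        by_contra hlt
        push Not at hlt
        exact h2 _ hlt (Nat.sInf_mem (s := {k | x (s₀, m, k) = true}) ⟨k, h1⟩)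
      · have : ({k | x (s₀, m, k) = true} : Set ℕ) = ∅ := by
          ext j
          simp only [Set.mem_ofPred_eq, Set.mem_empty_iff_false, iff_false]
          exact h2 j
        rw [this, Nat.sInf_empty, h1]
  rw [hset]
  have hc : ∀ j : ℕ, MeasurableSet {x : (Set W × ℕ × ℕ) → Bool | x (s₀, m, j) = true} :=
    fun j => (measurable_pi_apply (X := fun _ : Set W × ℕ × ℕ => Bool) (s₀, m, j))
      (measurableSet_singleton true)
  refine MeasurableSet.union ((hc k).inter ?_) (MeasurableSet.inter ?_ ?_)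
  · exact MeasurableSet.iInter fun j => MeasurableSet.iInter fun _ => (hc j).compl
  · exact MeasurableSet.const _
  · exact MeasurableSet.iInter fun j => (hc j).compl

theorem residualEq_of_borel {α : Type} [TopologicalSpace α] {s : Set α}
    (h : MeasurableSet[borel α] s) : ∃ U : Set α, IsOpen U ∧ s =ᵇ U := by
  let _ : MeasurableSpace α := borel α
  have _ : BorelSpace α := ⟨rfl⟩
  exact MeasurableSet.residualEq_isOpen h

/-- The topological part. -/
theorem topo (s₀ : Set W) (E : ℕ → ℕ → Set ((Set W × ℕ × ℕ) → Bool))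
    (hE : ∀ m k, MeasurableSet (E m k))
    (hdep : ∀ m k x x', (∀ i : Set W × ℕ × ℕ, i.1 ≠ s₀ → x i = x' i) → x ∈ E m k → x' ∈ E m k)
    (hcov : ∀ m x, ∃ k, x ∈ E m k) (m₀ : ℕ) :
    ∀ᶠ x in residual ((Set W × ℕ × ℕ) → Bool),
      ∃ m, m₀ ≤ m ∧ ∃ k, x ∈ E m k ∧ k ≤ least s₀ x m := by
  classical
  let K : Type := {i : Set W × ℕ × ℕ // i.1 ≠ s₀}
  let π : ((Set W × ℕ × ℕ) → Bool) → (K → Bool) := fun x i => x i.1
  let ext : (K → Bool) → ((Set W × ℕ × ℕ) → Bool) :=
    fun a i => if h : i.1 ≠ s₀ then a ⟨i, h⟩ else false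
  have hext : ∀ x i, i.1 ≠ s₀ → ext (π x) i = x i := by
    intro x i hi
    simp only [ext, π, dif_pos hi]
  have hπc : Continuous π := continuous_pi fun i => continuous_apply i.1
  have hπo : IsOpenMap π := by
    have h := isOpenMap_fst.comp
      (Homeomorph.piEquivPiSubtypeProd (fun i : Set W × ℕ × ℕ => i.1 ≠ s₀)
        (fun _ => Bool)).isOpenMap
    exact h
  have hextm : Measurable ext := by
    refine measurable_pi_lambda _ fun i => ?_
    by_cases hi : i.1 ≠ s₀
    · simp only [ext, dif_pos hi]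
      exact measurable_pi_apply _
    · simp only [ext, dif_neg hi]
      exact measurable_const
  have hU : ∀ m k, ∃ U : Set (K → Bool), IsOpen U ∧ (ext ⁻¹' (E m k)) =ᵇ U := by
    intro m k
    have h1 : MeasurableSet (ext ⁻¹' (E m k)) := hextm (hE m k)
    have h2 : MeasurableSet[borel (K → Bool)] (ext ⁻¹' (E m k)) := pi_le_borel_pi _ h1
    exact residualEq_of_borel h2
  choose U hUo hUE using hU
  have hiff : ∀ᶠ a in residual (K → Bool), ∀ m k, (a ∈ ext ⁻¹' (E m k) ↔ a ∈ U m k) := by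
    rw [eventually_countable_forall]
    intro m
    rw [eventually_countable_forall]
    intro k
    exact Filter.eventuallyEq_set.mp (hUE m k)
  have hdense : ∀ m, Dense (⋃ k, U m k) := by
    intro m
    apply dense_of_mem_residual
    filter_upwards [hiff] with a ha
    obtain ⟨k, hk⟩ := hcov m (ext a)
    exact Set.mem_iUnion.mpr ⟨k, (ha m k).mp hk⟩
  -- the open dense set
  let O : Set ((Set W × ℕ × ℕ) → Bool) :=
    ⋃ m : ℕ, ⋃ (_ : m₀ ≤ m), ⋃ k : ℕ, (π ⁻¹' (U m k)) ∩
      ({x | x (s₀, m, k) = true} ∩ ⋂ j ∈ Finset.range k, {x | x (s₀, m, j) = false})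
  have hOopen : IsOpen O := by
    refine isOpen_iUnion fun m => isOpen_iUnion fun _ => isOpen_iUnion fun k => ?_
    refine ((hUo m k).preimage hπc).inter (IsOpen.inter ?_ ?_)
    · exact (isOpen_discrete ({true} : Set Bool)).preimage
        (continuous_apply (A := fun _ : Set W × ℕ × ℕ => Bool) (s₀, m, k))
    · refine isOpen_biInter_finset fun j _ => ?_
      exact (isOpen_discrete ({false} : Set Bool)).preimage
        (continuous_apply (A := fun _ : Set W × ℕ × ℕ => Bool) (s₀, m, j))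
  have hOdense : Dense O := by
    rw [dense_iff_inter_open]
    intro V hV hVne
    obtain ⟨x₀, hx₀⟩ := hVne
    obtain ⟨F, u, hu, hFV⟩ := isOpen_pi_iff.mp hV x₀ hx₀
    let V' : Set ((Set W × ℕ × ℕ) → Bool) := (F : Set (Set W × ℕ × ℕ)).pi fun i => {x₀ i}
    have hV'o : IsOpen V' := isOpen_set_pi F.finite_toSet fun i _ => isOpen_discrete _
    have hV'V : V' ⊆ V := by
      intro x hx
      apply hFV
      intro i hi
      have := hx i hi
      rw [Set.mem_singleton_iff] at this
      rw [this]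
      exact (hu i hi).2
    -- choose `m`
    let m : ℕ := max m₀ ((F.sup fun i => i.2.1) + 1)
    have hm : ∀ j, (s₀, m, j) ∉ F := by
      intro j hj
      have h1 : (fun i : Set W × ℕ × ℕ => i.2.1) (s₀, m, j) ≤ F.sup fun i => i.2.1 :=
        Finset.le_sup (f := fun i : Set W × ℕ × ℕ => i.2.1) hj
      have h2 : (F.sup fun i => i.2.1) + 1 ≤ m := le_max_right _ _
      simp only at h1
      omega
    have hne : (π '' V').Nonempty := ⟨π x₀, x₀, fun i _ => rfl, rfl⟩
    obtain ⟨a, ⟨x₁, hx₁, rfl⟩, ha⟩ :=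
      (hdense m).inter_open_nonempty _ (hπo _ hV'o) hne
    obtain ⟨k, hk⟩ := Set.mem_iUnion.mp ha
    let x : (Set W × ℕ × ℕ) → Bool := fun i =>
      if i.1 = s₀ ∧ i.2.1 = m then decide (k ≤ i.2.2) else x₁ i
    have hxπ : π x = π x₁ := by
      funext i
      simp only [π, x]
      rw [if_neg]
      exact fun h => i.2 h.1
    refine ⟨x, hV'V ?_, ?_⟩
    · intro i hi
      have h1 : ¬ (i.1 = s₀ ∧ i.2.1 = m) := by
        rintro ⟨h1, h2⟩
        apply hm i.2.2
        have : i = (s₀, m, i.2.2) := by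
          ext1
          · exact h1
          · ext1
            · exact h2
            · rfl
        rw [← this]
        exact hi
      simp only [x, if_neg h1]
      exact hx₁ i hi
    · refine Set.mem_iUnion.mpr ⟨m, Set.mem_iUnion.mpr ⟨le_max_left _ _,
        Set.mem_iUnion.mpr ⟨k, ?_, ?_, ?_⟩⟩⟩
      · rw [Set.mem_preimage, hxπ]
        exact hk
      · simp [x]
      · refine Set.mem_iInter₂.mpr fun j hj => ?_
        have := Finset.mem_range.mp hj
        simp [x, this]
  have hO : O ∈ residual _ := residual_of_dense_open hOopen hOdense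
  have hiff' : ∀ᶠ x in residual ((Set W × ℕ × ℕ) → Bool),
      ∀ m k, (π x ∈ ext ⁻¹' (E m k) ↔ π x ∈ U m k) :=
    (tendsto_residual_of_isOpenMap hπc hπo).eventually hiff
  filter_upwards [hO, hiff'] with x hx hx'
  obtain ⟨m, hx⟩ := Set.mem_iUnion.mp hx
  obtain ⟨hm, hx⟩ := Set.mem_iUnion.mp hx
  obtain ⟨k, hx⟩ := Set.mem_iUnion.mp hx
  obtain ⟨h1, h2, h3⟩ := hx
  refine ⟨m, hm, k, ?_, ?_⟩
  · have h4 : ext (π x) ∈ E m k := (hx' m k).mpr h1
    exact hdep m k _ _ (fun i hi => hext x i hi) h4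
  · unfold least
    by_contra hlt
    push Not at hlt
    have h5 := Nat.sInf_mem (s := {k | x (s₀, m, k) = true}) ⟨k, h2⟩
    have h6 := Set.mem_iInter₂.mp h3 _ (Finset.mem_range.mpr hlt)
    simp only [Set.mem_ofPred_eq] at h5 h6
    rw [h5] at h6
    exact absurd h6 (by decide)

/-- The measure part. -/
theorem meas_part {Ω : Type} [MeasurableSpace Ω] (μ : Measure Ω) [IsProbabilityMeasure μ]
    (g : Ω → ℕ → ℕ) (L : ℕ → ℕ)
    (h : ∀ m₀, ∃ m, m₀ ≤ m ∧ ∃ k, μ {y | k < g y m} < (2⁻¹ : ENNReal) ^ m ∧ k ≤ L m) :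
    ∀ᵐ y ∂μ, ∃ᶠ m in atTop, g y m ≤ L m := by
  classical
  let s : ℕ → Set Ω := fun m =>
    if μ {y | L m < g y m} < (2⁻¹ : ENNReal) ^ m then {y | L m < g y m} else ∅
  have hs : ∀ m, μ (s m) ≤ (2⁻¹ : ENNReal) ^ m := by
    intro m
    simp only [s]
    split_ifs with h1
    · exact h1.le
    · simp
  have hsum : ∑' m, μ (s m) ≠ ⊤ := by
    have h1 : ∑' m : ℕ, (2⁻¹ : ENNReal) ^ m = 2 := by
      rw [ENNReal.tsum_geometric, ENNReal.one_sub_inv_two, inv_inv]
    exact ne_top_of_le_ne_top (by rw [h1]; exact ENNReal.ofNat_ne_top) (ENNReal.tsum_le_tsum hs)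
  filter_upwards [ae_eventually_notMem hsum] with y hy
  rw [frequently_atTop]
  intro m₀
  obtain ⟨m₁, hm₁⟩ := eventually_atTop.mp hy
  obtain ⟨m, hm, k, hk, hkL⟩ := h (max m₀ m₁)
  refine ⟨m, (le_max_left _ _).trans hm, ?_⟩
  have h1 : μ {y | L m < g y m} < (2⁻¹ : ENNReal) ^ m :=
    lt_of_le_of_lt (measure_mono fun y (hy : L m < g y m) => lt_of_le_of_lt hkL hy) hk
  have h2 := hm₁ m ((le_max_right _ _).trans hm)
  simp only [s, if_pos h1, Set.mem_ofPred_eq, not_lt] at h2
  exact h2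

theorem exists_small {Ω : Type} [MeasurableSpace Ω] (μ : Measure Ω) [IsProbabilityMeasure μ]
    (g : Ω → ℕ) (hg : Measurable g) (m : ℕ) :
    ∃ k, μ {y | k < g y} < (2⁻¹ : ENNReal) ^ m := by
  have h1 : Tendsto (fun k : ℕ => μ {y | k < g y}) atTop (𝓝 (μ (⋂ k : ℕ, {y | k < g y}))) := by
    refine tendsto_measure_iInter_atTop (fun k => ?_) ?_ ⟨0, measure_ne_top _ _⟩
    · exact (hg (measurableSet_Ioi (a := k))).nullMeasurableSet
    · intro a b hab y hy
      exact lt_of_le_of_lt hab hy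
  have h2 : (⋂ k : ℕ, {y : Ω | k < g y}) = ∅ := by
    ext y
    simp only [Set.mem_iInter, Set.mem_ofPred_eq, Set.mem_empty_iff_false, iff_false, not_forall,
      not_lt]
    exact ⟨g y, le_refl _⟩
  rw [h2, measure_empty] at h1
  have h3 : (0 : ENNReal) < (2⁻¹ : ENNReal) ^ m :=
    pos_iff_ne_zero.mpr (pow_ne_zero _ (ENNReal.inv_ne_zero.mpr ENNReal.ofNat_ne_top))
  exact (h1.eventually (gt_mem_nhds h3)).exists

end DomAux

open DomAux

/-- Module DOM. -/
theorem domStmt : DomStmt := by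
  classical
  intro W J _ G hG
  have hC : ∀ w m k, ∃ C : Set (Set W × ℕ × ℕ), C.Countable ∧
      Dep C {z : ((Set W × ℕ × ℕ) → Bool) × (J → Bool) | G w z m = k} := fun w m k =>
    exists_dep (hG w m (measurableSet_singleton k))
  choose C hCc hCd using hC
  obtain ⟨s₀, hs₀⟩ := exists_new (fun w => ⋃ m, ⋃ k, C w m k)
    (fun w => Set.countable_iUnion fun m => Set.countable_iUnion fun k => hCc w m k)
  have hGdep : ∀ w m (x x' : (Set W × ℕ × ℕ) → Bool) y,
      (∀ i : Set W × ℕ × ℕ, i.1 ≠ s₀ → x i = x' i) → G w (x', y) m = G w (x, y) m := by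
    intro w m x x' y h
    have h1 := (hCd w m (G w (x, y) m) x x' y fun i hi => h i
      (hs₀ w i (Set.mem_iUnion.mpr ⟨m, Set.mem_iUnion.mpr ⟨_, hi⟩⟩))).mp rfl
    exact h1
  refine ⟨fun z m => least s₀ z.1 m, fun m => (measurable_least s₀ m).comp measurable_fst,
    fun w => ?_⟩
  let μ : Measure (J → Bool) := coinMeasure J
  let E : ℕ → ℕ → Set ((Set W × ℕ × ℕ) → Bool) := fun m k =>
    {x | μ {y | k < G w (x, y) m} < (2⁻¹ : ENNReal) ^ m}
  have hE : ∀ m k, MeasurableSet (E m k) := by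
    intro m k
    have h1 : MeasurableSet {z : ((Set W × ℕ × ℕ) → Bool) × (J → Bool) | k < G w z m} :=
      hG w m (measurableSet_Ioi (a := k))
    exact measurableSet_lt (measurable_measure_prodMk_left (ν := μ) h1) measurable_const
  have hcov : ∀ m x, ∃ k, x ∈ E m k := by
    intro m x
    exact exists_small μ (fun y => G w (x, y) m) ((hG w m).comp measurable_prodMk_left) m
  have hdep : ∀ m k x x', (∀ i : Set W × ℕ × ℕ, i.1 ≠ s₀ → x i = x' i) → x ∈ E m k →
      x' ∈ E m k := by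
    intro m k x x' h hx
    have h1 : {y | k < G w (x', y) m} = {y | k < G w (x, y) m} := by
      ext y
      simp only [Set.mem_ofPred_eq]
      rw [hGdep w m x x' y h]
    change μ {y | k < G w (x', y) m} < (2⁻¹ : ENNReal) ^ m
    rw [h1]
    exact hx
  have hres : ∀ᶠ x in residual ((Set W × ℕ × ℕ) → Bool), ∀ m₀ : ℕ,
      ∃ m, m₀ ≤ m ∧ ∃ k, x ∈ E m k ∧ k ≤ least s₀ x m := by
    rw [eventually_countable_forall]
    exact fun m₀ => topo s₀ E hE hdep hcov m₀
  unfold FF
  rw [eventually_curry_iff]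
  filter_upwards [hres] with x hx
  exact meas_part μ (fun y m => G w (x, y) m) (fun m => least s₀ x m) hx

end Pool.Agent.StarRoth.BV
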