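import Pool.Agent.Lib.MP_a1c723_lc.BV.Stmts
import Pool.Agent.Lib.MP_a4e7db_lc.Coin

/-!
# MP_a1c723_lc, module RAN: a random function is eventually different
-/

set_option autoImplicit false

namespace Pool.Agent.StarRoth.BV

open Pool.Agent.MPa4e7db MeasureTheory ProbabilityTheory Filter

/-- The random function with index `w`: `n` bits in the `n`-th place. -/
def rr {W : Type} (w : W) (y : (W × ℕ × ℕ) → Bool) (n : ℕ) : ℕ :=
  Encodable.encode (fun j : Fin n => y (w, n, (j : ℕ)))

theorem indep_Fsig' {J : Type} {C C' : Set J} (h : Disjoint C C') {S S' : Set (J → Bool)}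
    (hS : MeasurableSet[Fsig C] S) (hS' : MeasurableSet[Fsig C'] S') :
    (coinMeasure J) (S ∩ S') = (coinMeasure J) S * (coinMeasure J) S' := by
  have h1 := indep_iSup_of_disjoint comap_le_pi (iIndep_coord (I := J)) h
  exact (Indep_iff _ _ _).mp h1 S S' hS hS'

theorem rr_fsig {W : Type} (w : W) (n : ℕ) {D : Set (W × ℕ × ℕ)} (hD : ∀ j, (w, n, j) ∈ D)
    (s : Set ℕ) : MeasurableSet[Fsig D] {y | rr w y n ∈ s} := by
  have h1 : @Measurable _ _ (Fsig D) _
      (fun y : (W × ℕ × ℕ) → Bool => fun j : Fin n => y (w, n, (j : ℕ))) := by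
    refine @measurable_pi_lambda _ _ _ (Fsig D) _ _ ?_
    intro j
    rw [measurable_iff_comap_le]
    exact le_iSup₂ (f := fun i (_ : i ∈ D) =>
      MeasurableSpace.comap (fun ω : (W × ℕ × ℕ) → Bool => ω i) inferInstance) (w, n, (j : ℕ))
      (hD _)
  exact h1 (MeasurableSet.of_discrete (s := {f : Fin n → Bool | Encodable.encode f ∈ s}))

theorem rr_meas {W : Type} (w : W) (n : ℕ) : Measurable fun y => rr w y n := by
  intro s _
  exact Fsig_le (Set.univ) _ (rr_fsig w n (fun _ => Set.mem_univ _) s)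

theorem rr_prob {W : Type} (w : W) (n k : ℕ) :
    (coinMeasure (W × ℕ × ℕ)) {y | rr w y n = k} ≤ 2⁻¹ ^ n := by
  classical
  by_cases hne : ∃ y0 : (W × ℕ × ℕ) → Bool, rr w y0 n = k
  · obtain ⟨y0, h0⟩ := hne
    let e : ℕ → W × ℕ × ℕ := fun j => (w, n, j)
    have he : Function.Injective e := by
      intro i j hij
      simpa [e] using hij
    let s : Finset (W × ℕ × ℕ) := (Finset.range n).image e
    have hs : s.card = n := by
      rw [Finset.card_image_of_injective _ he, Finset.card_range]
    have hsub : {y : (W × ℕ × ℕ) → Bool | rr w y n = k} ⊆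
        Set.pi (s : Set (W × ℕ × ℕ)) (fun i => {y0 i}) := by
      intro y hy
      have h1 : rr w y n = rr w y0 n := by rw [h0]; exact hy
      have h2 := Encodable.encode_injective h1
      rw [Set.mem_pi]
      intro i hi
      rw [Finset.mem_coe, Finset.mem_image] at hi
      obtain ⟨j, hj, rfl⟩ := hi
      rw [Finset.mem_range] at hj
      exact congrFun h2 ⟨j, hj⟩
    refine (measure_mono hsub).trans ?_
    rw [coinMeasure, Measure.infinitePi_pi _ (fun _ _ => MeasurableSet.of_discrete)]
    simp only [coin_singleton, Finset.prod_const, hs]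
    exact le_rfl
  · have : {y : (W × ℕ × ℕ) → Bool | rr w y n = k} = ∅ := by
      ext y
      simp only [Set.mem_ofPred_eq, Set.mem_empty_iff_false, iff_false]
      exact fun h => hne ⟨y, h⟩
    rw [this, measure_empty]
    exact zero_le

theorem rr_evdiff {W : Type} (w : W) {D : Set (W × ℕ × ℕ)} (hD : ∀ n j, (w, n, j) ∉ D)
    (g : ((W × ℕ × ℕ) → Bool) → ℕ → ℕ) (hg : ∀ n k, MeasurableSet[Fsig D] {y | g y n = k}) :
    ∀ᵐ y ∂(coinMeasure (W × ℕ × ℕ)), ∀ᶠ n in atTop, rr w y n ≠ g y n := by
  have hb : ∀ n, (coinMeasure (W × ℕ × ℕ)) {y | rr w y n = g y n} ≤ 2⁻¹ ^ n := by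
    intro n
    have hsub : {y : (W × ℕ × ℕ) → Bool | rr w y n = g y n} ⊆
        ⋃ k, {y | g y n = k} ∩ {y | rr w y n = k} := by
      intro y hy
      rw [Set.mem_iUnion]
      exact ⟨g y n, rfl, hy⟩
    calc (coinMeasure (W × ℕ × ℕ)) {y | rr w y n = g y n}
        ≤ (coinMeasure (W × ℕ × ℕ)) (⋃ k, {y | g y n = k} ∩ {y | rr w y n = k}) :=
          measure_mono hsub
      _ ≤ ∑' k, (coinMeasure (W × ℕ × ℕ)) ({y | g y n = k} ∩ {y | rr w y n = k}) :=
          measure_iUnion_le _
      _ = ∑' k, (coinMeasure (W × ℕ × ℕ)) {y | g y n = k} *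
            (coinMeasure (W × ℕ × ℕ)) {y | rr w y n = k} := by
          refine tsum_congr fun k => ?_
          refine indep_Fsig' (C := D) (C' := {i | i.1 = w ∧ i.2.1 = n}) ?_ (hg n k)
            (rr_fsig w n (D := {i | i.1 = w ∧ i.2.1 = n}) (fun j => ⟨rfl, rfl⟩) {k})
          rw [Set.disjoint_right]
          rintro ⟨w', n', j⟩ ⟨h1, h2⟩ h3
          simp only at h1 h2
          subst h1
          exact hD _ _ h3
      _ ≤ ∑' k, (coinMeasure (W × ℕ × ℕ)) {y | g y n = k} * 2⁻¹ ^ n :=
          ENNReal.tsum_le_tsum fun k => mul_le_mul_right (rr_prob w n k) _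
      _ = (∑' k, (coinMeasure (W × ℕ × ℕ)) {y | g y n = k}) * 2⁻¹ ^ n := ENNReal.tsum_mul_right
      _ = (coinMeasure (W × ℕ × ℕ)) (⋃ k, {y | g y n = k}) * 2⁻¹ ^ n := by
          rw [measure_iUnion]
          · intro k l hkl
            rw [Function.onFun, Set.disjoint_left]
            intro y hy hy'
            exact hkl (hy.symm.trans hy')
          · intro k
            exact Fsig_le D _ (hg n k)
      _ ≤ 1 * 2⁻¹ ^ n := mul_le_mul_left (prob_le_one) _
      _ = 2⁻¹ ^ n := one_mul _
  refine ae_eventually_notMem (s := fun n => {y | rr w y n = g y n}) ?_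
  refine ne_top_of_le_ne_top ?_ (ENNReal.tsum_le_tsum hb)
  rw [ENNReal.tsum_geometric]
  simp

theorem exists_support_prod {I J : Type} {A : Set ((I → Bool) × (J → Bool))}
    (hA : MeasurableSet A) :
    ∃ D : Set J, D.Countable ∧ ∀ x, MeasurableSet[Fsig D] {y | (x, y) ∈ A} := by
  let G : MeasurableSpace ((I → Bool) × (J → Bool)) :=
    { MeasurableSet' := fun A => ∃ D : Set J, D.Countable ∧
        ∀ x, MeasurableSet[Fsig D] {y | (x, y) ∈ A}
      measurableSet_empty := ⟨∅, Set.countable_empty, fun x => @MeasurableSet.empty _ (Fsig ∅)⟩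
      measurableSet_compl := fun A ⟨D, hD, hA⟩ => ⟨D, hD, fun x => (hA x).compl⟩
      measurableSet_iUnion := fun A hA => by
        choose D hD hA using hA
        refine ⟨⋃ n, D n, Set.countable_iUnion hD, fun x => ?_⟩
        have : {y : J → Bool | (x, y) ∈ ⋃ n, A n} = ⋃ n, {y | (x, y) ∈ A n} := by
          ext y
          simp
        rw [this]
        apply MeasurableSet.iUnion
        intro n
        exact Fsig_mono (Set.subset_iUnion D n) _ (hA n x) }
  have h : (Prod.instMeasurableSpace : MeasurableSpace ((I → Bool) × (J → Bool))) ≤ G := by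
    refine sup_le (a := MeasurableSpace.comap Prod.fst MeasurableSpace.pi)
      (b := MeasurableSpace.comap Prod.snd MeasurableSpace.pi) ?_ ?_
    · rintro A ⟨s, -, rfl⟩
      refine ⟨∅, Set.countable_empty, fun x => ?_⟩
      by_cases hx : x ∈ s
      · have : {y : J → Bool | (x, y) ∈ Prod.fst ⁻¹' s} = Set.univ := by
          ext y
          simp [hx]
        rw [this]
        exact @MeasurableSet.univ _ (Fsig ∅)
      · have : {y : J → Bool | (x, y) ∈ Prod.fst ⁻¹' s} = ∅ := by
          ext y
          simp [hx]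
        rw [this]
        exact @MeasurableSet.empty _ (Fsig ∅)
    · rintro A ⟨s, hs, rfl⟩
      obtain ⟨D, hD, hD'⟩ := exists_countable_support hs
      exact ⟨D, hD, fun x => hD'⟩
  exact h A hA

/-- Module RAN. -/
theorem ranStmt : RanStmt := by
  intro I W _
  refine ⟨fun w z n => rr w z.2 n, ?_, ?_, ?_⟩
  · intro w n
    exact (rr_meas w n).comp measurable_snd
  · intro v w hvw
    unfold FF
    rw [Filter.eventually_curry_iff]
    refine Eventually.of_forall fun x => ?_
    have h := rr_evdiff v (D := {i | i.1 = w}) (fun n j hj => hvw hj) (fun y n => rr w y n)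
      (fun n k => rr_fsig w n (fun j => rfl) {k})
    filter_upwards [h] with y hy
    exact hy.exists
  · intro g hg
    have h1 : ∀ n k, ∃ D : Set (W × ℕ × ℕ), D.Countable ∧
        ∀ x, MeasurableSet[Fsig D] {y | (x, y) ∈ {z | g z n = k}} := fun n k =>
      exists_support_prod (hg n (measurableSet_singleton k))
    choose D hD hD' using h1
    have hc : (⋃ n, ⋃ k, D n k).Countable :=
      Set.countable_iUnion fun n => Set.countable_iUnion fun k => hD n k
    have hc2 : (Prod.fst '' (⋃ n, ⋃ k, D n k)).Countable := hc.image _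
    obtain ⟨w, hw⟩ : ∃ w, w ∉ Prod.fst '' (⋃ n, ⋃ k, D n k) := by
      by_contra hcon
      push Not at hcon
      have : (Set.univ : Set W).Countable := hc2.mono fun w _ => hcon w
      exact Set.not_countable_univ this
    refine ⟨w, ?_⟩
    unfold FF
    rw [Filter.eventually_curry_iff]
    refine Eventually.of_forall fun x => ?_
    exact rr_evdiff w (D := ⋃ n, ⋃ k, D n k) (fun n j hj => hw ⟨_, hj, rfl⟩)
      (fun y n => g (x, y) n) (fun n k => Fsig_mono
        ((Set.subset_iUnion (D n) k).trans (Set.subset_iUnion (fun n => ⋃ k, D n k) n)) _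
        (hD' n k x))

end Pool.Agent.StarRoth.BV
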