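import Pool.Agent.Lib.MP_a1c723_lc.BV.NameDefs

/-!
# MP_a1c723_lc: statements of the modules

Every module is one file `Pool/Agent/Lib/MP_a1c723_lc/BV/<Name>.lean` with the theorem(s) below,
proved exactly as stated.
-/

set_option autoImplicit false

namespace Pool.Agent.StarRoth.BV

open Pool.Agent.MPa4e7db Pool.Agent.MP_5db68c_lc MeasureTheory Filter

/-- Module ALG (file Alg.lean). -/
def AlgStmt : Prop :=
  ∀ {Ω : Type} [MeasurableSpace Ω] (F : Filter Ω) [CountableInterFilter F] [F.NeBot],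
    CCCF F →
    ∃ (B : Type) (_ : CompleteBooleanAlgebra B) (cls : {s : Set Ω // MeasurableSet s} → B),
      Function.Surjective cls ∧
      (∀ s t, cls s ≤ cls t ↔ ∀ᶠ x in F, x ∈ s.1 → x ∈ t.1) ∧
      (∀ s t, cls s ⊓ cls t = cls ⟨s.1 ∩ t.1, s.2.inter t.2⟩) ∧
      (∀ s, (cls s)ᶜ = cls ⟨s.1ᶜ, s.2.compl⟩) ∧
      (∀ s : ℕ → {s : Set Ω // MeasurableSet s},
        ⨆ n, cls (s n) = cls ⟨⋃ n, (s n).1, MeasurableSet.iUnion fun n => (s n).2⟩) ∧
      cls ⟨Set.univ, MeasurableSet.univ⟩ = ⊤ ∧ cls ⟨∅, MeasurableSet.empty⟩ = ⊥ ∧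
      ∀ (ι : Type) (f : ι → B), (∀ i j, i ≠ j → f i ⊓ f j = ⊥) → {i | f i ≠ ⊥}.Countable

/-- Module CCC (file CCC.lean): three statements. -/
def CCCStmt : Prop :=
  ∀ I J : Type, CountableInterFilter (FF I J) ∧ (FF I J).NeBot ∧ CCCF (FF I J)

/-- Module DOM (file Dom.lean): a Cohen real is not dominated. -/
def DomStmt : Prop :=
  ∀ {W J : Type} [Infinite W]
    (G : W → ((Set W × ℕ × ℕ) → Bool) × (J → Bool) → ℕ → ℕ),
    (∀ w m, Measurable fun z => G w z m) →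
    ∃ h : ((Set W × ℕ × ℕ) → Bool) × (J → Bool) → ℕ → ℕ, (∀ m, Measurable fun z => h z m) ∧
      ∀ w, ∀ᶠ z in FF (Set W × ℕ × ℕ) J, ∃ᶠ m in atTop, G w z m ≤ h z m

/-- Module RAN (file Ran.lean): a random function is eventually different. -/
def RanStmt : Prop :=
  ∀ {I W : Type} [Uncountable W],
    ∃ r : W → (I → Bool) × ((W × ℕ × ℕ) → Bool) → ℕ → ℕ,
      (∀ w n, Measurable fun z => r w z n) ∧
      (∀ v w, v ≠ w → ∀ᶠ z in FF I (W × ℕ × ℕ), ∃ n, r v z n ≠ r w z n) ∧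
      ∀ g : (I → Bool) × ((W × ℕ × ℕ) → Bool) → ℕ → ℕ, (∀ n, Measurable fun z => g z n) →
        ∃ w, ∀ᶠ z in FF I (W × ℕ × ℕ), ∀ᶠ n in atTop, r w z n ≠ g z n

/-- Module FACTS (file FactsEx.lean): from ALG, CCC, DOM and RAN. -/
def FactsStmt : Prop :=
  AlgStmt → CCCStmt → DomStmt → RanStmt → ∀ (W : Type) [Uncountable W],
    ∃ (B : Type) (_ : CompleteBooleanAlgebra B), Facts B W

/-- Module MODEL (file Model.lean): a two-valued model of ZFC in which everything holds that has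
Boolean value `⊤`. -/
def ModelStmt : Prop :=
  ∀ (B : Type) [CompleteBooleanAlgebra B], (⊥ : B) ≠ ⊤ →
    ∃ (M : Type) (_ : Membership M M), ModelZFC M ∧
      ∀ φ : Fml, (∀ v : ℕ → BName B, val φ v = ⊤) → ∀ v : ℕ → M, Sat φ v

/-- Module CARD (file Card.lean). -/
def CardStmt : Prop :=
  ∀ {B : Type} [CompleteBooleanAlgebra B] {W : Type} [LinearOrder W] [WellFoundedLT W]
    [Uncountable W], (∀ w : W, (Set.Iio w).Countable) → Facts B W →
    isCardB (kapN B W) = ⊤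

/-- Module COF (file Cof.lean). -/
def CofStmt : Prop :=
  ∀ {B : Type} [CompleteBooleanAlgebra B] {W : Type} [LinearOrder W] [WellFoundedLT W]
    [Uncountable W], (∀ w : W, (Set.Iio w).Countable) → Facts B W →
    cofEqB (kapN B W) omegaN = ⊤

/-- Module COV (file Cov.lean). -/
def CovStmt : Prop :=
  ∀ {B : Type} [CompleteBooleanAlgebra B] {W : Type} [LinearOrder W] [WellFoundedLT W],
    Facts B W → covLeB (kapN B W) omegaN = ⊤

/-- Module FAM (file Fam.lean). -/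
def FamStmt : Prop :=
  ∀ {B : Type} [CompleteBooleanAlgebra B] {W : Type} [LinearOrder W] [WellFoundedLT W]
    (A : W → Set ℕ), (∀ w, (A w).Infinite) → (∀ v w, v ≠ w → (A v ∩ A w).Finite) →
    isADB (famN B A) omegaN = ⊤ ∧ (⨆ f : BName B, isBijB f (famN B A) (kapN B W)) = ⊤

/-- Module STAR (file Star.lean). -/
def StarStmt : Prop :=
  ∀ {B : Type} [CompleteBooleanAlgebra B] {W : Type} [LinearOrder W] [WellFoundedLT W]
    [Uncountable W], (∀ w : W, (Set.Iio w).Countable) → Facts B W →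
    ∀ A : W → Set ℕ, (∀ w (k : ℕ), {v | v < w ∧ A w ∩ A v ⊆ Set.Iio k}.Finite) →
      starRothB (famN B A) omegaN = ⊤

end Pool.Agent.StarRoth.BV
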