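import Mathlib
import Pool.Agent.Lib.MP_a1c723_lc.BV.Stmts

/-!
# MP_a1c723_lc, module FACTS: the Boolean algebra with the properties `Facts`
-/

set_option autoImplicit false

namespace Pool.Agent.StarRoth.BV

open Pool.Agent.MPa4e7db Pool.Agent.MP_5db68c_lc MeasureTheory Filter

namespace FactsAux

section least

variable {Ω : Type} [MeasurableSpace Ω]

open Classical in
lemma ex_least (E : ℕ → Set Ω) (z : Ω) : ∃ k, z ∈ E k ∨ z ∉ ⋃ n, E n := by
  by_cases h : z ∈ ⋃ n, E n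
  · obtain ⟨k, hk⟩ := Set.mem_iUnion.1 h
    exact ⟨k, Or.inl hk⟩
  · exact ⟨0, Or.inr h⟩

open Classical in
/-- the least `k` with `z ∈ E k`, and `0` if there is none -/
noncomputable def least (E : ℕ → Set Ω) (z : Ω) : ℕ := Nat.find (ex_least E z)

open Classical in
lemma least_measurable {E : ℕ → Set Ω} (hE : ∀ n, MeasurableSet (E n)) :
    Measurable (least E) := by
  refine measurable_find (ex_least E) fun k => ?_
  exact (hE k).union (MeasurableSet.iUnion hE).compl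

open Classical in
lemma least_mem {E : ℕ → Set Ω} {z : Ω} (hz : z ∈ ⋃ n, E n) : z ∈ E (least E z) := by
  rcases Nat.find_spec (ex_least E z) with h | h
  · exact h
  · exact absurd hz h

lemma least_eq {E : ℕ → Set Ω} {z : Ω} {k : ℕ} (hz : z ∈ E k)
    (hd : ∀ l, l ≠ k → z ∉ E l) : least E z = k := by
  by_contra hne
  exact hd _ hne (least_mem (Set.mem_iUnion.2 ⟨k, hz⟩))

end least

/-- the properties of the quotient algebra that are used -/
structure Quot {Ω : Type} [MeasurableSpace Ω] (F : Filter Ω) (B : Type)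
    [CompleteBooleanAlgebra B] (cls : {s : Set Ω // MeasurableSet s} → B) : Prop where
  surj : Function.Surjective cls
  le_iff : ∀ s t, cls s ≤ cls t ↔ ∀ᶠ x in F, x ∈ s.1 → x ∈ t.1
  inf : ∀ s t, cls s ⊓ cls t = cls ⟨s.1 ∩ t.1, s.2.inter t.2⟩
  compl : ∀ s, (cls s)ᶜ = cls ⟨s.1ᶜ, s.2.compl⟩
  iSup : ∀ s : ℕ → {s : Set Ω // MeasurableSet s},
    ⨆ n, cls (s n) = cls ⟨⋃ n, (s n).1, MeasurableSet.iUnion fun n => (s n).2⟩
  top : cls ⟨Set.univ, MeasurableSet.univ⟩ = ⊤
  bot : cls ⟨∅, MeasurableSet.empty⟩ = ⊥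

namespace Quot

variable {Ω : Type} [MeasurableSpace Ω] {F : Filter Ω} {B : Type}
  [CompleteBooleanAlgebra B] {cls : {s : Set Ω // MeasurableSet s} → B}

lemma eq_top_iff (Q : Quot F B cls) (s : {s : Set Ω // MeasurableSet s}) :
    cls s = ⊤ ↔ ∀ᶠ x in F, x ∈ s.1 := by
  rw [← top_le_iff, ← Q.top, Q.le_iff]
  simp

lemma eq_bot_iff (Q : Quot F B cls) (s : {s : Set Ω // MeasurableSet s}) :
    cls s = ⊥ ↔ ∀ᶠ x in F, x ∉ s.1 := by
  rw [← le_bot_iff, ← Q.bot, Q.le_iff]
  simp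

/-- a countable family of measurable sets that covers almost everything -/
lemma iSup_eq_top (Q : Quot F B cls) {ι : Type} [Countable ι]
    (s : ι → {s : Set Ω // MeasurableSet s}) {b : B} (hb : ∀ i, cls (s i) ≤ b)
    (h : ∀ᶠ x in F, ∃ i, x ∈ (s i).1) : b = ⊤ := by
  rcases isEmpty_or_nonempty ι with he | hne
  · rw [← top_le_iff, ← Q.top]
    have h1 : cls ⟨Set.univ, MeasurableSet.univ⟩ ≤ cls ⟨∅, MeasurableSet.empty⟩ := by
      rw [Q.le_iff]
      filter_upwards [h] with x hx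
      exact (he.false hx.choose).elim
    rw [Q.bot] at h1
    exact h1.trans bot_le
  · obtain ⟨f, hf⟩ := exists_surjective_nat ι
    have h1 : ⨆ n, cls (s (f n)) = ⊤ := by
      rw [Q.iSup, Q.eq_top_iff]
      filter_upwards [h] with x hx
      obtain ⟨i, hi⟩ := hx
      obtain ⟨n, rfl⟩ := hf i
      exact Set.mem_iUnion.2 ⟨n, hi⟩
    rw [← top_le_iff, ← h1]
    exact iSup_le fun n => hb _

/-- the level sets of a measurable function -/
def lev (f : Ω → ℕ) (hf : Measurable f) (k : ℕ) : {s : Set Ω // MeasurableSet s} :=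
  ⟨f ⁻¹' {k}, hf (measurableSet_singleton k)⟩

lemma lev_disj (Q : Quot F B cls) (f : Ω → ℕ) (hf : Measurable f) {k l : ℕ} (hkl : k ≠ l) :
    cls (lev f hf k) ⊓ cls (lev f hf l) = ⊥ := by
  rw [Q.inf, Q.eq_bot_iff]
  refine Eventually.of_forall fun x hx => hkl ?_
  have h1 : f x = k := hx.1
  have h2 : f x = l := hx.2
  exact h1.symm.trans h2

lemma lev_top (Q : Quot F B cls) (f : Ω → ℕ) (hf : Measurable f) :
    ⨆ k, cls (lev f hf k) = ⊤ :=
  Q.iSup_eq_top (lev f hf) (fun k => le_iSup (fun k => cls (lev f hf k)) k)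
    (Eventually.of_forall fun x => ⟨f x, rfl⟩)

lemma exists_repr (Q : Quot F B cls) {ι : Type} (e : ι → B) :
    ∃ E : ι → {s : Set Ω // MeasurableSet s}, ∀ i, cls (E i) = e i :=
  ⟨fun i => (Q.surj (e i)).choose, fun i => (Q.surj (e i)).choose_spec⟩

end Quot

end FactsAux

open FactsAux FactsAux.Quot

theorem factsStmt : FactsStmt := by
  intro hAlg hCCC hDom hRan W _
  obtain ⟨hCI, hNB, hcccF⟩ := hCCC (Set W × ℕ × ℕ) (W × ℕ × ℕ)
  haveI := hCI
  haveI := hNB
  obtain ⟨B, instB, cls, q1, q2, q3, q4, q5, q6, q7, q8⟩ :=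
    hAlg (FF (Set W × ℕ × ℕ) (W × ℕ × ℕ)) hcccF
  have Q : Quot (FF (Set W × ℕ × ℕ) (W × ℕ × ℕ)) B cls := ⟨q1, q2, q3, q4, q5, q6, q7⟩
  refine ⟨B, instB, ?_, q8, ?_, ?_⟩
  · intro h
    have h1 : cls ⟨∅, MeasurableSet.empty⟩ = ⊤ := by rw [Q.bot, h]
    rw [Q.eq_top_iff] at h1
    obtain ⟨x, hx⟩ := h1.exists
    exact hx
  · -- dom
    intro e he
    obtain ⟨E, hE⟩ : ∃ E : W → ℕ → ℕ → {s : Set (((Set W × ℕ × ℕ) → Bool) ×
        ((W × ℕ × ℕ) → Bool)) // MeasurableSet s}, ∀ w m k, cls (E w m k) = e w m k :=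
      ⟨fun w m k => (q1 (e w m k)).choose, fun w m k => (q1 (e w m k)).choose_spec⟩
    obtain ⟨h, hh, hdom⟩ := hDom (W := W) (J := W × ℕ × ℕ)
      (fun w z m => least (fun k => (E w m k).1) z)
      (fun w m => least_measurable fun k => (E w m k).2)
    refine ⟨fun m k => cls (lev (fun z => h z m) (hh m) k), ?_, ?_, ?_⟩
    · intro m k l hkl
      exact Q.lev_disj _ _ hkl
    · intro m
      exact Q.lev_top _ _
    · intro w m₀
      refine Q.iSup_eq_top (ι := {p : ℕ × ℕ × ℕ // m₀ ≤ p.1 ∧ p.2.2 ≤ p.2.1})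
        (fun p => ⟨(lev (fun z => h z p.1.1) (hh p.1.1) p.1.2.1).1 ∩ (E w p.1.1 p.1.2.2).1,
          (lev (fun z => h z p.1.1) (hh p.1.1) p.1.2.1).2.inter (E w p.1.1 p.1.2.2).2⟩) ?_ ?_
      · rintro ⟨⟨m, k, j⟩, hm, hj⟩
        rw [← Q.inf, hE]
        exact le_iSup_of_le m (le_iSup_of_le hm (le_iSup_of_le k (le_iSup_of_le j
          (le_iSup_of_le hj le_rfl))))
      · have h1 : ∀ᶠ z in FF (Set W × ℕ × ℕ) (W × ℕ × ℕ), ∀ m, z ∈ ⋃ k, (E w m k).1 := by
          rw [eventually_countable_forall]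
          intro m
          have h2 := he w m
          simp only [← hE] at h2
          rw [Q.iSup, Q.eq_top_iff] at h2
          exact h2
        filter_upwards [h1, hdom w] with z hz hf
        obtain ⟨m, hm, hle⟩ := frequently_atTop.1 hf m₀
        exact ⟨⟨⟨m, h z m, least (fun k => (E w m k).1) z⟩, hm, hle⟩, rfl, least_mem (hz m)⟩
  · -- ran
    obtain ⟨r, hr, hne, hran⟩ := hRan (I := Set W × ℕ × ℕ) (W := W)
    refine ⟨fun w n k => cls (lev (fun z => r w z n) (hr w n) k), ?_, ?_, ?_, ?_⟩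
    · intro w n k l hkl
      exact Q.lev_disj _ _ hkl
    · intro w n
      exact Q.lev_top _ _
    · intro v w hvw
      refine Q.iSup_eq_top (ι := {p : ℕ × ℕ × ℕ // p.2.1 ≠ p.2.2})
        (fun p => ⟨(lev (fun z => r v z p.1.1) (hr v p.1.1) p.1.2.1).1 ∩
            (lev (fun z => r w z p.1.1) (hr w p.1.1) p.1.2.2).1,
          (lev (fun z => r v z p.1.1) (hr v p.1.1) p.1.2.1).2.inter
            (lev (fun z => r w z p.1.1) (hr w p.1.1) p.1.2.2).2⟩) ?_ ?_
      · rintro ⟨⟨n, k, l⟩, hkl⟩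
        rw [← Q.inf]
        exact le_iSup_of_le n (le_iSup_of_le k (le_iSup_of_le l (le_iSup_of_le hkl le_rfl)))
      · filter_upwards [hne v w hvw] with z hz
        obtain ⟨n, hn⟩ := hz
        exact ⟨⟨⟨n, r v z n, r w z n⟩, hn⟩, rfl, rfl⟩
    · intro g hg
      obtain ⟨E, hE⟩ : ∃ E : ℕ → ℕ → {s : Set (((Set W × ℕ × ℕ) → Bool) ×
          ((W × ℕ × ℕ) → Bool)) // MeasurableSet s}, ∀ n k, cls (E n k) = g n k :=
        ⟨fun n k => (q1 (g n k)).choose, fun n k => (q1 (g n k)).choose_spec⟩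
      obtain ⟨w, hw⟩ := hran (fun z n => least (fun k => (E n k).1) z)
        (fun n => least_measurable fun k => (E n k).2)
      refine ⟨w, ?_⟩
      have hmeas : ∀ n k, MeasurableSet ({z | r w z n = k} ∩ (E n k).1) := fun n k =>
        (hr w n (measurableSet_singleton k)).inter (E n k).2
      refine Q.iSup_eq_top (ι := ℕ)
        (fun n₀ => ⟨⋂ n : ℕ, ⋂ (_ : n₀ ≤ n), ⋂ k : ℕ, ({z | r w z n = k} ∩ (E n k).1)ᶜ,
          MeasurableSet.iInter fun n => MeasurableSet.iInter fun _ =>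
            MeasurableSet.iInter fun k => (hmeas n k).compl⟩) ?_ ?_
      · intro n₀
        refine le_iSup_of_le n₀ (le_iInf fun n => le_iInf fun hn => le_iInf fun k => ?_)
        rw [← hE, Q.inf, Q.compl, Q.le_iff]
        refine Eventually.of_forall fun z hz => ?_
        simp only [Set.mem_iInter] at hz
        exact hz n hn k
      · have hd : ∀ᶠ z in FF (Set W × ℕ × ℕ) (W × ℕ × ℕ), ∀ p : ℕ × ℕ × ℕ,
            p.2.1 ≠ p.2.2 → z ∉ (E p.1 p.2.1).1 ∩ (E p.1 p.2.2).1 := by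
          rw [eventually_countable_forall]
          rintro ⟨n, k, l⟩
          by_cases hkl : k = l
          · exact Eventually.of_forall fun z h => absurd hkl h
          · have h2 := hg n k l hkl
            rw [← hE, ← hE, Q.inf, Q.eq_bot_iff] at h2
            filter_upwards [h2] with z hz _
            exact hz
        filter_upwards [hw, hd] with z hz hdz
        obtain ⟨n₀, hn₀⟩ := eventually_atTop.1 hz
        refine ⟨n₀, ?_⟩
        simp only [Set.mem_iInter]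
        rintro n hn k ⟨h1, h2⟩
        refine hn₀ n hn ?_
        have h3 : least (fun k => (E n k).1) z = k := by
          refine least_eq h2 fun l hl hl2 => ?_
          exact hdz ⟨n, l, k⟩ hl ⟨hl2, h2⟩
        rw [h3]
        exact h1

end Pool.Agent.StarRoth.BV
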