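import Pool.Agent.Lib.MP_a1c723_lc.BV.Stmts

/-!
# MP_a1c723_lc, module ALG

The measurable sets modulo a countably complete filter with the countable chain condition form a
complete Boolean algebra in which countable suprema are computed by unions.
-/

set_option autoImplicit false

namespace Pool.Agent.StarRoth.BV.Alg

open MeasureTheory Filter

variable {Ω : Type} [MeasurableSpace Ω]

/-- Measurable sets, up to equality modulo the filter. -/
def fSetoid (F : Filter Ω) : Setoid {s : Set Ω // MeasurableSet s} where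
  r s t := ∀ᶠ x in F, (x ∈ s.1 ↔ x ∈ t.1)
  iseqv := by
    refine ⟨fun s => Eventually.of_forall fun x => Iff.rfl, ?_, ?_⟩
    · intro s t h
      filter_upwards [h] with x hx using hx.symm
    · intro s t r h1 h2
      filter_upwards [h1, h2] with x hx hx' using hx.trans hx'

/-- The quotient algebra. -/
def FAlg (F : Filter Ω) : Type := Quotient (fSetoid F)

variable {F : Filter Ω}

/-- The class of a measurable set. -/
def cls (s : {s : Set Ω // MeasurableSet s}) : FAlg F := Quotient.mk (fSetoid F) s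

theorem ind {p : FAlg F → Prop} (h : ∀ s : {s : Set Ω // MeasurableSet s}, p (cls s))
    (a : FAlg F) : p a := Quotient.ind (fun s => h s) a

theorem cls_eq_cls {s t : {s : Set Ω // MeasurableSet s}} :
    (cls s : FAlg F) = cls t ↔ ∀ᶠ x in F, (x ∈ s.1 ↔ x ∈ t.1) := Quotient.eq (r := fSetoid F)

/-- A measurable representative. -/
noncomputable def rep (a : FAlg F) : {s : Set Ω // MeasurableSet s} := Quotient.out a

theorem cls_rep (a : FAlg F) : cls (rep a) = a := Quotient.out_eq a

theorem rep_inj {a b : FAlg F} (h : (rep a).1 = (rep b).1) : a = b := by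
  rw [← cls_rep a, ← cls_rep b, Subtype.ext h]

instance : LE (FAlg F) := ⟨fun a b =>
  Quotient.liftOn₂ a b (fun s t => ∀ᶠ x in F, x ∈ s.1 → x ∈ t.1) (by
    intro s t s' t' h1 h2
    have h1' : ∀ᶠ x in F, (x ∈ s.1 ↔ x ∈ s'.1) := h1
    have h2' : ∀ᶠ x in F, (x ∈ t.1 ↔ x ∈ t'.1) := h2
    refine propext ⟨fun h => ?_, fun h => ?_⟩
    · filter_upwards [h, h1', h2'] with x hx e1 e2 using fun hs => e2.1 (hx (e1.2 hs))
    · filter_upwards [h, h1', h2'] with x hx e1 e2 using fun hs => e2.2 (hx (e1.1 hs)))⟩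

theorem cls_le_cls {s t : {s : Set Ω // MeasurableSet s}} :
    (cls s : FAlg F) ≤ cls t ↔ ∀ᶠ x in F, x ∈ s.1 → x ∈ t.1 := Iff.rfl

theorem cls_le_cls_of_subset {s t : {s : Set Ω // MeasurableSet s}} (h : s.1 ⊆ t.1) :
    (cls s : FAlg F) ≤ cls t := cls_le_cls.mpr (Eventually.of_forall fun _ hx => h hx)

/-- Union of classes. -/
def sup' (a b : FAlg F) : FAlg F :=
  Quotient.liftOn₂ a b (fun s t => cls ⟨s.1 ∪ t.1, s.2.union t.2⟩) (by
    intro s t s' t' h1 h2
    have h1' : ∀ᶠ x in F, (x ∈ s.1 ↔ x ∈ s'.1) := h1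
    have h2' : ∀ᶠ x in F, (x ∈ t.1 ↔ x ∈ t'.1) := h2
    refine cls_eq_cls.mpr ?_
    filter_upwards [h1', h2'] with x e1 e2
    rw [Set.mem_union, Set.mem_union, e1, e2])

/-- Intersection of classes. -/
def inf' (a b : FAlg F) : FAlg F :=
  Quotient.liftOn₂ a b (fun s t => cls ⟨s.1 ∩ t.1, s.2.inter t.2⟩) (by
    intro s t s' t' h1 h2
    have h1' : ∀ᶠ x in F, (x ∈ s.1 ↔ x ∈ s'.1) := h1
    have h2' : ∀ᶠ x in F, (x ∈ t.1 ↔ x ∈ t'.1) := h2
    refine cls_eq_cls.mpr ?_
    filter_upwards [h1', h2'] with x e1 e2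
    rw [Set.mem_inter_iff, Set.mem_inter_iff, e1, e2])

/-- Complement of a class. -/
def compl' (a : FAlg F) : FAlg F :=
  Quotient.liftOn a (fun s => cls ⟨(s.1)ᶜ, s.2.compl⟩) (by
    intro s t h
    have h' : ∀ᶠ x in F, (x ∈ s.1 ↔ x ∈ t.1) := h
    refine cls_eq_cls.mpr ?_
    filter_upwards [h'] with x e
    rw [Set.mem_compl_iff, Set.mem_compl_iff, e])

instance : PartialOrder (FAlg F) where
  le_refl := by
    intro a; induction a using ind with | _ s => exact Eventually.of_forall fun _ h => h
  le_trans := by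
    intro a b c
    induction a using ind with | _ s =>
    induction b using ind with | _ t =>
    induction c using ind with | _ r =>
    intro h1 h2
    have h1' := cls_le_cls.1 h1
    have h2' := cls_le_cls.1 h2
    refine cls_le_cls.2 ?_
    filter_upwards [h1', h2'] with x e1 e2 using fun hx => e2 (e1 hx)
  le_antisymm := by
    intro a b
    induction a using ind with | _ s =>
    induction b using ind with | _ t =>
    intro h1 h2
    have h1' := cls_le_cls.1 h1
    have h2' := cls_le_cls.1 h2
    refine cls_eq_cls.2 ?_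
    filter_upwards [h1', h2'] with x e1 e2 using ⟨e1, e2⟩

instance : BooleanAlgebra (FAlg F) where
  sup := sup'
  inf := inf'
  compl := compl'
  top := cls ⟨Set.univ, MeasurableSet.univ⟩
  bot := cls ⟨∅, MeasurableSet.empty⟩
  le_sup_left := by
    intro a b
    induction a using ind with | _ s =>
    induction b using ind with | _ t =>
    exact cls_le_cls_of_subset Set.subset_union_left
  le_sup_right := by
    intro a b
    induction a using ind with | _ s =>
    induction b using ind with | _ t =>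
    exact cls_le_cls_of_subset Set.subset_union_right
  sup_le := by
    intro a b c
    induction a using ind with | _ s =>
    induction b using ind with | _ t =>
    induction c using ind with | _ r =>
    intro h1 h2
    have h1' := cls_le_cls.1 h1
    have h2' := cls_le_cls.1 h2
    refine cls_le_cls.2 ?_
    filter_upwards [h1', h2'] with x e1 e2
    rintro (hx | hx)
    · exact e1 hx
    · exact e2 hx
  inf_le_left := by
    intro a b
    induction a using ind with | _ s =>
    induction b using ind with | _ t =>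
    exact cls_le_cls_of_subset Set.inter_subset_left
  inf_le_right := by
    intro a b
    induction a using ind with | _ s =>
    induction b using ind with | _ t =>
    exact cls_le_cls_of_subset Set.inter_subset_right
  le_inf := by
    intro a b c
    induction a using ind with | _ s =>
    induction b using ind with | _ t =>
    induction c using ind with | _ r =>
    intro h1 h2
    have h1' := cls_le_cls.1 h1
    have h2' := cls_le_cls.1 h2
    refine cls_le_cls.2 ?_
    filter_upwards [h1', h2'] with x e1 e2 using fun hx => ⟨e1 hx, e2 hx⟩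
  le_sup_inf := by
    intro a b c
    induction a using ind with | _ s =>
    induction b using ind with | _ t =>
    induction c using ind with | _ r =>
    exact cls_le_cls_of_subset (Set.union_inter_distrib_left s.1 t.1 r.1).ge
  inf_compl_le_bot := by
    intro a
    induction a using ind with | _ s =>
    exact cls_le_cls_of_subset (Set.inter_compl_self s.1).le
  top_le_sup_compl := by
    intro a
    induction a using ind with | _ s =>
    exact cls_le_cls_of_subset (Set.union_compl_self s.1).ge
  le_top := by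
    intro a
    induction a using ind with | _ s =>
    exact cls_le_cls_of_subset (Set.subset_univ s.1)
  bot_le := by
    intro a
    induction a using ind with | _ s =>
    exact cls_le_cls_of_subset (Set.empty_subset s.1)

theorem cls_inf (s t : {s : Set Ω // MeasurableSet s}) :
    (cls s ⊓ cls t : FAlg F) = cls ⟨s.1 ∩ t.1, s.2.inter t.2⟩ := rfl

theorem cls_compl (s : {s : Set Ω // MeasurableSet s}) :
    ((cls s)ᶜ : FAlg F) = cls ⟨(s.1)ᶜ, s.2.compl⟩ := rfl

theorem cls_empty : (cls ⟨∅, MeasurableSet.empty⟩ : FAlg F) = ⊥ := rfl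

theorem cls_univ : (cls ⟨Set.univ, MeasurableSet.univ⟩ : FAlg F) = ⊤ := rfl

theorem frequently_rep {a : FAlg F} (ha : a ≠ ⊥) : ∃ᶠ x in F, x ∈ (rep a).1 := by
  intro h
  apply ha
  rw [← cls_rep a, ← cls_empty, cls_eq_cls]
  filter_upwards [h] with x hx
  exact ⟨fun h1 => absurd h1 hx, fun h1 => absurd h1 (Set.notMem_empty x)⟩

theorem disjoint_rep {a b : FAlg F} (hab : a ⊓ b = ⊥) :
    ∀ᶠ x in F, ¬ (x ∈ (rep a).1 ∧ x ∈ (rep b).1) := by
  rw [← cls_rep a, ← cls_rep b, cls_inf, ← cls_empty, cls_eq_cls] at hab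
  filter_upwards [hab] with x hx h
  exact Set.notMem_empty x (hx.1 ⟨h.1, h.2⟩)

/-- The countable chain condition in the quotient. -/
theorem ccc (hF : CCCF F) {ι : Type} (f : ι → FAlg F) (hf : ∀ i j, i ≠ j → f i ⊓ f j = ⊥) :
    {i | f i ≠ ⊥}.Countable := by
  refine Set.countable_of_injective_of_countable_image (f := fun i => (rep (f i)).1) ?_ ?_
  · intro i hi j hj hij
    by_contra hne
    have h1 : f i = f j := rep_inj hij
    have h2 := hf i j hne
    rw [← h1, inf_idem] at h2
    exact hi h2
  · refine hF _ ?_ ?_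
    · rintro _ ⟨i, hi, rfl⟩
      exact ⟨(rep (f i)).2, frequently_rep hi⟩
    · rintro _ ⟨i, hi, rfl⟩ _ ⟨j, hj, rfl⟩ hne
      have hij : i ≠ j := fun h => hne (by rw [h])
      exact disjoint_rep (hf i j hij)

/-- The countable supremum. -/
noncomputable def csup (f : ℕ → FAlg F) : FAlg F :=
  cls ⟨⋃ n, (rep (f n)).1, MeasurableSet.iUnion fun n => (rep (f n)).2⟩

theorem le_csup (f : ℕ → FAlg F) (n : ℕ) : f n ≤ csup f := by
  conv_lhs => rw [← cls_rep (f n)]
  exact cls_le_cls_of_subset (Set.subset_iUnion (fun n => (rep (f n)).1) n)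

theorem csup_le [CountableInterFilter F] {f : ℕ → FAlg F} {b : FAlg F} (h : ∀ n, f n ≤ b) :
    csup f ≤ b := by
  rw [← cls_rep b]
  have h1 : ∀ n, ∀ᶠ x in F, x ∈ (rep (f n)).1 → x ∈ (rep b).1 := by
    intro n
    have := h n
    rw [← cls_rep (f n), ← cls_rep b] at this
    exact this
  have h2 : ∀ᶠ x in F, ∀ n, x ∈ (rep (f n)).1 → x ∈ (rep b).1 := eventually_countable_forall.2 h1
  refine cls_le_cls.mpr ?_
  filter_upwards [h2] with x hx hx2
  obtain ⟨n, hn⟩ := Set.mem_iUnion.mp hx2
  exact hx n hn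

/-- Every set has a supremum which is a countable one. -/
theorem exists_csup [CountableInterFilter F] (hF : CCCF F) (S : Set (FAlg F)) :
    ∃ f : ℕ → FAlg F, (∀ n, (∃ s ∈ S, f n ≤ s) ∨ f n = ⊥) ∧ ∀ s ∈ S, s ≤ csup f := by
  classical
  let 𝒟 : Set (Set (FAlg F)) := {D | (∀ d ∈ D, d ≠ ⊥ ∧ ∃ s ∈ S, d ≤ s) ∧
    ∀ d ∈ D, ∀ d' ∈ D, d ≠ d' → d ⊓ d' = ⊥}
  obtain ⟨D, hD⟩ : ∃ D, Maximal (· ∈ 𝒟) D := by
    refine zorn_subset 𝒟 ?_
    intro c hc hchain
    refine ⟨⋃₀ c, ⟨?_, ?_⟩, fun s hs => Set.subset_sUnion_of_mem hs⟩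
    · rintro d ⟨t, ht, hdt⟩
      exact (hc ht).1 d hdt
    · rintro d ⟨t, ht, hdt⟩ d' ⟨t', ht', hdt'⟩ hne
      rcases hchain.total ht ht' with h | h
      · exact (hc ht').2 d (h hdt) d' hdt' hne
      · exact (hc ht).2 d hdt d' (h hdt') hne
  have hDc : D.Countable := by
    refine Set.countable_of_injective_of_countable_image (f := fun d => (rep d).1)
      (fun d _ d' _ h => rep_inj h) (hF _ ?_ ?_)
    · rintro _ ⟨d, hd, rfl⟩
      exact ⟨(rep d).2, frequently_rep (hD.prop.1 d hd).1⟩
    · rintro _ ⟨d, hd, rfl⟩ _ ⟨d', hd', rfl⟩ hne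
      exact disjoint_rep (hD.prop.2 d hd d' hd' (fun h => hne (by rw [h])))
  obtain ⟨f, hf⟩ := (hDc.insert (⊥ : FAlg F)).exists_eq_range (Set.insert_nonempty _ _)
  have hfD : ∀ d ∈ D, d ≤ csup f := by
    intro d hd
    have : d ∈ Set.range f := by
      rw [← hf]; exact Set.mem_insert_of_mem _ hd
    obtain ⟨n, rfl⟩ := this
    exact le_csup f n
  refine ⟨f, ?_, ?_⟩
  · intro n
    have : f n ∈ insert ⊥ D := by
      rw [hf]; exact ⟨n, rfl⟩
    rcases Set.mem_insert_iff.1 this with h | h
    · exact Or.inr h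
    · exact Or.inl (hD.prop.1 _ h).2
  · intro s hs
    by_contra hle
    set e : FAlg F := s ⊓ (csup f)ᶜ with he
    have he0 : e ≠ ⊥ := by
      intro h
      apply hle
      have h1 : Disjoint s (csup f)ᶜ := disjoint_iff.2 h
      exact (disjoint_compl_right_iff.1 h1)
    have heD : ∀ d ∈ D, e ⊓ d = ⊥ := by
      intro d hd
      have h1 : d ≤ csup f := hfD d hd
      refine le_bot_iff.1 ?_
      calc e ⊓ d ≤ (csup f)ᶜ ⊓ csup f := inf_le_inf inf_le_right h1
        _ = ⊥ := compl_inf_eq_bot
    have hins : insert e D ∈ 𝒟 := by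
      refine ⟨?_, ?_⟩
      · rintro d (rfl | hd)
        · exact ⟨he0, s, hs, inf_le_left⟩
        · exact hD.prop.1 d hd
      · rintro d (rfl | hd) d' (rfl | hd') hne
        · exact absurd rfl hne
        · exact heD d' hd'
        · rw [inf_comm]; exact heD d hd
        · exact hD.prop.2 d hd d' hd' hne
    have hmem : e ∈ D := hD.le_of_ge hins (Set.subset_insert e D) (Set.mem_insert e D)
    have := heD e hmem
    rw [inf_idem] at this
    exact he0 this

/-- The complete Boolean algebra. -/
@[instance_reducible] noncomputable def cba [CountableInterFilter F] (hF : CCCF F) : CompleteBooleanAlgebra (FAlg F) :=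
  { (inferInstance : BooleanAlgebra (FAlg F)) with
    sSup := fun S => csup (exists_csup hF S).choose
    isLUB_sSup := by
      intro S
      have h := (exists_csup hF S).choose_spec
      refine ⟨fun s hs => h.2 s hs, fun b hb => csup_le fun n => ?_⟩
      rcases h.1 n with ⟨s, hs, h1⟩ | h1
      · exact h1.trans (hb hs)
      · rw [h1]; exact bot_le
    sInf := fun S => (csup (exists_csup hF {a | aᶜ ∈ S}).choose)ᶜ
    isGLB_sInf := by
      intro S
      have h := (exists_csup hF {a | aᶜ ∈ S}).choose_spec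
      refine ⟨fun s hs => ?_, fun b hb => ?_⟩
      · rw [compl_le_iff_compl_le]
        exact h.2 _ (by change sᶜᶜ ∈ S; rwa [compl_compl])
      · rw [le_compl_iff_le_compl]
        refine csup_le fun n => ?_
        rcases h.1 n with ⟨s, hs, h1⟩ | h1
        · refine h1.trans ?_
          rw [le_compl_iff_le_compl]; exact hb hs
        · rw [h1]; exact bot_le }

end Pool.Agent.StarRoth.BV.Alg

namespace Pool.Agent.StarRoth.BV

open Alg in
theorem algStmt : AlgStmt := by
  intro Ω _ F _ _ hF
  let _ := cba hF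
  refine ⟨FAlg F, cba hF, cls, fun a => ⟨rep a, cls_rep a⟩, fun s t => cls_le_cls,
    fun s t => cls_inf s t, fun s => cls_compl s, ?_, cls_univ, cls_empty,
    fun ι f hf => ccc hF f hf⟩
  intro s
  refine le_antisymm (iSup_le fun n => ?_) ?_
  · exact cls_le_cls_of_subset (Set.subset_iUnion (fun n => (s n).1) n)
  · rw [← cls_rep (⨆ n, (cls (s n) : FAlg F))]
    have h1 : ∀ n, ∀ᶠ x in F, x ∈ (s n).1 → x ∈ (rep (⨆ n, (cls (s n) : FAlg F))).1 := by
      intro n
      have := le_iSup (fun n => (cls (s n) : FAlg F)) n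
      rw [← cls_rep (⨆ n, (cls (s n) : FAlg F))] at this
      exact this
    have h2 := eventually_countable_forall.2 h1
    refine cls_le_cls.mpr ?_
    filter_upwards [h2] with x hx hx2
    obtain ⟨n, hn⟩ := Set.mem_iUnion.mp hx2
    exact hx n hn

end Pool.Agent.StarRoth.BV
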