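import Pool.Agent.Lib.MP_a1c723_lc.BV.Stmts
import Pool.Agent.Lib.MP_a4e7db_lc.Coin

/-!
# The countable chain condition for the iteration of Cohen and random forcing
-/

set_option autoImplicit false

namespace Pool.Agent.StarRoth.BV

open Pool.Agent.MPa4e7db Pool.Agent.MP_5db68c_lc MeasureTheory Filter Topology

namespace CCCAux

instance (J : Type) : IsProbabilityMeasure (coinMeasure J) := by
  unfold coinMeasure
  infer_instance

theorem countableInter (I J : Type) : CountableInterFilter (FF I J) := by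
  refine ⟨fun S hS h => ?_⟩
  have h1 : ∀ s ∈ S, ∀ᶠ x in residual (I → Bool), ∀ᶠ y in ae (coinMeasure J), (x, y) ∈ s :=
    fun s hs => h s hs
  have h2 : ∀ᶠ x in residual (I → Bool), ∀ s ∈ S, ∀ᶠ y in ae (coinMeasure J), (x, y) ∈ s :=
    (eventually_countable_ball hS).mpr h1
  have h3 : ∀ᶠ x in residual (I → Bool), ∀ᶠ y in ae (coinMeasure J), (x, y) ∈ ⋂₀ S := by
    filter_upwards [h2] with x hx
    have := (eventually_countable_ball hS).mpr hx
    filter_upwards [this] with y hy
    exact Set.mem_sInter.mpr hy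
  exact h3

theorem residual_neBot (I : Type) : (residual (I → Bool)).NeBot := by
  rw [neBot_iff]
  intro h
  have h0 : (∅ : Set (I → Bool)) ∈ residual (I → Bool) := by rw [h]; exact mem_bot
  have hd := dense_of_mem_residual h0
  obtain ⟨x, hx⟩ := hd.nonempty
  exact hx

theorem neBot (I J : Type) : (FF I J).NeBot := by
  have := residual_neBot I
  rw [neBot_iff]
  intro h
  have h0 : (∅ : Set ((I → Bool) × (J → Bool))) ∈ FF I J := by rw [h]; exact mem_bot
  have h1 : ∀ᶠ x in residual (I → Bool), ∀ᶠ y in ae (coinMeasure J), (x, y) ∈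
      (∅ : Set ((I → Bool) × (J → Bool))) := h0
  obtain ⟨x, hx⟩ := h1.exists
  obtain ⟨y, hy⟩ := hx.exists
  exact hy

/-- A set that is measurable for the product sigma-algebra is almost open. -/
theorem almost_open {I : Type} {s : Set (I → Bool)} (hs : MeasurableSet s) :
    ∃ u : Set (I → Bool), IsOpen u ∧ s =ᶠ[residual (I → Bool)] u := by
  have h1 : (MeasurableSpace.pi : MeasurableSpace (I → Bool)) ≤ borel (I → Bool) := by
    refine iSup_le fun i => ?_
    rintro t ⟨t', _, rfl⟩
    let _ : MeasurableSpace (I → Bool) := borel (I → Bool)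
    have : BorelSpace (I → Bool) := ⟨rfl⟩
    exact ((isOpen_discrete t').preimage (continuous_apply i)).measurableSet
  have h2 : MeasurableSet[borel (I → Bool)] s := h1 _ hs
  let _ : MeasurableSpace (I → Bool) := borel (I → Bool)
  have : BorelSpace (I → Bool) := ⟨rfl⟩
  exact MeasurableSet.residualEq_isOpen h2

/-- A positive set has large sections over a cylinder. -/
theorem exists_cylinder {I J : Type} {s : Set ((I → Bool) × (J → Bool))} (hs : MeasurableSet s)
    (hpos : ∃ᶠ z in FF I J, z ∈ s) :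
    ∃ (k : ℕ) (F : Finset I) (x₀ : I → Bool), ∀ᶠ x in residual (I → Bool),
      (∀ i ∈ F, x i = x₀ i) → ((k : ENNReal) + 1)⁻¹ < coinMeasure J (Prod.mk x ⁻¹' s) := by
  have hm : Measurable fun x => coinMeasure J (Prod.mk x ⁻¹' s) :=
    measurable_measure_prodMk_left hs
  -- some threshold is exceeded on a nonmeager set
  obtain ⟨k, hk⟩ : ∃ k : ℕ, ∃ᶠ x in residual (I → Bool),
      ((k : ENNReal) + 1)⁻¹ < coinMeasure J (Prod.mk x ⁻¹' s) := by
    by_contra hcon
    push Not at hcon
    apply hpos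
    have h1 : ∀ᶠ x in residual (I → Bool), ∀ k : ℕ,
        ¬ ((k : ENNReal) + 1)⁻¹ < coinMeasure J (Prod.mk x ⁻¹' s) := by
      rw [eventually_countable_forall]
      intro k
      have := hcon k
      simpa using this
    have h2 : ∀ᶠ x in residual (I → Bool), ∀ᶠ y in ae (coinMeasure J), (x, y) ∉ s := by
      filter_upwards [h1] with x hx
      have h3 : coinMeasure J (Prod.mk x ⁻¹' s) = 0 := by
        by_contra hne
        obtain ⟨n, hn⟩ := ENNReal.exists_inv_nat_lt hne
        apply hx n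
        refine lt_of_le_of_lt ?_ hn
        exact ENNReal.inv_le_inv.mpr le_self_add
      rw [ae_iff]
      simp only [not_not]
      exact h3
    exact h2
  have hP : MeasurableSet {x | ((k : ENNReal) + 1)⁻¹ < coinMeasure J (Prod.mk x ⁻¹' s)} :=
    measurableSet_lt measurable_const hm
  obtain ⟨u, hu, hPu⟩ := almost_open hP
  have hne : u.Nonempty := by
    rw [Set.nonempty_iff_ne_empty]
    rintro rfl
    apply hk
    filter_upwards [hPu] with x hx hlt
    have h4 : ({x | ((k : ENNReal) + 1)⁻¹ < coinMeasure J (Prod.mk x ⁻¹' s)} x)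
      = ((∅ : Set (I → Bool)) x) := hx
    have h5 : (∅ : Set (I → Bool)) x := by rw [← h4]; exact hlt
    exact h5
  obtain ⟨x₀, hx₀⟩ := hne
  rw [isOpen_pi_iff] at hu
  obtain ⟨F, v, hv, hFv⟩ := hu x₀ hx₀
  refine ⟨k, F, x₀, ?_⟩
  filter_upwards [hPu] with x hx hxF
  have h4 : ({x | ((k : ENNReal) + 1)⁻¹ < coinMeasure J (Prod.mk x ⁻¹' s)} x) = (u x) := hx
  have h5 : x ∈ u := by
    apply hFv
    intro i hi
    rw [hxF i hi]
    exact (hv i hi).2
  have h6 : {x | ((k : ENNReal) + 1)⁻¹ < coinMeasure J (Prod.mk x ⁻¹' s)} x := by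
    rw [h4]; exact h5
  exact h6

theorem coin_cylinder {I : Type} (F : Finset I) (x₀ : I → Bool) :
    coinMeasure I {x | ∀ i ∈ F, x i = x₀ i} = (2 : ENNReal)⁻¹ ^ F.card := by
  have h : {x : I → Bool | ∀ i ∈ F, x i = x₀ i} = Set.pi (F : Set I) (fun i => {x₀ i}) := by
    ext x
    simp [Set.mem_pi]
  rw [h, coinMeasure, Measure.infinitePi_pi _ (fun i _ => MeasurableSet.singleton _)]
  simp only [coin_singleton, Finset.prod_const]

theorem measurable_cylinder {I : Type} (F : Finset I) (x₀ : I → Bool) :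
    MeasurableSet {x : I → Bool | ∀ i ∈ F, x i = x₀ i} := by
  have h : {x : I → Bool | ∀ i ∈ F, x i = x₀ i} = ⋂ i ∈ F, (fun x => x i) ⁻¹' {x₀ i} := by
    ext x
    simp
  rw [h]
  exact Finset.measurableSet_biInter F (fun i _ => measurable_pi_apply i (MeasurableSet.singleton _))

theorem open_cylinder {I : Type} (F : Finset I) (x₀ : I → Bool) :
    IsOpen {x : I → Bool | ∀ i ∈ F, x i = x₀ i} := by
  have h : {x : I → Bool | ∀ i ∈ F, x i = x₀ i} = ⋂ i ∈ F, (fun x => x i) ⁻¹' {x₀ i} := by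
    ext x
    simp
  rw [h]
  exact isOpen_biInter_finset (fun i _ => (isOpen_discrete {x₀ i}).preimage (continuous_apply i))

theorem ccc (I J : Type) : CCCF (FF I J) := by
  intro D hD hdisj
  classical
  have hex : ∀ s : D, ∃ (k : ℕ) (F : Finset I) (x₀ : I → Bool), ∀ᶠ x in residual (I → Bool),
      (∀ i ∈ F, x i = x₀ i) → ((k : ENNReal) + 1)⁻¹ < coinMeasure J (Prod.mk x ⁻¹' s.1) :=
    fun s => exists_cylinder (hD s.1 s.2).1 (hD s.1 s.2).2
  choose K F x₀ hKF using hex
  by_contra hunc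
  -- infinitely many with the same parameters
  obtain ⟨⟨k, m⟩, hinf⟩ : ∃ p : ℕ × ℕ, ((fun s : D => (K s, (F s).card)) ⁻¹' {p}).Infinite := by
    by_contra hcon
    push Not at hcon
    apply hunc
    have huniv : (Set.univ : Set D) = ⋃ p : ℕ × ℕ, (fun s : D => (K s, (F s).card)) ⁻¹' {p} := by
      ext s
      simp
    have hc : (Set.univ : Set D).Countable := by
      rw [huniv]
      exact Set.countable_iUnion (fun p => (Set.not_infinite.mp (by simpa using hcon p)).countable)
    exact Set.countable_coe_iff.mp (Set.countable_univ_iff.mp hc)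
  obtain ⟨T, hT, hTcard⟩ := hinf.exists_subset_card_eq ((k + 1) * 2 ^ m + 1)
  have hTK : ∀ s ∈ T, K s = k ∧ (F s).card = m := by
    intro s hs
    have := hT hs
    simpa using this
  -- every point is in at most k + 1 cylinders
  have hpt : ∀ x : I → Bool, (T.filter (fun s => ∀ i ∈ F s, x i = x₀ s i)).card ≤ k + 1 := by
    intro x
    by_contra hx
    push Not at hx
    set T' := T.filter (fun s => ∀ i ∈ F s, x i = x₀ s i) with hT'
    have hT'T : ∀ s ∈ T', s ∈ T ∧ ∀ i ∈ F s, x i = x₀ s i := fun s hs => Finset.mem_filter.mp hs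
    have hV : IsOpen (⋂ s ∈ T', {z : I → Bool | ∀ i ∈ F s, z i = x₀ s i}) :=
      isOpen_biInter_finset (fun s _ => open_cylinder (F s) (x₀ s))
    have hVne : (⋂ s ∈ T', {z : I → Bool | ∀ i ∈ F s, z i = x₀ s i}).Nonempty :=
      ⟨x, Set.mem_iInter₂.mpr (fun s hs => (hT'T s hs).2)⟩
    have hE1 : ∀ᶠ z in residual (I → Bool), ∀ s ∈ T', (∀ i ∈ F s, z i = x₀ s i) →
        ((K s : ENNReal) + 1)⁻¹ < coinMeasure J (Prod.mk z ⁻¹' s.1) :=
      (eventually_all_finset T').mpr (fun s _ => hKF s)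
    have hE2 : ∀ᶠ z in residual (I → Bool), ∀ s ∈ T', ∀ t ∈ T', s ≠ t →
        ∀ᶠ y in ae (coinMeasure J), ¬ ((z, y) ∈ s.1 ∧ (z, y) ∈ t.1) := by
      refine (eventually_all_finset T').mpr (fun s _ => (eventually_all_finset T').mpr
        (fun t _ => ?_))
      by_cases hst : s = t
      · exact Eventually.of_forall (fun z h => absurd hst h)
      · have h7 : ∀ᶠ z in residual (I → Bool), ∀ᶠ y in ae (coinMeasure J),
            ¬ ((z, y) ∈ s.1 ∧ (z, y) ∈ t.1) :=
          hdisj s.1 s.2 t.1 t.2 (fun h => hst (Subtype.ext h))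
        filter_upwards [h7] with z hz _
        exact hz
    have hdense := dense_of_mem_residual (hE1.and hE2)
    obtain ⟨z, hzV, hz1, hz2⟩ := hdense.inter_open_nonempty _ hV hVne
    rw [Set.mem_iInter₂] at hzV
    have hlarge : ∀ s ∈ T', ((k : ENNReal) + 1)⁻¹ ≤ coinMeasure J (Prod.mk z ⁻¹' s.1) := by
      intro s hs
      have h8 := hz1 s hs (hzV s hs)
      rw [(hTK s (hT'T s hs).1).1] at h8
      exact h8.le
    have hsum : ∑ s ∈ T', coinMeasure J (Prod.mk z ⁻¹' s.1) ≤ 1 := by
      rw [← measure_biUnion_finset₀]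
      · exact prob_le_one
      · intro s hs t ht hst
        have h9 := ae_iff.mp (hz2 s hs t ht hst)
        simp only [not_not] at h9
        exact h9
      · intro s _
        exact ((hD s.1 s.2).1.preimage measurable_prodMk_left).nullMeasurableSet
    have h10 := (Finset.card_nsmul_le_sum T' _ _ hlarge).trans hsum
    rw [nsmul_eq_mul, ← div_eq_mul_inv] at h10
    have h11 : ((T'.card : ℕ) : ENNReal) ≤ (k : ENNReal) + 1 := by
      have h12 := (ENNReal.div_le_iff (by simp) (by
        exact ENNReal.add_ne_top.mpr ⟨ENNReal.natCast_ne_top k, ENNReal.one_ne_top⟩)).mp h10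
      rwa [one_mul] at h12
    have h13 : T'.card ≤ k + 1 := by exact_mod_cast h11
    omega
  -- integrate
  have hint : ∫⁻ x, ∑ s ∈ T, ({x : I → Bool | ∀ i ∈ F s, x i = x₀ s i}.indicator 1 x : ENNReal)
      ∂(coinMeasure I) = ((T.card : ℕ) : ENNReal) * (2 : ENNReal)⁻¹ ^ m := by
    rw [lintegral_finsetSum]
    · rw [Finset.sum_congr rfl (g := fun _ => (2 : ENNReal)⁻¹ ^ m)]
      · rw [Finset.sum_const, nsmul_eq_mul]
      · intro s hs
        rw [lintegral_indicator_one (measurable_cylinder (F s) (x₀ s)), coin_cylinder,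
          (hTK s hs).2]
    · intro s _
      exact measurable_one.indicator (measurable_cylinder (F s) (x₀ s))
  have hle : ∫⁻ x, ∑ s ∈ T, ({x : I → Bool | ∀ i ∈ F s, x i = x₀ s i}.indicator 1 x : ENNReal)
      ∂(coinMeasure I) ≤ (k : ENNReal) + 1 := by
    calc ∫⁻ x, ∑ s ∈ T, ({x : I → Bool | ∀ i ∈ F s, x i = x₀ s i}.indicator 1 x : ENNReal)
          ∂(coinMeasure I) ≤ ∫⁻ _x, ((k : ENNReal) + 1) ∂(coinMeasure I) := by
          apply lintegral_mono
          intro x
          have h14 : ∑ s ∈ T, ({x : I → Bool | ∀ i ∈ F s, x i = x₀ s i}.indicator 1 x : ENNReal)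
              = (((T.filter (fun s => ∀ i ∈ F s, x i = x₀ s i)).card : ℕ) : ENNReal) := by
            rw [Finset.card_filter]
            push_cast
            refine Finset.sum_congr rfl (fun s _ => ?_)
            by_cases h : ∀ i ∈ F s, x i = x₀ s i
            · rw [Set.indicator_of_mem (by exact h), if_pos h]; rfl
            · rw [Set.indicator_of_notMem (by exact h), if_neg h]
          show ∑ s ∈ T, ({x : I → Bool | ∀ i ∈ F s, x i = x₀ s i}.indicator 1 x : ENNReal) ≤ _
          rw [h14]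
          have h17 : (((T.filter (fun s => ∀ i ∈ F s, x i = x₀ s i)).card : ℕ) : ENNReal)
              ≤ (k : ENNReal) + 1 := by exact_mod_cast hpt x
          exact h17
      _ = (k : ENNReal) + 1 := by simp
  rw [hint, hTcard] at hle
  have h15 : (((k + 1) * 2 ^ m + 1 : ℕ) : ENNReal) ≤ ((k : ENNReal) + 1) * 2 ^ m := by
    have h2m : (2 : ENNReal)⁻¹ ^ m * 2 ^ m = 1 := by
      rw [← mul_pow, ENNReal.inv_mul_cancel (by norm_num) (by norm_num), one_pow]
    calc (((k + 1) * 2 ^ m + 1 : ℕ) : ENNReal)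
        = (((k + 1) * 2 ^ m + 1 : ℕ) : ENNReal) * (2 : ENNReal)⁻¹ ^ m * 2 ^ m := by
          rw [mul_assoc, h2m, mul_one]
      _ ≤ ((k : ENNReal) + 1) * 2 ^ m := by gcongr
  have h16 : (k + 1) * 2 ^ m + 1 ≤ (k + 1) * 2 ^ m := by exact_mod_cast h15
  omega

end CCCAux

theorem cccStmt : CCCStmt := fun I J =>
  ⟨CCCAux.countableInter I J, CCCAux.neBot I J, CCCAux.ccc I J⟩

end Pool.Agent.StarRoth.BV
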