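import Pool.Agent.Lib.MP_a1c723_lc.BV.Stmts
import Pool.Agent.Lib.SymModel.Gen

/-!
# MP_a1c723_lc: module MODEL

The Boolean-valued model `V^B` satisfies ZFC with Boolean value `⊤`, it is full (suprema over names
are attained), and a countable set of names closed under witnesses together with a generic
descending sequence gives a two-valued model of ZFC in which every formula holds that has Boolean
value `⊤`.
-/

set_option autoImplicit false

namespace Pool.Agent.StarRoth.BV.Mdl

open Pool.Agent.MPa4e7db Pool.Agent.MP_5db68c_lc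
open Pool.Agent.Lib.SymModel (bd fimp for' fiff fex idx elt vl memB_eq unionN memB_unionN_mk
  exists_generic Sat_mem Sat_eq Sat_neg Sat_and Sat_all Sat_imp Sat_or Sat_iff Sat_ex
  push_zero push_succ push_one push_two push_three push_four push_five)

universe u

variable {B : Type u} [CompleteBooleanAlgebra B]

/-! ## Boolean values of formulas -/

theorem val_congr (φ : Fml) : ∀ {p : B} {v w : ℕ → BName B}, (∀ i < bd φ, p ≤ eqB (v i) (w i)) →
    p ≤ val φ v → p ≤ val φ w := by
  induction φ with
  | mem i j =>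
    intro p v w h h1
    have hi : p ≤ eqB (v i) (w i) := h i (by simp [bd])
    have hj : p ≤ eqB (v j) (w j) := h j (by simp [bd])
    exact memB_congr_left hi (memB_congr_right hj h1)
  | eq i j =>
    intro p v w h h1
    have hi : p ≤ eqB (v i) (w i) := h i (by simp [bd])
    have hj : p ≤ eqB (v j) (w j) := h j (by simp [bd])
    exact eqB.trans (eqB.trans (eqB.symm hi) h1) hj
  | neg φ ih =>
    intro p v w h h1
    refine compl_intro fun q hq hq2 => ?_
    have h2 : q ≤ val φ v := ih (fun i hi => eqB.symm (hq.trans (h i hi))) hq2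
    rw [eq_bot_iff]
    exact compl_mp (hq.trans h1) h2
  | and φ ψ ih1 ih2 =>
    intro p v w h h1
    have h1' : p ≤ val φ v ⊓ val ψ v := h1
    refine le_inf ?_ ?_
    · exact ih1 (fun i hi => h i (lt_of_lt_of_le hi (le_max_left _ _))) (h1'.trans inf_le_left)
    · exact ih2 (fun i hi => h i (lt_of_lt_of_le hi (le_max_right _ _))) (h1'.trans inf_le_right)
  | all φ ih =>
    intro p v w h h1
    refine le_iInf fun x => ih (fun i hi => ?_) (iInf_mp h1 x)
    cases i with
    | zero => exact le_eqB_refl _ _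
    | succ i =>
      refine h i ?_
      have : bd (.all φ) = bd φ - 1 := rfl
      omega

theorem val_eq_of_top (φ : Fml) {v w : ℕ → BName B} (h : ∀ i < bd φ, eqB (v i) (w i) = ⊤) :
    val φ v = val φ w := by
  apply le_antisymm
  · exact val_congr φ (fun i hi => by rw [h i hi]; exact le_top) le_rfl
  · exact val_congr φ (fun i hi => by
      have h2 : eqB (w i) (v i) = ⊤ := (eqB_symm _ _).trans (h i hi)
      rw [h2]; exact le_top) le_rfl

theorem val_mem (i j : ℕ) (v : ℕ → BName B) : val (.mem i j) v = memB (v i) (v j) := rfl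

theorem val_eq (i j : ℕ) (v : ℕ → BName B) : val (.eq i j) v = eqB (v i) (v j) := rfl

theorem val_neg (φ : Fml) (v : ℕ → BName B) : val (.neg φ) v = (val φ v)ᶜ := rfl

theorem val_and (φ ψ : Fml) (v : ℕ → BName B) : val (.and φ ψ) v = val φ v ⊓ val ψ v := rfl

theorem val_all (φ : Fml) (v : ℕ → BName B) :
    val (.all φ) v = ⨅ x : BName B, val φ (push x v) := rfl

theorem val_imp (φ ψ : Fml) (v : ℕ → BName B) : val (fimp φ ψ) v = val φ v ⇨ val ψ v := by
  simp only [fimp, val, compl_inf, compl_compl]
  rw [himp_eq, sup_comm]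

theorem val_or (φ ψ : Fml) (v : ℕ → BName B) : val (for' φ ψ) v = val φ v ⊔ val ψ v := by
  simp only [for', val, compl_inf, compl_compl]

theorem val_iff (φ ψ : Fml) (v : ℕ → BName B) : val (fiff φ ψ) v = iffB (val φ v) (val ψ v) := by
  simp only [fiff, val_and, val_imp, iffB]

theorem val_ex (φ : Fml) (v : ℕ → BName B) :
    val (fex φ) v = ⨆ x : BName B, val φ (push x v) := by
  simp only [fex, val, compl_iInf, compl_compl]

theorem val_rename (φ : Fml) : ∀ (f : ℕ → ℕ) (v : ℕ → BName B),
    val (φ.rename f) v = val φ (v ∘ f) := by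
  induction φ with
  | mem i j => intro f v; rfl
  | eq i j => intro f v; rfl
  | neg φ ih => intro f v; simp only [Fml.rename, val, ih]
  | and φ ψ ih1 ih2 => intro f v; simp only [Fml.rename, val, ih1, ih2]
  | all φ ih =>
    intro f v
    simp only [Fml.rename, val]
    refine iInf_congr fun x => ?_
    rw [ih, push_comp_lift]

/-! ## Least indices -/

/-- The value of: `k` is the first index for which `a k` holds. -/
def fst' {K : Type*} (r : K → K → Prop) (a : K → B) (k : K) : B :=
  a k ⊓ ⨅ j : {j : K // r j k}, (a j.1)ᶜ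

theorem fst'_le {K : Type*} (r : K → K → Prop) (a : K → B) (k : K) : fst' r a k ≤ a k :=
  inf_le_left

theorem fst'_compl {K : Type*} {r : K → K → Prop} {a : K → B} {k j : K} (h : r j k) :
    fst' r a k ≤ (a j)ᶜ :=
  inf_le_right.trans (iInf_le (fun j : {j : K // r j k} => (a j.1)ᶜ) ⟨j, h⟩)

/-- Among the `a k`, some is the first one that holds. -/
theorem iSup_fst' {K : Type*} {r : K → K → Prop} (hr : WellFounded r) (a : K → B) :
    (⨆ k, a k) ≤ ⨆ k, fst' r a k := by
  refine iSup_le fun k => ?_
  induction k using hr.induction with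
  | _ k ih =>
    have h1 : a k ≤ fst' r a k ⊔ ⨆ j : {j : K // r j k}, a j.1 := by
      have h2 : (⨆ j : {j : K // r j k}, a j.1) = (⨅ j : {j : K // r j k}, (a j.1)ᶜ)ᶜ := by
        rw [compl_iInf]
        simp only [compl_compl]
      rw [h2, fst', sup_inf_right, sup_compl_eq_top, inf_top_eq]
      exact le_sup_left
    exact h1.trans (sup_le (le_iSup_of_le k le_rfl) (iSup_le fun j => ih j.1 j.2))

theorem fst'_disj {K : Type*} (r : K → K → Prop) [IsWellOrder K r] (a : K → B) (i j : K)
    (h : i ≠ j) : fst' r a i ⊓ fst' r a j = ⊥ := by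
  rw [eq_bot_iff]
  rcases trichotomous_of r i j with h1 | h1 | h1
  · exact compl_mp (inf_le_right.trans (fst'_compl h1)) (inf_le_left.trans (fst'_le _ _ _))
  · exact absurd h1 h
  · exact compl_mp (inf_le_left.trans (fst'_compl h1)) (inf_le_right.trans (fst'_le _ _ _))

/-! ## Mixing and fullness -/

/-- The mixture of the names `y i` with the values `a i`. -/
def mixN {ι : Type u} (y : ι → BName B) (a : ι → B) : BName B :=
  BName.mk (Σ i : ι, idx (y i)) (fun p => elt (y p.1) p.2) (fun p => a p.1 ⊓ vl (y p.1) p.2)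

theorem le_eqB_mixN {ι : Type u} (y : ι → BName B) (a : ι → B)
    (ha : ∀ i j, i ≠ j → a i ⊓ a j = ⊥) (i : ι) : a i ≤ eqB (mixN y a) (y i) := by
  apply eqB_ext
  · intro z q hq hqz
    rw [mixN, memB_mk] at hqz
    refine iSup_elim hqz fun p r hr hrp => ?_
    by_cases hpi : p.1 = i
    · obtain ⟨j, k⟩ := p
      have hji : j = i := hpi
      subst hji
      rw [memB_eq]
      exact iSup_intro k (le_inf ((hrp.trans inf_le_left).trans inf_le_right)
        (hrp.trans inf_le_right))
    · have h1 : r ≤ a p.1 ⊓ a i := le_inf ((hrp.trans inf_le_left).trans inf_le_left)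
        (hr.trans hq)
      rw [ha _ _ hpi] at h1
      exact h1.trans bot_le
  · intro z q hq hqz
    rw [memB_eq] at hqz
    refine iSup_elim hqz fun k r hr hrk => ?_
    rw [mixN, memB_mk]
    exact iSup_intro ⟨i, k⟩ (le_inf (le_inf (hr.trans hq) (hrk.trans inf_le_left))
      (hrk.trans inf_le_right))

/-- The maximum principle. -/
theorem exists_full (φ : Fml) (v : ℕ → BName B) :
    ∃ x : BName B, (⨆ y : BName B, val φ (push y v)) ≤ val φ (push x v) := by
  classical
  let y : B → BName B := fun c =>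
    if h : ∃ y : BName B, val φ (push y v) = c then h.choose else v 0
  have hy : ∀ z : BName B, val φ (push (y (val φ (push z v))) v) = val φ (push z v) := by
    intro z
    have h : ∃ y : BName B, val φ (push y v) = val φ (push z v) := ⟨z, rfl⟩
    simp only [y]
    rw [dif_pos h]
    exact h.choose_spec
  let a : B → B := fun c => val φ (push (y c) v)
  have h1 : (⨆ z : BName B, val φ (push z v)) ≤ ⨆ c : B, a c := by
    refine iSup_le fun z => ?_
    refine le_iSup_of_le (val φ (push z v)) ?_
    exact (hy z).ge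
  have h2 : (⨆ c : B, a c) ≤ ⨆ c : B, fst' WellOrderingRel a c :=
    iSup_fst' (IsWellFounded.wf (r := (WellOrderingRel : B → B → Prop))) a
  refine ⟨mixN y (fst' WellOrderingRel a), h1.trans (h2.trans (iSup_le fun c => ?_))⟩
  have h3 := le_eqB_mixN y (fst' WellOrderingRel a)
    (fun i j h => fst'_disj WellOrderingRel a i j h) c
  refine val_congr φ (v := push (y c) v) (fun i _ => ?_) (fst'_le _ _ _)
  cases i with
  | zero => exact eqB.symm h3
  | succ i => exact le_eqB_refl _ _

/-! ## The axioms of ZFC, as Boolean values -/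

/-- Extensionality. -/
theorem ax_ext (a b : BName B) : (⨅ x : BName B, iffB (memB x a) (memB x b)) ≤ eqB a b := by
  apply eqB_ext
  · intro z q hq hqz
    exact iffB_mp (iInf_mp hq z) hqz
  · intro z q hq hqz
    exact iffB_mpr (iInf_mp hq z) hqz

/-- Foundation. -/
theorem ax_found (a : BName B) : (⨆ x : BName B, memB x a) ≤
    ⨆ x : BName B, memB x a ⊓ ⨅ y : BName B, memB y x ⇨ (memB y a)ᶜ := by
  set R : B := ⨆ x : BName B, memB x a ⊓ ⨅ y : BName B, memB y x ⇨ (memB y a)ᶜ with hR
  have key : ∀ x : BName B, ∀ p : B, p ≤ memB x a → p ≤ Rᶜ → p ≤ ⊥ := by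
    intro x
    induction x with
    | mk ι x b ih =>
      intro p hp hpR
      set X : BName B := BName.mk ι x b with hX
      have h1 : p ≤ ⨅ y : BName B, memB y X ⇨ (memB y a)ᶜ := by
        refine le_iInf fun y => himp_intro fun q hq hqy => compl_intro fun r hr hra => ?_
        have h2 : r ≤ memB y (BName.mk ι x b) := hr.trans hqy
        rw [memB_mk] at h2
        rw [eq_bot_iff]
        refine iSup_elim h2 fun i s hs hsi => ?_
        refine ih i s ?_ ((hs.trans (hr.trans hq)).trans hpR)
        exact memB_congr_left (hsi.trans inf_le_right) (hs.trans hra)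
      exact compl_mp hpR (iSup_intro X (le_inf hp h1))
  refine iSup_le fun x => ?_
  by_contra hcon
  have h1 : memB x a ⊓ Rᶜ ≤ ⊥ := key x _ inf_le_left inf_le_right
  exact hcon (by
    have h2 : Disjoint (memB x a) Rᶜ := disjoint_iff_inf_le.mpr h1
    rwa [disjoint_compl_right_iff] at h2)

theorem memB_unionN (t a : BName B) :
    memB t (unionN a) = ⨆ y : BName B, memB y a ⊓ memB t y := by
  obtain ⟨ι, x, b⟩ := a
  rw [memB_unionN_mk]
  apply le_antisymm
  · refine iSup_le fun i => ?_
    refine le_iSup_of_le (x i) ?_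
    exact le_inf (inf_le_left.trans (memB_of_val x b i)) inf_le_right
  · refine iSup_le fun y => ?_
    have h1 : memB y (BName.mk ι x b) ⊓ memB t y ≤ ⨆ j, b j ⊓ eqB y (x j) := inf_le_left
    refine iSup_elim h1 fun i q hq hqi => ?_
    refine le_iSup_of_le i (le_inf (hqi.trans inf_le_left) ?_)
    exact memB_congr_right (hqi.trans inf_le_right) (hq.trans inf_le_right)

/-- Separation. -/
theorem ax_sep (φ : Fml) (v : ℕ → BName B) (a : BName B) :
    ∃ b : BName B, ∀ t : BName B, memB t b = memB t a ⊓ val φ (push t v) := by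
  obtain ⟨ι, x, b⟩ := a
  refine ⟨BName.mk ι x fun i => b i ⊓ val φ (push (x i) v), fun t => ?_⟩
  rw [memB_mk, memB_mk]
  apply le_antisymm
  · refine iSup_le fun i => le_inf ?_ ?_
    · exact le_iSup_of_le i (le_inf (inf_le_left.trans inf_le_left) inf_le_right)
    · refine val_congr φ (fun j _ => ?_) (inf_le_left.trans inf_le_right)
      cases j with
      | zero => exact eqB.symm inf_le_right
      | succ j => exact le_eqB_refl _ _
  · have h1 : (⨆ j, b j ⊓ eqB t (x j)) ⊓ val φ (push t v) ≤ ⨆ j, b j ⊓ eqB t (x j) :=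
      inf_le_left
    refine iSup_elim h1 fun i q hq hqi => ?_
    refine le_iSup_of_le i (le_inf (le_inf (hqi.trans inf_le_left) ?_)
      (hqi.trans inf_le_right))
    refine val_congr φ (fun j _ => ?_) (hq.trans inf_le_right)
    cases j with
    | zero => exact hqi.trans inf_le_right
    | succ j => exact le_eqB_refl _ _

/-- Power set. -/
theorem ax_power (a : BName B) :
    ∃ b : BName B, ∀ t : BName B, memB t b = ⨅ y : BName B, memB y t ⇨ memB y a := by
  obtain ⟨ι, x, b⟩ := a
  refine ⟨BName.mk {f : ι → B // ∀ i, f i ≤ b i} (fun f => BName.mk ι x f.1) fun _ => ⊤,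
    fun t => ?_⟩
  rw [memB_mk]
  apply le_antisymm
  · refine iSup_le fun f => le_iInf fun y => himp_intro fun q hq hqy => ?_
    have h1 : q ≤ memB y (BName.mk ι x f.1) := memB_congr_right (hq.trans inf_le_right) hqy
    rw [memB_mk] at h1
    refine iSup_elim h1 fun i r hr hri => ?_
    exact iSup_intro i (le_inf ((hri.trans inf_le_left).trans (f.2 i)) (hri.trans inf_le_right))
  · set p : B := ⨅ y : BName B, memB y t ⇨ memB y (BName.mk ι x b) with hp
    let f : ι → B := fun i => b i ⊓ memB (x i) t
    have hf : ∀ z : BName B,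
        memB z (BName.mk ι x f) = memB z (BName.mk ι x b) ⊓ memB z t := by
      intro z
      rw [memB_mk]
      apply le_antisymm
      · refine iSup_le fun i => le_inf ?_ ?_
        · exact iSup_intro i (le_inf (inf_le_left.trans inf_le_left) inf_le_right)
        · exact memB_congr_left (eqB.symm inf_le_right) (inf_le_left.trans inf_le_right)
      · have h1 : memB z (BName.mk ι x b) ⊓ memB z t ≤ ⨆ j, b j ⊓ eqB z (x j) := inf_le_left
        refine iSup_elim h1 fun i q hq hqi => ?_
        refine iSup_intro i (le_inf (le_inf (hqi.trans inf_le_left) ?_)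
          (hqi.trans inf_le_right))
        exact memB_congr_left (hqi.trans inf_le_right) (hq.trans inf_le_right)
    refine iSup_intro ⟨f, fun i => inf_le_left⟩ (le_inf le_top ?_)
    change p ≤ eqB t (BName.mk ι x f)
    apply eqB_ext
    · intro z q hq hqz
      rw [hf]
      exact le_inf (himp_mp (iInf_mp hq z) hqz) hqz
    · intro z q hq hqz
      rw [hf] at hqz
      exact hqz.trans inf_le_right

/-- Collection. -/
theorem ax_coll (φ : Fml) (v : ℕ → BName B) (a : BName B) :
    ∃ b : BName B, ∀ x : BName B,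
      memB x a ⊓ (⨆ y : BName B, val φ (push y (push x v))) ≤
        ⨆ y : BName B, memB y b ⊓ val φ (push y (push x v)) := by
  classical
  obtain ⟨ι, x, b⟩ := a
  choose Y hY using fun i : ι => exists_full φ (push (x i) v)
  refine ⟨BName.mk ι Y fun _ => ⊤, fun z => ?_⟩
  have h1 : memB z (BName.mk ι x b) ⊓ (⨆ y : BName B, val φ (push y (push z v))) ≤
      ⨆ j, b j ⊓ eqB z (x j) := inf_le_left
  refine iSup_elim h1 fun i q hq hqi => ?_
  refine iSup_elim (hq.trans inf_le_right) fun w r hr hrw => ?_
  have hzi : r ≤ eqB z (x i) := (hr.trans hqi).trans inf_le_right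
  have h2 : r ≤ val φ (push w (push (x i) v)) := by
    refine val_congr φ (fun j _ => ?_) hrw
    rcases j with _ | _ | j
    · exact le_eqB_refl _ _
    · exact hzi
    · exact le_eqB_refl _ _
  have h3 : r ≤ val φ (push (Y i) (push (x i) v)) :=
    (h2.trans (le_iSup (fun y => val φ (push y (push (x i) v))) w)).trans (hY i)
  refine iSup_intro (Y i) (le_inf ?_ ?_)
  · exact le_top.trans (memB_of_val Y (fun _ => (⊤ : B)) i)
  · refine val_congr φ (fun j _ => ?_) h3
    rcases j with _ | _ | j
    · exact le_eqB_refl _ _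
    · exact eqB.symm hzi
    · exact le_eqB_refl _ _

/-- Choice. -/
theorem ax_choice (a : BName B) : ∃ c : BName B,
    (⨅ x : BName B, memB x a ⇨ ⨆ y : BName B, memB y x) ⊓
      (⨅ x : BName B, ⨅ y : BName B, memB x a ⊓ memB y a ⊓ (⨆ z : BName B, memB z x ⊓ memB z y) ⇨
        eqB x y) ≤
    ⨅ x : BName B, memB x a ⇨ ⨆ y : BName B, (memB y c ⊓ memB y x) ⊓
      ⨅ z : BName B, memB z c ⊓ memB z x ⇨ eqB z y := by
  have hU : ∀ t : BName B, memB t (unionN a) = ⨆ y : BName B, memB y a ⊓ memB t y :=
    fun t => memB_unionN t a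
  rcases hc : unionN a with ⟨κ, u, d⟩
  rw [hc] at hU
  let e : κ → B := fun k => ⨆ y : BName B, memB y a ⊓
    fst' WellOrderingRel (fun k => memB (u k) y) k
  refine ⟨BName.mk κ u e, ?_⟩
  refine le_iInf fun x => himp_intro fun q hq hqx => ?_
  have h1 : q ≤ ⨆ y : BName B, memB y x := himp_mp (iInf_mp (hq.trans inf_le_left) x) hqx
  have h2 : q ≤ ⨆ k : κ, memB (u k) x := by
    refine iSup_elim h1 fun y r hr hry => ?_
    have h3 : r ≤ memB y (BName.mk κ u d) := by
      rw [hU]
      exact iSup_intro x (le_inf (hr.trans hqx) hry)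
    rw [memB_mk] at h3
    refine iSup_elim h3 fun k s hs hsk => ?_
    exact iSup_intro k (memB_congr_left (hsk.trans inf_le_right) (hs.trans hry))
  have h3 : q ≤ ⨆ k : κ, fst' WellOrderingRel (fun k => memB (u k) x) k :=
    h2.trans (iSup_fst' (IsWellFounded.wf (r := (WellOrderingRel : κ → κ → Prop))) _)
  refine iSup_elim h3 fun k r hr hrk => ?_
  refine iSup_intro (u k) (le_inf (le_inf ?_ (hrk.trans (fst'_le _ _ _))) ?_)
  · refine le_trans ?_ (memB_of_val u e k)
    exact iSup_intro x (le_inf (hr.trans hqx) hrk)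
  · refine le_iInf fun z => himp_intro fun s hs hsz => ?_
    have h4 : s ≤ memB z (BName.mk κ u e) := hsz.trans inf_le_left
    rw [memB_mk] at h4
    refine iSup_elim h4 fun j s1 hs1 hs1j => ?_
    refine iSup_elim (hs1j.trans inf_le_left) fun y s2 hs2 hs2y => ?_
    have hzj : s2 ≤ eqB z (u j) := hs2.trans (hs1j.trans inf_le_right)
    have hzx : s2 ≤ memB z x := ((hs2.trans hs1).trans hsz).trans inf_le_right
    have hjx : s2 ≤ memB (u j) x := memB_congr_left hzj hzx
    have hjy : s2 ≤ memB (u j) y := (hs2y.trans inf_le_right).trans (fst'_le _ _ _)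
    have hs2r : s2 ≤ r := (hs2.trans hs1).trans hs
    have hxy : s2 ≤ eqB x y := by
      have h5 := iInf_mp (iInf_mp ((hs2r.trans (hr.trans hq)).trans inf_le_right) x) y
      refine himp_mp h5 (le_inf (le_inf ((hs2r.trans hr).trans hqx)
        (hs2y.trans inf_le_left)) ?_)
      exact iSup_intro (u j) (le_inf hjx hjy)
    rcases trichotomous_of WellOrderingRel j k with h6 | h6 | h6
    · exact compl_mp ((hs2r.trans hrk).trans (fst'_compl h6)) hjx
    · rw [← h6]
      exact hzj
    · have h7 : s2 ≤ memB (u k) x := (hs2r.trans hrk).trans (fst'_le _ _ _)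
      exact compl_mp ((hs2y.trans inf_le_right).trans (fst'_compl h6)) (memB_congr_right hxy h7)

/-! ## Generic data -/

variable (B) in
/-- A countable family of names with a generic sequence. -/
structure GenData where
  /-- the names -/
  e : ℕ → BName B
  /-- the generic sequence -/
  q : ℕ → B
  anti : Antitone q
  ne_bot : ∀ n, q n ≠ ⊥
  decide : ∀ (φ : Fml) (v : ℕ → ℕ), ∃ n, q n ≤ val φ (fun i => e (v i)) ∨
    q n ≤ (val φ (fun i => e (v i)))ᶜ
  wit : ∀ (φ : Fml) (v : ℕ → ℕ),
    ∃ x, (⨆ y : BName B, val φ (push y fun i => e (v i))) ≤ val φ (push (e x) fun i => e (v i))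

/-- The environment given by a list. -/
def env (d : BName B) (l : List (BName B)) : ℕ → BName B := fun i => l.getD i d

omit [CompleteBooleanAlgebra B] in
theorem env_ofFn (d : BName B) (v : ℕ → BName B) (n i : ℕ) (hi : i < n) :
    env d (List.ofFn fun j : Fin n => v j) i = v i := by
  unfold env
  rw [List.getD_eq_getElem?_getD, List.getElem?_ofFn, dif_pos hi]
  rfl

/-- One closure step. -/
def clStep (w : Fml → List (BName B) → BName B) (T : Set (BName B)) : Set (BName B) :=
  T ∪ ⋃ φ : Fml, (fun l => w φ l) '' {l : List (BName B) | ∀ x ∈ l, x ∈ T}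

omit [CompleteBooleanAlgebra B] in
theorem clStep_countable (w : Fml → List (BName B) → BName B)
    {T : Set (BName B)} (hT : T.Countable) : (clStep w T).Countable := by
  refine hT.union (Set.countable_iUnion fun φ => Set.Countable.image ?_ _)
  have : Countable T := hT.to_subtype
  refine (Set.countable_range (fun l : List T => l.map Subtype.val)).mono ?_
  intro l hl
  refine ⟨l.attach.map fun x => ⟨x.1, hl x.1 x.2⟩, ?_⟩
  change List.map Subtype.val (l.attach.map fun x => (⟨x.1, hl x.1 x.2⟩ : T)) = l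
  rw [List.map_map]
  exact List.attach_map_subtype_val l

/-- Existence of generic data. -/
theorem exists_genData (hB : (⊥ : B) ≠ ⊤) : Nonempty (GenData B) := by
  classical
  let d : BName B := BName.mk PEmpty (fun i => i.elim) (fun i => i.elim)
  choose w hw using fun (φ : Fml) (l : List (BName B)) => exists_full φ (env d l)
  let Tn : ℕ → Set (BName B) := fun n => Nat.rec {d} (fun _ T => clStep w T) n
  have hTs : ∀ n, Tn (n + 1) = clStep w (Tn n) := fun n => rfl
  have hTc : ∀ n, (Tn n).Countable := by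
    intro n
    induction n with
    | zero => exact Set.countable_singleton d
    | succ n ih =>
      rw [hTs]
      exact clStep_countable w ih
  have hTmono : Monotone Tn := by
    refine monotone_nat_of_le_succ fun n => ?_
    rw [hTs]
    exact Set.subset_union_left
  let T : Set (BName B) := ⋃ n, Tn n
  have hTcount : T.Countable := Set.countable_iUnion hTc
  have hdT : d ∈ T := Set.mem_iUnion.mpr ⟨0, rfl⟩
  have hwT : ∀ φ, ∀ l : List (BName B), (∀ x ∈ l, x ∈ T) → w φ l ∈ T := by
    intro φ l hl
    have h1 : ∃ n, ∀ x ∈ l, x ∈ Tn n := by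
      induction l with
      | nil => exact ⟨0, by simp⟩
      | cons a l ih =>
        obtain ⟨n, hn⟩ := ih (fun x hx => hl x (List.mem_cons_of_mem _ hx))
        obtain ⟨m, hm⟩ := Set.mem_iUnion.mp (hl a List.mem_cons_self)
        refine ⟨max n m, fun x hx => ?_⟩
        rcases List.mem_cons.mp hx with rfl | hx
        · exact hTmono (le_max_right n m) hm
        · exact hTmono (le_max_left n m) (hn x hx)
    obtain ⟨n, hn⟩ := h1
    refine Set.mem_iUnion.mpr ⟨n + 1, ?_⟩
    rw [hTs]
    refine Or.inr ?_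
    exact Set.mem_iUnion.mpr ⟨φ, ⟨l, hn, rfl⟩⟩
  have : Countable T := hTcount.to_subtype
  have hTne : Nonempty T := ⟨⟨d, hdT⟩⟩
  obtain ⟨g, hg⟩ := exists_surjective_nat T
  let en : List T → ℕ → BName B := fun l => env d (l.map Subtype.val)
  let R : Fml × List T → B → Prop := fun k r =>
    r ≤ val k.1 (en k.2) ∨ r ≤ (val k.1 (en k.2))ᶜ
  have hR : ∀ k p, p ≠ ⊥ → ∃ r ≤ p, r ≠ ⊥ ∧ R k r := by
    rintro ⟨φ, l⟩ p hp
    by_cases h : p ⊓ val φ (en l) = ⊥
    · exact ⟨p, le_rfl, hp, Or.inr (le_compl_iff_disjoint_right.mpr (disjoint_iff.mpr h))⟩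
    · exact ⟨_, inf_le_left, h, Or.inl inf_le_right⟩
  obtain ⟨q, _, hanti, hne, hq⟩ := exists_generic R hR ⊤ hB.symm
  -- lists from assignments
  have hlist : ∀ (v : ℕ → ℕ) (n i : ℕ), i < n →
      en (List.ofFn fun j : Fin n => g (v j)) i = (g (v i)).1 := by
    intro v n i hi
    simp only [en]
    rw [List.map_ofFn]
    exact env_ofFn d (fun i => (g (v i)).1) n i hi
  refine ⟨⟨fun n => (g n).1, q, hanti, hne, ?_, ?_⟩⟩
  · intro φ v
    obtain ⟨n, hn⟩ := hq (φ, List.ofFn fun j : Fin (bd φ) => g (v j))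
    refine ⟨n, ?_⟩
    have h1 : val φ (en (List.ofFn fun j : Fin (bd φ) => g (v j))) =
        val φ (fun i => (g (v i)).1) := by
      apply val_eq_of_top
      intro i hi
      rw [hlist v _ i hi]
      exact eqB_refl _
    change q n ≤ val φ (en (List.ofFn fun j : Fin (bd φ) => g (v j))) ∨
      q n ≤ (val φ (en (List.ofFn fun j : Fin (bd φ) => g (v j))))ᶜ at hn
    rwa [h1] at hn
  · intro φ v
    have h1 : ∀ x : BName B, val φ (push x (en (List.ofFn fun j : Fin (bd φ) => g (v j)))) =
        val φ (push x fun i => (g (v i)).1) := by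
      intro x
      apply val_eq_of_top
      intro i hi
      cases i with
      | zero => exact eqB_refl _
      | succ i =>
        rw [push_succ, push_succ, hlist v _ i (by omega)]
        exact eqB_refl _
    have h2 := hw φ ((List.ofFn fun j : Fin (bd φ) => g (v j)).map Subtype.val)
    have h3 : w φ ((List.ofFn fun j : Fin (bd φ) => g (v j)).map Subtype.val) ∈ T := by
      refine hwT φ _ fun x hx => ?_
      obtain ⟨y, _, rfl⟩ := List.mem_map.mp hx
      exact y.2
    obtain ⟨k, hk⟩ := hg ⟨_, h3⟩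
    refine ⟨k, ?_⟩
    rw [hk]
    have h4 : (⨆ y : BName B,
        val φ (push y (en (List.ofFn fun j : Fin (bd φ) => g (v j))))) ≤
        val φ (push (w φ ((List.ofFn fun j : Fin (bd φ) => g (v j)).map Subtype.val))
          (en (List.ofFn fun j : Fin (bd φ) => g (v j)))) := h2
    simp only [h1] at h4
    exact h4

/-! ## The two-valued model -/

namespace GenData

variable (G : GenData B)

/-- Truth with respect to the generic sequence. -/
def Tr (b : B) : Prop := ∃ n, G.q n ≤ b

theorem Tr.mono {G : GenData B} {a b : B} (h : G.Tr a) (hab : a ≤ b) : G.Tr b := by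
  obtain ⟨n, hn⟩ := h
  exact ⟨n, hn.trans hab⟩

theorem Tr_top : G.Tr ⊤ := ⟨0, le_top⟩

theorem not_Tr_bot : ¬ G.Tr ⊥ := by
  rintro ⟨n, hn⟩
  exact G.ne_bot n (le_bot_iff.mp hn)

theorem Tr_inf {a b : B} : G.Tr (a ⊓ b) ↔ G.Tr a ∧ G.Tr b := by
  constructor
  · intro h
    exact ⟨h.mono inf_le_left, h.mono inf_le_right⟩
  · rintro ⟨⟨n, hn⟩, ⟨m, hm⟩⟩
    exact ⟨max n m, le_inf ((G.anti (le_max_left n m)).trans hn)
      ((G.anti (le_max_right n m)).trans hm)⟩

theorem not_Tr_compl {a : B} (h : G.Tr a) : ¬ G.Tr aᶜ := by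
  intro h2
  have := G.Tr_inf.mpr ⟨h, h2⟩
  rw [inf_compl_self] at this
  exact G.not_Tr_bot this

/-- The equivalence relation on indices. -/
def setoid : Setoid ℕ where
  r a b := G.Tr (eqB (G.e a) (G.e b))
  iseqv := by
    refine ⟨fun a => ?_, fun {a b} h => ?_, fun {a b c} h1 h2 => ?_⟩
    · rw [eqB_refl]
      exact G.Tr_top
    · exact h.mono (le_of_eq (eqB_symm _ _))
    · exact (G.Tr_inf.mpr ⟨h1, h2⟩).mono (eqB.trans inf_le_left inf_le_right)

/-- The model. -/
def Md : Type := Quotient G.setoid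

/-- The class of a name. -/
def cls (n : ℕ) : G.Md := Quotient.mk G.setoid n

instance : Membership G.Md G.Md where
  mem a x := Quotient.liftOn₂ x a (fun n m => G.Tr (memB (G.e n) (G.e m))) (by
    intro n m n' m' h1 h2
    have h1' : G.Tr (eqB (G.e n) (G.e n')) := h1
    have h2' : G.Tr (eqB (G.e m) (G.e m')) := h2
    apply propext
    constructor
    · intro h
      refine (G.Tr_inf.mpr ⟨h, G.Tr_inf.mpr ⟨h1', h2'⟩⟩).mono ?_
      exact memB_congr_left (inf_le_right.trans inf_le_left)
        (memB_congr_right (inf_le_right.trans inf_le_right) inf_le_left)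
    · intro h
      refine (G.Tr_inf.mpr ⟨h, G.Tr_inf.mpr ⟨h1', h2'⟩⟩).mono ?_
      exact memB_congr_left (eqB.symm (inf_le_right.trans inf_le_left))
        (memB_congr_right (eqB.symm (inf_le_right.trans inf_le_right)) inf_le_left))

theorem cls_eq {n m : ℕ} : G.cls n = G.cls m ↔ G.Tr (eqB (G.e n) (G.e m)) :=
  Quotient.eq (r := G.setoid)

theorem cls_surj (x : G.Md) : ∃ n, G.cls n = x := Quotient.exists_rep x

/-- A name for every element of the model. -/
noncomputable def rep (x : G.Md) : ℕ := (G.cls_surj x).choose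

theorem cls_rep (x : G.Md) : G.cls (G.rep x) = x := (G.cls_surj x).choose_spec

/-- The fundamental theorem. -/
theorem sat_iff (φ : Fml) : ∀ v : ℕ → ℕ,
    Sat φ (fun i => G.cls (v i)) ↔ G.Tr (val φ fun i => G.e (v i)) := by
  induction φ with
  | mem i j => intro v; exact Iff.rfl
  | eq i j => intro v; exact G.cls_eq
  | neg φ ih =>
    intro v
    rw [Sat_neg, ih, val_neg]
    constructor
    · intro h
      obtain ⟨n, hn | hn⟩ := G.decide φ v
      · exact absurd ⟨n, hn⟩ h
      · exact ⟨n, hn⟩
    · intro h h2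
      exact G.not_Tr_compl h2 h
  | and φ ψ ih1 ih2 =>
    intro v
    rw [Sat_and, ih1, ih2, val_and, G.Tr_inf]
  | all φ ih =>
    intro v
    rw [Sat_all, val_all]
    have hpush : ∀ x : ℕ, (push (G.cls x) fun i => G.cls (v i)) =
        fun i => G.cls (push x v i) := by
      intro x
      funext i
      cases i <;> rfl
    have hpush2 : ∀ x : ℕ, (push (G.e x) fun i => G.e (v i)) = fun i => G.e (push x v i) := by
      intro x
      funext i
      cases i <;> rfl
    constructor
    · intro h
      by_contra hcon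
      obtain ⟨n, hn | hn⟩ := G.decide (.all φ) v
      · exact hcon ⟨n, hn⟩
      · rw [val_all, compl_iInf] at hn
        have h1 : G.q n ≤ ⨆ x : BName B, val (.neg φ) (push x fun i => G.e (v i)) := hn
        obtain ⟨x, hx⟩ := G.wit (.neg φ) v
        have h2 := h (G.cls x)
        rw [hpush, ih] at h2
        have h3 : G.q n ≤ val (.neg φ) (push (G.e x) fun i => G.e (v i)) := h1.trans hx
        rw [hpush2] at h3
        exact G.not_Tr_compl h2 ⟨n, h3⟩
    · intro h x
      obtain ⟨x, rfl⟩ := G.cls_surj x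
      rw [hpush, ih]
      rw [← hpush2]
      exact h.mono (iInf_le _ _)

/-- The fundamental theorem, for assignments in the model. -/
theorem sat_iff' (φ : Fml) (v : ℕ → G.Md) :
    Sat φ v ↔ G.Tr (val φ fun i => G.e (G.rep (v i))) := by
  rw [← G.sat_iff]
  have : v = fun i => G.cls (G.rep (v i)) := by
    funext i
    exact (G.cls_rep _).symm
  rw [← this]

theorem exists_of_val {φ : Fml} {v : ℕ → ℕ}
    (h : G.Tr (⨆ x : BName B, val φ (push x fun i => G.e (v i)))) :
    ∃ x : G.Md, Sat φ (push x fun i => G.cls (v i)) := by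
  rw [← Sat_ex, G.sat_iff, val_ex]
  exact h

/-- Separation in the model. -/
theorem m_sep (φ : Fml) (v : ℕ → G.Md) (a : G.Md) :
    ∃ b : G.Md, ∀ x : G.Md, x ∈ b ↔ x ∈ a ∧ Sat φ (push x v) := by
  let f : ℕ → ℕ := fun i => match i with
    | 0 => 0
    | i + 1 => i + 3
  let ψ : Fml := .all (fiff (.mem 0 1) (.and (.mem 0 2) (φ.rename f)))
  let w : ℕ → ℕ := push (G.rep a) fun i => G.rep (v i)
  have h1 : G.Tr (⨆ x : BName B, val ψ (push x fun i => G.e (w i))) := by
    obtain ⟨b, hb⟩ := ax_sep φ (fun i => G.e (G.rep (v i))) (G.e (G.rep a))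
    refine G.Tr_top.mono (le_iSup_of_le b ?_)
    simp only [ψ, val_all, val_iff, val_and, val_mem, val_rename]
    refine le_iInf fun t => ?_
    refine (iffB_eq_top ?_).ge
    have h2 := hb t
    have h3 : (push t (push b fun i => G.e (w i))) ∘ f =
        push t fun i => G.e (G.rep (v i)) := by
      funext i
      cases i <;> rfl
    rw [h3]
    exact h2
  obtain ⟨b, hb⟩ := G.exists_of_val h1
  refine ⟨b, fun x => ?_⟩
  have h2 := hb x
  have h3 : Sat (fiff (.mem 0 1) (.and (.mem 0 2) (φ.rename f)))
      (push x (push b fun i => G.cls (w i))) := h2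
  rw [Sat_iff, Sat_and, sat_rename] at h3
  have h4 : (push x (push b fun i => G.cls (w i))) ∘ f = push x v := by
    funext i
    cases i with
    | zero => rfl
    | succ i => exact G.cls_rep _
  rw [h4] at h3
  have h5 : G.cls (w 0) = a := G.cls_rep a
  have h6 : (x ∈ b ↔ x ∈ G.cls (w 0) ∧ Sat φ (push x v)) := h3
  rw [h5] at h6
  exact h6

/-- Collection in the model. -/
theorem m_coll (φ : Fml) (v : ℕ → G.Md) (a : G.Md) :
    ∃ b : G.Md, ∀ x : G.Md, x ∈ a → (∃ y : G.Md, Sat φ (push y (push x v))) →
      ∃ y : G.Md, y ∈ b ∧ Sat φ (push y (push x v)) := by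
  let f : ℕ → ℕ := fun i => match i with
    | 0 => 0
    | 1 => 1
    | i + 2 => i + 4
  let ψ : Fml := .all (fimp (.and (.mem 0 2) (fex (φ.rename f)))
    (fex (.and (.mem 0 2) (φ.rename f))))
  let w : ℕ → ℕ := push (G.rep a) fun i => G.rep (v i)
  have h1 : G.Tr (⨆ x : BName B, val ψ (push x fun i => G.e (w i))) := by
    obtain ⟨b, hb⟩ := ax_coll φ (fun i => G.e (G.rep (v i))) (G.e (G.rep a))
    refine G.Tr_top.mono (le_iSup_of_le b ?_)
    simp only [ψ, val_all, val_imp, val_and, val_mem, val_rename, val_ex]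
    refine le_iInf fun t => ?_
    rw [top_le_iff, himp_eq_top_iff]
    have h3 : ∀ y : BName B, (push y (push t (push b fun i => G.e (w i)))) ∘ f =
        push y (push t fun i => G.e (G.rep (v i))) := by
      intro y
      funext i
      rcases i with _ | _ | i <;> rfl
    simp only [h3]
    exact hb t
  obtain ⟨b, hb⟩ := G.exists_of_val h1
  refine ⟨b, fun x hxa hxy => ?_⟩
  have h2 := hb x
  have h3 : Sat (fimp (.and (.mem 0 2) (fex (φ.rename f)))
    (fex (.and (.mem 0 2) (φ.rename f)))) (push x (push b fun i => G.cls (w i))) := h2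
  rw [Sat_imp, Sat_and, Sat_ex, Sat_ex] at h3
  have h4 : ∀ y : G.Md, (push y (push x (push b fun i => G.cls (w i)))) ∘ f =
      push y (push x v) := by
    intro y
    funext i
    rcases i with _ | _ | i
    · rfl
    · rfl
    · exact G.cls_rep _
  simp only [Sat_and, sat_rename, h4] at h3
  have h5 : G.cls (w 0) = a := G.cls_rep a
  refine h3 ⟨?_, hxy⟩
  change x ∈ G.cls (w 0)
  rw [h5]
  exact hxa

/-- The two-valued model satisfies the axioms of ZF. -/
theorem modelZF : ModelZF G.Md where
  extensionality a b h := by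
    obtain ⟨a, rfl⟩ := G.cls_surj a
    obtain ⟨b, rfl⟩ := G.cls_surj b
    have h1 := (G.sat_iff (.all (fiff (.mem 0 1) (.mem 0 2))) (push a fun _ => b)).mp (by
      rw [Sat_all]
      intro x
      rw [Sat_iff]
      exact h x)
    rw [val_all] at h1
    simp only [val_iff, val_mem] at h1
    rw [G.cls_eq]
    exact h1.mono (ax_ext (G.e a) (G.e b))
  foundation a h := by
    obtain ⟨a, rfl⟩ := G.cls_surj a
    have h1 := (G.sat_iff (fex (.mem 0 1)) (fun _ => a)).mp (by
      rw [Sat_ex]
      exact h)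
    rw [val_ex] at h1
    have h2 : G.Tr (⨆ x : BName B,
        val (.and (.mem 0 1) (.all (fimp (.mem 0 1) (.neg (.mem 0 2)))))
        (push x fun _ => G.e a)) := by
      refine h1.mono ((ax_found (G.e a)).trans ?_)
      simp only [val_and, val_all, val_imp, val_neg, val_mem]
      exact le_rfl
    obtain ⟨x, hx⟩ := G.exists_of_val (v := fun _ => a) h2
    rw [Sat_and, Sat_all] at hx
    refine ⟨x, hx.1, fun y hy => ?_⟩
    have h3 := hx.2 y
    rw [Sat_imp] at h3
    exact h3 hy
  pairing a b := by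
    obtain ⟨a, rfl⟩ := G.cls_surj a
    obtain ⟨b, rfl⟩ := G.cls_surj b
    have h2 : G.Tr (⨆ x : BName B, val (.all (fiff (.mem 0 1) (for' (.eq 0 2) (.eq 0 3))))
        (push x fun i => G.e ((push a fun _ => b) i))) := by
      refine G.Tr_top.mono (le_iSup_of_le (upair (G.e a) (G.e b)) ?_)
      simp only [val_all, val_iff, val_or, val_mem, val_eq]
      exact le_iInf fun t => (iffB_eq_top (memB_upair t _ _)).ge
    obtain ⟨c, hc⟩ := G.exists_of_val h2
    refine ⟨c, fun x => ?_⟩
    have h3 := hc x
    rw [Sat_iff, Sat_or] at h3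
    exact h3
  union a := by
    obtain ⟨a, rfl⟩ := G.cls_surj a
    have h2 : G.Tr (⨆ x : BName B,
        val (.all (fiff (.mem 0 1) (fex (.and (.mem 0 3) (.mem 1 0)))))
        (push x fun i => G.e ((fun _ => a) i))) := by
      refine G.Tr_top.mono (le_iSup_of_le (unionN (G.e a)) ?_)
      simp only [val_all, val_iff, val_ex, val_and, val_mem]
      exact le_iInf fun t => (iffB_eq_top (memB_unionN t _)).ge
    obtain ⟨c, hc⟩ := G.exists_of_val h2
    refine ⟨c, fun x => ?_⟩
    have h3 := hc x
    rw [Sat_iff, Sat_ex] at h3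
    exact h3
  powerset a := by
    obtain ⟨a, rfl⟩ := G.cls_surj a
    have h2 : G.Tr (⨆ x : BName B,
        val (.all (fiff (.mem 0 1) (.all (fimp (.mem 0 1) (.mem 0 3)))))
        (push x fun i => G.e ((fun _ => a) i))) := by
      obtain ⟨b, hb⟩ := ax_power (G.e a)
      refine G.Tr_top.mono (le_iSup_of_le b ?_)
      simp only [val_all, val_iff, val_imp, val_mem]
      exact le_iInf fun t => (iffB_eq_top (hb t)).ge
    obtain ⟨c, hc⟩ := G.exists_of_val h2
    refine ⟨c, fun x => ?_⟩
    have h3 := hc x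
    rw [Sat_iff, Sat_all] at h3
    simp only [Sat_imp] at h3
    exact h3
  infinity := by
    have h2 : G.Tr (⨆ x : BName B, val (.and (fex (.and (.mem 0 1) (.all (.neg (.mem 0 1)))))
        (.all (fimp (.mem 0 1) (fex (.and (.mem 0 2)
          (.all (fiff (.mem 0 1) (for' (.mem 0 2) (.eq 0 2)))))))))
        (push x fun i => G.e ((fun _ => 0) i))) := by
      refine G.Tr_top.mono (le_iSup_of_le omegaN ?_)
      simp only [val_all, val_iff, val_or, val_mem, val_eq, val_and, val_imp, val_ex, val_neg]
      refine le_inf ?_ ?_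
      · refine le_iSup_of_le (natN 0) (le_inf ?_ ?_)
        · change ⊤ ≤ memB (natN 0) omegaN
          rw [memB_omegaN]
          exact le_iSup_of_le 0 (le_eqB_refl _ _)
        · refine le_iInf fun t => ?_
          change ⊤ ≤ (memB t (natN 0))ᶜ
          have : memB t (natN 0) = ⊥ := memB_emptyN _
          rw [this, compl_bot]
      · refine le_iInf fun n => himp_intro fun q _ hq => ?_
        have hq' : q ≤ memB n omegaN := hq
        rw [memB_omegaN] at hq'
        refine iSup_elim hq' fun k r hr hrk => ?_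
        refine iSup_intro (natN (k + 1)) (le_inf ?_ ?_)
        · change r ≤ memB (natN (k + 1)) omegaN
          rw [memB_omegaN]
          exact iSup_intro (k + 1) (le_eqB_refl _ _)
        · refine le_iInf fun t => ?_
          change r ≤ iffB (memB t (succN (natN k))) (memB t n ⊔ eqB t n)
          rw [memB_succN]
          refine iffB_intro (fun s hs hs2 => ?_) (fun s hs hs2 => ?_)
          · refine sup_elim hs2 (fun x hx hx2 => ?_) (fun x hx hx2 => ?_)
            · exact (memB_congr_right (eqB.symm ((hx.trans hs).trans hrk)) hx2).trans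
                le_sup_left
            · exact (eqB.trans hx2 (eqB.symm ((hx.trans hs).trans hrk))).trans le_sup_right
          · refine sup_elim hs2 (fun x hx hx2 => ?_) (fun x hx hx2 => ?_)
            · exact (memB_congr_right ((hx.trans hs).trans hrk) hx2).trans le_sup_left
            · exact (eqB.trans hx2 ((hx.trans hs).trans hrk)).trans le_sup_right
    obtain ⟨w, hw⟩ := G.exists_of_val h2
    refine ⟨w, ?_⟩
    rw [Sat_and, Sat_ex, Sat_all] at hw
    simp only [Sat_and, Sat_all, Sat_neg, Sat_imp, Sat_ex, Sat_iff, Sat_or] at hw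
    exact hw
  separation φ v a := G.m_sep φ v a
  replacement φ v a h := by
    obtain ⟨b, hb⟩ := G.m_coll φ v a
    let f : ℕ → ℕ := fun i => match i with
      | 0 => 1
      | 1 => 0
      | i + 2 => i + 3
    obtain ⟨c, hc⟩ := G.m_sep (fex (.and (.mem 0 2) (φ.rename f))) (push a v) b
    refine ⟨c, fun y => ?_⟩
    rw [hc, Sat_ex]
    have h4 : ∀ x : G.Md, (push x (push y (push a v))) ∘ f = push y (push x v) := by
      intro x
      funext i
      rcases i with _ | _ | i <;> rfl
    simp only [Sat_and, sat_rename, h4]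
    constructor
    · rintro ⟨_, x, hx1, hx2⟩
      exact ⟨x, hx1, hx2⟩
    · rintro ⟨x, hxa, hx⟩
      refine ⟨?_, x, hxa, hx⟩
      obtain ⟨y', hy', hy''⟩ := hb x hxa ⟨y, hx⟩
      rw [(h x hxa).unique hx hy'']
      exact hy'

/-- The two-valued model satisfies the axioms of ZFC. -/
theorem modelZFC : ModelZFC G.Md where
  toModelZF := G.modelZF
  choice a h1 h2 := by
    obtain ⟨a, rfl⟩ := G.cls_surj a
    -- the hypotheses and the conclusion as formulas
    let φ1 : Fml := .all (fimp (.mem 0 1) (fex (.mem 0 1)))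
    let φ2 : Fml := .all (.all (fimp (.and (.and (.mem 1 2) (.mem 0 2))
      (fex (.and (.mem 0 2) (.mem 0 1)))) (.eq 1 0)))
    let φ3 : Fml := .all (fimp (.mem 0 2) (fex (.and (.and (.mem 0 2) (.mem 0 1))
      (.all (fimp (.and (.mem 0 3) (.mem 0 2)) (.eq 0 1))))))
    have h3 : G.Tr (val (.and φ1 φ2) fun _ => G.e a) := by
      rw [← G.sat_iff (.and φ1 φ2) (fun _ => a)]
      simp only [φ1, φ2, Sat_and, Sat_all, Sat_imp, Sat_ex, Sat_mem, Sat_eq]
      refine ⟨fun x hx => h1 x hx, fun x y hxy => ?_⟩
      exact h2 x y hxy.1.1 hxy.1.2 hxy.2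
    have h4 : G.Tr (⨆ c : BName B, val φ3 (push c fun i => G.e ((fun _ => a) i))) := by
      obtain ⟨c, hc⟩ := ax_choice (G.e a)
      refine h3.mono (le_trans ?_ (le_iSup_of_le c (hc.trans ?_)))
      · simp only [φ1, φ2, val_and, val_all, val_imp, val_ex, val_mem, val_eq]
        exact le_rfl
      · simp only [φ3, val_and, val_all, val_imp, val_ex, val_mem, val_eq]
        exact le_rfl
    obtain ⟨c, hc⟩ := G.exists_of_val h4
    refine ⟨c, fun x hx => ?_⟩
    simp only [φ3, Sat_and, Sat_all, Sat_imp, Sat_ex, Sat_mem, Sat_eq] at hc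
    obtain ⟨y, hy1, hy2⟩ := hc x hx
    exact ⟨y, hy1, fun z hz => hy2 z hz⟩

/-- Everything of Boolean value `⊤` holds in the two-valued model. -/
theorem sat_of_top {φ : Fml} (h : ∀ v : ℕ → BName B, val φ v = ⊤) (v : ℕ → G.Md) : Sat φ v := by
  rw [G.sat_iff', h]
  exact G.Tr_top

end GenData

end Pool.Agent.StarRoth.BV.Mdl

namespace Pool.Agent.StarRoth.BV

theorem modelStmt : ModelStmt := by
  intro B _ hB
  obtain ⟨G⟩ := Mdl.exists_genData hB
  exact ⟨G.Md, inferInstance, G.modelZFC, fun φ h v => G.sat_of_top h v⟩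

end Pool.Agent.StarRoth.BV
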