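import Pool.Agent.Lib.MP_a4e7db_lc.Names
import Pool.Agent.Lib.MP_5db68c_lc.Defs
import Pool.Agent.Lib.MP_a4e7db_lc.Coin0

/-!
# MP_a1c723_lc: Boolean values of the set-theoretic notions

Names, `eqB`, `memB` and the Boolean values of basic notions are those of
`Pool.Agent.Lib.MP_a4e7db_lc.Names`; formulas `Fml` and satisfaction `Sat` are those of
`Pool.Agent.Lib.MP_5db68c_lc.Defs`.
-/

set_option autoImplicit false

namespace Pool.Agent.StarRoth.BV

open Pool.Agent.MPa4e7db Pool.Agent.MP_5db68c_lc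

universe u

/-! ## Boolean values of first-order formulas -/

section

variable {B : Type u} [CompleteBooleanAlgebra B]

/-- The Boolean value of a first-order formula in `V^B`. -/
def val : Fml → (ℕ → BName B) → B
  | .mem i j, v => memB (v i) (v j)
  | .eq i j, v => eqB (v i) (v j)
  | .neg φ, v => (val φ v)ᶜ
  | .and φ ψ, v => val φ v ⊓ val ψ v
  | .all φ, v => ⨅ x : BName B, val φ (push x v)

/-! ## Boolean values of the notions in the question -/

/-- `f` is a function from `d` to `r`. -/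
def isFunIntoB (f d r : BName B) : B :=
  isFunOnB f d ⊓ ⨅ x : BName B, ⨅ y : BName B, relB f x y ⇨ memB y r

/-- `f` is a bijection from `d` onto `k`. -/
def isBijB (f d k : BName B) : B :=
  isInjIntoB f d k ⊓ ⨅ y : BName B, memB y k ⇨ ⨆ x : BName B, relB f x y

/-- `x` is a transitive set. -/
def isTransB (x : BName B) : B := ⨅ y : BName B, memB y x ⇨ subB y x

/-- `x` is an ordinal: a transitive set of transitive sets. -/
def isOrdB (x : BName B) : B := isTransB x ⊓ ⨅ y : BName B, memB y x ⇨ isTransB y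

/-- `κ` is a cardinal: an ordinal that is not in bijection with any of its elements. -/
def isCardB (κ : BName B) : B :=
  isOrdB κ ⊓ ⨅ l : BName B, memB l κ ⇨ (⨆ f : BName B, isBijB f l κ)ᶜ

/-- `A` is an almost disjoint family of infinite subsets of `w = ω`. -/
def isADB (A w : BName B) : B :=
  (⨅ a : BName B, memB a A ⇨ subB a w ⊓
    ⨅ n : BName B, memB n w ⇨ ⨆ m : BName B, memB m a ⊓ (memB m n)ᶜ) ⊓
  ⨅ a : BName B, ⨅ b : BName B, memB a A ⊓ memB b A ⊓ (eqB a b)ᶜ ⇨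
    ⨆ n : BName B, memB n w ⊓ ⨅ m : BName B, memB m a ⊓ memB m b ⇨ memB m n

/-- `s` is countable: it injects into `w = ω`. -/
def isCtblB (s w : BName B) : B := ⨆ f : BName B, isInjIntoB f s w

/-- `C` is a cofinal family of countable subsets of `κ`. -/
def isCofinalB (C κ w : BName B) : B :=
  (⨅ c : BName B, memB c C ⇨ subB c κ ⊓ isCtblB c w) ⊓
    ⨅ s : BName B, subB s κ ⊓ isCtblB s w ⇨ ⨆ c : BName B, memB c C ⊓ subB s c

/-- `cof([κ]^ω) = κ` for the cardinal `κ`. -/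
def cofEqB (κ w : BName B) : B :=
  (⨆ C : BName B, isCofinalB C κ w ⊓ ⨆ f : BName B, isBijB f C κ) ⊓
    ⨅ C : BName B, isCofinalB C κ w ⇨
      ⨅ l : BName B, memB l κ ⇨ (⨆ f : BName B, isBijB f C l)ᶜ

/-- `{m ∈ ω : f(m) = g(m)}` is bounded. -/
def evDiffB (f g w : BName B) : B :=
  ⨆ n : BName B, memB n w ⊓ ⨅ m : BName B, ⨅ k : BName B,
    memB m w ⊓ relB f m k ⊓ relB g m k ⇨ memB m n

/-- `F` is a set of functions from `ω` to `ω` such that every function from `ω` to `ω` is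
eventually different from some member of `F`. -/
def isUnguessedB (F w : BName B) : B :=
  (⨅ f : BName B, memB f F ⇨ isFunIntoB f w w) ⊓
    ⨅ g : BName B, isFunIntoB g w w ⇨ ⨆ f : BName B, memB f F ⊓ evDiffB f g w

/-- `cov(M) ≤ κ`. -/
def covLeB (κ w : BName B) : B := ⨆ F : BName B, isUnguessedB F w ⊓ cardLeB F κ

/-- `U` is an open subset of `Ψ(A) = ω ∪ A`. -/
def isOpenB (U A w : BName B) : B :=
  (⨅ t : BName B, memB t U ⇨ memB t w ⊔ memB t A) ⊓
    ⨅ a : BName B, memB a A ⊓ memB a U ⇨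
      ⨆ n : BName B, memB n w ⊓ ⨅ m : BName B, memB m a ⊓ (memB m U)ᶜ ⇨ memB m n

/-- `c` is an open cover of `Ψ(A)`. -/
def isCoverB (c A w : BName B) : B :=
  (⨅ U : BName B, memB U c ⇨ isOpenB U A w) ⊓
    ⨅ t : BName B, memB t w ⊔ memB t A ⇨ ⨆ U : BName B, memB U c ⊓ memB t U

/-- `P` is a sequence of open covers of `Ψ(A)`. -/
def isCoverSeqB (P A w : BName B) : B :=
  isFunOnB P w ⊓ ⨅ n : BName B, ⨅ c : BName B, relB P n c ⇨ isCoverB c A w

/-- `t` is in the star of `U` with respect to `c`. -/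
def inStarB (t U c : BName B) : B :=
  ⨆ V : BName B, memB V c ⊓ memB t V ⊓ ⨆ s : BName B, memB s V ⊓ memB s U

/-- `S` is a sequence of elements `S(n) ∈ P(n)` whose stars cover `Ψ(A)`. -/
def isStarSelB (S P A w : BName B) : B :=
  isFunOnB S w ⊓
  (⨅ n : BName B, ⨅ c : BName B, ⨅ U : BName B, relB P n c ⊓ relB S n U ⇨ memB U c) ⊓
  ⨅ t : BName B, memB t w ⊔ memB t A ⇨
    ⨆ n : BName B, ⨆ c : BName B, ⨆ U : BName B, relB P n c ⊓ relB S n U ⊓ inStarB t U c

/-- `Ψ(A)` is star-Rothberger. -/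
def starRothB (A w : BName B) : B :=
  ⨅ P : BName B, isCoverSeqB P A w ⇨ ⨆ S : BName B, isStarSelB S P A w

end

/-- The Boolean value of the configuration asked for in the question. -/
def configB (B : Type u) [CompleteBooleanAlgebra B] : B :=
  ⨆ w : BName B, ⨆ κ : BName B, ⨆ A : BName B,
    isOmegaB w ⊓ isCardB κ ⊓ isADB A w ⊓ (⨆ f : BName B, isBijB f A κ) ⊓
      covLeB κ w ⊓ cofEqB κ w ⊓ starRothB A w

/-! ## What is needed of the complete Boolean algebra -/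

/-- `B` is a nontrivial c.c.c. algebra such that (`dom`) no `W`-indexed family of functions
`ω → ω` in `V^B` is dominating, and (`ran`) `V^B` contains a `W`-indexed family of distinct
functions `ω → ω` such that every function is eventually different from one of them. -/
structure Facts (B : Type) [CompleteBooleanAlgebra B] (W : Type) : Prop where
  nontriv : (⊥ : B) ≠ ⊤
  ccc : ∀ (ι : Type) (f : ι → B), (∀ i j, i ≠ j → f i ⊓ f j = ⊥) → {i | f i ≠ ⊥}.Countable
  dom : ∀ e : W → ℕ → ℕ → B, (∀ w m, ⨆ k, e w m k = ⊤) →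
    ∃ h : ℕ → ℕ → B, (∀ m k l, k ≠ l → h m k ⊓ h m l = ⊥) ∧ (∀ m, ⨆ k, h m k = ⊤) ∧
      ∀ w m₀, ⨆ m : ℕ, ⨆ (_ : m₀ ≤ m), ⨆ k : ℕ, ⨆ j : ℕ, ⨆ (_ : j ≤ k), h m k ⊓ e w m j = ⊤
  ran : ∃ r : W → ℕ → ℕ → B, (∀ w n k l, k ≠ l → r w n k ⊓ r w n l = ⊥) ∧
    (∀ w n, ⨆ k, r w n k = ⊤) ∧
    (∀ v w, v ≠ w → ⨆ n : ℕ, ⨆ k : ℕ, ⨆ l : ℕ, ⨆ (_ : k ≠ l), r v n k ⊓ r w n l = ⊤) ∧
    ∀ g : ℕ → ℕ → B, (∀ n k l, k ≠ l → g n k ⊓ g n l = ⊥) →
      ∃ w, ⨆ n₀ : ℕ, ⨅ n : ℕ, ⨅ (_ : n₀ ≤ n), ⨅ k : ℕ, (r w n k ⊓ g n k)ᶜ = ⊤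

/-! ## The concrete filter -/

open MeasureTheory in
/-- The filter of the iteration of Cohen forcing (`I → Bool` with the residual filter) and random
forcing (`J → Bool` with the coin-tossing measure): `s` is in it if for residually many `x`,
`(x, y) ∈ s` for almost all `y`. -/
noncomputable def FF (I J : Type) : Filter ((I → Bool) × (J → Bool)) :=
  (residual (I → Bool)).curry (ae (coinMeasure J))

/-- The countable chain condition for the measurable sets modulo a filter. -/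
def CCCF {Ω : Type} [MeasurableSpace Ω] (F : Filter Ω) : Prop :=
  ∀ D : Set (Set Ω), (∀ s ∈ D, MeasurableSet s ∧ ∃ᶠ x in F, x ∈ s) →
    (∀ s ∈ D, ∀ t ∈ D, s ≠ t → ∀ᶠ x in F, ¬ (x ∈ s ∧ x ∈ t)) → D.Countable

/-! ## Models of ZFC -/

/-- `(M, ∈)` is a model of `ZFC`: a model of `ZF` in which every set of nonempty pairwise disjoint
sets has a choice set. -/
structure ModelZFC (M : Type u) [Membership M M] : Prop extends ModelZF M where
  choice : ∀ a : M, (∀ x : M, x ∈ a → ∃ y : M, y ∈ x) →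
    (∀ x y : M, x ∈ a → y ∈ a → (∃ z : M, z ∈ x ∧ z ∈ y) → x = y) →
    ∃ c : M, ∀ x : M, x ∈ a → ∃! y : M, y ∈ c ∧ y ∈ x

end Pool.Agent.StarRoth.BV
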