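import Pool.Agent.Lib.MP_a1c723_lc.BV.Internal
import Pool.Agent.Lib.MP_a1c723_lc.BV.Defs

/-!
# MP_a1c723_lc: the configuration as a first-order sentence
-/

set_option autoImplicit false

namespace Pool.Agent.StarRoth.BV

open Pool.Agent.MPa4e7db Pool.Agent.MP_5db68c_lc

/-! ### Connectives -/

def fImp (φ ψ : Fml) : Fml := .neg (.and φ (.neg ψ))
def fOr (φ ψ : Fml) : Fml := .neg (.and (.neg φ) (.neg ψ))
def fIff (φ ψ : Fml) : Fml := .and (fImp φ ψ) (fImp ψ φ)
def fEx (φ : Fml) : Fml := .neg (.all (.neg φ))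

section

variable {M : Type} [Membership M M] (φ ψ : Fml) (v : ℕ → M) (i j : ℕ)

theorem sat_mem : Sat (.mem i j) v ↔ v i ∈ v j := Iff.rfl
theorem sat_eq : Sat (.eq i j) v ↔ v i = v j := Iff.rfl
theorem sat_neg : Sat (.neg φ) v ↔ ¬ Sat φ v := Iff.rfl
theorem sat_and : Sat (.and φ ψ) v ↔ Sat φ v ∧ Sat ψ v := Iff.rfl
theorem sat_all : Sat (.all φ) v ↔ ∀ x : M, Sat φ (push x v) := Iff.rfl

theorem sat_imp : Sat (fImp φ ψ) v ↔ (Sat φ v → Sat ψ v) := by
  rw [fImp, sat_neg, sat_and, sat_neg]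
  tauto

theorem sat_or : Sat (fOr φ ψ) v ↔ (Sat φ v ∨ Sat ψ v) := by
  rw [fOr, sat_neg, sat_and, sat_neg, sat_neg]
  tauto

theorem sat_iff : Sat (fIff φ ψ) v ↔ (Sat φ v ↔ Sat ψ v) := by
  rw [fIff, sat_and, sat_imp, sat_imp]
  tauto

theorem sat_ex : Sat (fEx φ) v ↔ ∃ x : M, Sat φ (push x v) := by
  rw [fEx, sat_neg, sat_all]
  simp only [sat_neg, not_forall, not_not]

end

theorem push_zero {X : Type*} (x : X) (v : ℕ → X) : push x v 0 = x := rfl
theorem push_succ {X : Type*} (x : X) (v : ℕ → X) (n : ℕ) : push x v (n + 1) = v n := rfl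

section

variable {B : Type} [CompleteBooleanAlgebra B] (φ ψ : Fml) (v : ℕ → BName B) (i j : ℕ)

theorem val_mem : val (.mem i j) v = memB (v i) (v j) := rfl
theorem val_eq : val (.eq i j) v = eqB (v i) (v j) := rfl
theorem val_neg : val (.neg φ) v = (val φ v)ᶜ := rfl
theorem val_and : val (.and φ ψ) v = val φ v ⊓ val ψ v := rfl
theorem val_all : val (.all φ) v = ⨅ x : BName B, val φ (push x v) := rfl

theorem val_imp : val (fImp φ ψ) v = val φ v ⇨ val ψ v := by
  rw [fImp, val_neg, val_and, val_neg, compl_inf, compl_compl, himp_eq, sup_comm]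

theorem val_or : val (fOr φ ψ) v = val φ v ⊔ val ψ v := by
  rw [fOr, val_neg, val_and, val_neg, val_neg, compl_inf, compl_compl, compl_compl]

theorem val_iff : val (fIff φ ψ) v = iffB (val φ v) (val ψ v) := by
  rw [fIff, val_and, val_imp, val_imp, iffB]

theorem val_ex : val (fEx φ) v = ⨆ x : BName B, val φ (push x v) := by
  rw [fEx, val_neg, val_all, compl_iInf]
  simp only [val_neg, compl_compl]

end

/-! ### The notions as formulas

The arguments are the indices of the variables. -/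

def fSub (x y : ℕ) : Fml := .all (fImp (.mem 0 (x + 1)) (.mem 0 (y + 1)))
def fUPair (z x y : ℕ) : Fml :=
  .all (fIff (.mem 0 (z + 1)) (fOr (.eq 0 (x + 1)) (.eq 0 (y + 1))))
def fOPair (z x y : ℕ) : Fml :=
  fEx (fEx (.and (.and (fUPair (0 + 1) (x + 1 + 1) (x + 1 + 1)) (fUPair 0 (x + 1 + 1) (y + 1 + 1)))
    (fUPair (z + 1 + 1) (0 + 1) 0)))
def fEmpty (e : ℕ) : Fml := .all (.neg (.mem 0 (e + 1)))
def fSucc (s n : ℕ) : Fml :=
  .all (fIff (.mem 0 (s + 1)) (fOr (.mem 0 (n + 1)) (.eq 0 (n + 1))))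
def fInductive (v : ℕ) : Fml :=
  .and (fEx (.and (fEmpty 0) (.mem 0 (v + 1))))
    (.all (fImp (.mem 0 (v + 1)) (fEx (.and (fSucc 0 (0 + 1)) (.mem 0 (v + 1 + 1))))))
def fOmega (w : ℕ) : Fml := .and (fInductive w) (.all (fImp (fInductive 0) (fSub (w + 1) 0)))
def fRel (f x y : ℕ) : Fml := fEx (.and (fOPair 0 (x + 1) (y + 1)) (.mem 0 (f + 1)))
def fFunOn (f d : ℕ) : Fml :=
  .and (.and
    (.all (fImp (.mem 0 (f + 1))
      (fEx (fEx (.and (.mem (0 + 1) (d + 1 + 1 + 1)) (fOPair (0 + 1 + 1) (0 + 1) 0))))))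
    (.all (fImp (.mem 0 (d + 1)) (fEx (fRel (f + 1 + 1) (0 + 1) 0)))))
    (.all (.all (.all (fImp (.and (fRel (f + 1 + 1 + 1) (0 + 1 + 1) (0 + 1))
      (fRel (f + 1 + 1 + 1) (0 + 1 + 1) 0)) (.eq (0 + 1) 0)))))
def fFunInto (f d r : ℕ) : Fml :=
  .and (fFunOn f d) (.all (.all (fImp (fRel (f + 1 + 1) (0 + 1) 0) (.mem 0 (r + 1 + 1)))))
def fInj (f d k : ℕ) : Fml :=
  .and (.and (fFunOn f d)
    (.all (.all (fImp (fRel (f + 1 + 1) (0 + 1) 0) (.mem 0 (k + 1 + 1))))))
    (.all (.all (.all (fImp (.and (fRel (f + 1 + 1 + 1) (0 + 1 + 1) 0)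
      (fRel (f + 1 + 1 + 1) (0 + 1) 0)) (.eq (0 + 1 + 1) (0 + 1))))))
def fBij (f d k : ℕ) : Fml :=
  .and (fInj f d k) (.all (fImp (.mem 0 (k + 1)) (fEx (fRel (f + 1 + 1) 0 (0 + 1)))))
def fCardLe (d k : ℕ) : Fml := fEx (fInj 0 (d + 1) (k + 1))
def fTrans (x : ℕ) : Fml := .all (fImp (.mem 0 (x + 1)) (fSub 0 (x + 1)))
def fOrd (x : ℕ) : Fml := .and (fTrans x) (.all (fImp (.mem 0 (x + 1)) (fTrans 0)))
def fCard (κ : ℕ) : Fml :=
  .and (fOrd κ) (.all (fImp (.mem 0 (κ + 1)) (.neg (fEx (fBij 0 (0 + 1) (κ + 1 + 1))))))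
def fAD (A w : ℕ) : Fml :=
  .and (.all (fImp (.mem 0 (A + 1)) (.and (fSub 0 (w + 1))
      (.all (fImp (.mem 0 (w + 1 + 1)) (fEx (.and (.mem 0 (0 + 1 + 1)) (.neg (.mem 0 (0 + 1))))))))))
    (.all (.all (fImp (.and (.and (.mem (0 + 1) (A + 1 + 1)) (.mem 0 (A + 1 + 1)))
        (.neg (.eq (0 + 1) 0)))
      (fEx (.and (.mem 0 (w + 1 + 1 + 1))
        (.all (fImp (.and (.mem 0 (0 + 1 + 1 + 1)) (.mem 0 (0 + 1 + 1))) (.mem 0 (0 + 1)))))))))
def fCtbl (s w : ℕ) : Fml := fEx (fInj 0 (s + 1) (w + 1))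
def fCofinal (C κ w : ℕ) : Fml :=
  .and (.all (fImp (.mem 0 (C + 1)) (.and (fSub 0 (κ + 1)) (fCtbl 0 (w + 1)))))
    (.all (fImp (.and (fSub 0 (κ + 1)) (fCtbl 0 (w + 1)))
      (fEx (.and (.mem 0 (C + 1 + 1)) (fSub (0 + 1) 0)))))
def fCofEq (κ w : ℕ) : Fml :=
  .and (fEx (.and (fCofinal 0 (κ + 1) (w + 1)) (fEx (fBij 0 (0 + 1) (κ + 1 + 1)))))
    (.all (fImp (fCofinal 0 (κ + 1) (w + 1))
      (.all (fImp (.mem 0 (κ + 1 + 1)) (.neg (fEx (fBij 0 (0 + 1 + 1) (0 + 1))))))))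
def fEvDiff (f g w : ℕ) : Fml :=
  fEx (.and (.mem 0 (w + 1)) (.all (.all (fImp (.and (.and (.mem (0 + 1) (w + 1 + 1 + 1))
    (fRel (f + 1 + 1 + 1) (0 + 1) 0)) (fRel (g + 1 + 1 + 1) (0 + 1) 0))
      (.mem (0 + 1) (0 + 1 + 1))))))
def fUnguessed (F w : ℕ) : Fml :=
  .and (.all (fImp (.mem 0 (F + 1)) (fFunInto 0 (w + 1) (w + 1))))
    (.all (fImp (fFunInto 0 (w + 1) (w + 1))
      (fEx (.and (.mem 0 (F + 1 + 1)) (fEvDiff 0 (0 + 1) (w + 1 + 1))))))
def fCovLe (κ w : ℕ) : Fml := fEx (.and (fUnguessed 0 (w + 1)) (fCardLe 0 (κ + 1)))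
def fOpen (U A w : ℕ) : Fml :=
  .and (.all (fImp (.mem 0 (U + 1)) (fOr (.mem 0 (w + 1)) (.mem 0 (A + 1)))))
    (.all (fImp (.and (.mem 0 (A + 1)) (.mem 0 (U + 1)))
      (fEx (.and (.mem 0 (w + 1 + 1)) (.all (fImp (.and (.mem 0 (0 + 1 + 1))
        (.neg (.mem 0 (U + 1 + 1 + 1)))) (.mem 0 (0 + 1))))))))
def fCover (c A w : ℕ) : Fml :=
  .and (.all (fImp (.mem 0 (c + 1)) (fOpen 0 (A + 1) (w + 1))))
    (.all (fImp (fOr (.mem 0 (w + 1)) (.mem 0 (A + 1)))
      (fEx (.and (.mem 0 (c + 1 + 1)) (.mem (0 + 1) 0)))))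
def fCoverSeq (P A w : ℕ) : Fml :=
  .and (fFunOn P w)
    (.all (.all (fImp (fRel (P + 1 + 1) (0 + 1) 0) (fCover 0 (A + 1 + 1) (w + 1 + 1)))))
def fInStar (t U c : ℕ) : Fml :=
  fEx (.and (.and (.mem 0 (c + 1)) (.mem (t + 1) 0))
    (fEx (.and (.mem 0 (0 + 1)) (.mem 0 (U + 1 + 1)))))
def fStarSel (S P A w : ℕ) : Fml :=
  .and (.and (fFunOn S w)
    (.all (.all (.all (fImp (.and (fRel (P + 1 + 1 + 1) (0 + 1 + 1) (0 + 1))
      (fRel (S + 1 + 1 + 1) (0 + 1 + 1) 0)) (.mem 0 (0 + 1)))))))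
    (.all (fImp (fOr (.mem 0 (w + 1)) (.mem 0 (A + 1)))
      (fEx (fEx (fEx (.and (.and (fRel (P + 1 + 1 + 1 + 1) (0 + 1 + 1) (0 + 1))
        (fRel (S + 1 + 1 + 1 + 1) (0 + 1 + 1) 0)) (fInStar (0 + 1 + 1 + 1) 0 (0 + 1))))))))
def fStarRoth (A w : ℕ) : Fml :=
  .all (fImp (fCoverSeq 0 (A + 1) (w + 1)) (fEx (fStarSel 0 (0 + 1) (A + 1 + 1) (w + 1 + 1))))
def fConfig : Fml :=
  fEx (fEx (fEx (.and (.and (.and (.and (.and (.and (fOmega (0 + 1 + 1)) (fCard (0 + 1)))
    (fAD 0 (0 + 1 + 1))) (fEx (fBij 0 (0 + 1) (0 + 1 + 1)))) (fCovLe (0 + 1) (0 + 1 + 1)))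
    (fCofEq (0 + 1) (0 + 1 + 1))) (fStarRoth 0 (0 + 1 + 1)))))

section

variable {B : Type} [CompleteBooleanAlgebra B] (v : ℕ → BName B)

theorem val_fSub (x y : ℕ) : val (fSub x y) v = subB (v x) (v y) := by
  simp only [fSub, val_all, val_imp, val_mem, push_zero, push_succ, subB]

theorem val_fUPair (z x y : ℕ) : val (fUPair z x y) v = isUPairB (v z) (v x) (v y) := by
  simp only [fUPair, val_all, val_iff, val_or, val_mem, val_eq, push_zero, push_succ, isUPairB]

theorem val_fOPair (z x y : ℕ) : val (fOPair z x y) v = isOPairB (v z) (v x) (v y) := by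
  simp only [fOPair, val_ex, val_and, val_fUPair, push_zero, push_succ, isOPairB]

theorem val_fEmpty (e : ℕ) : val (fEmpty e) v = isEmptyB (v e) := by
  simp only [fEmpty, val_all, val_neg, val_mem, push_zero, push_succ, isEmptyB]

theorem val_fSucc (s n : ℕ) : val (fSucc s n) v = isSuccB (v s) (v n) := by
  simp only [fSucc, val_all, val_iff, val_or, val_mem, val_eq, push_zero, push_succ, isSuccB]

theorem val_fInductive (x : ℕ) : val (fInductive x) v = isInductiveB (v x) := by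
  simp only [fInductive, val_all, val_ex, val_and, val_imp, val_mem, val_fEmpty, val_fSucc,
    push_zero, push_succ, isInductiveB]

theorem val_fOmega (x : ℕ) : val (fOmega x) v = isOmegaB (v x) := by
  simp only [fOmega, val_all, val_and, val_imp, val_fInductive, val_fSub, push_zero, push_succ,
    isOmegaB]

theorem val_fRel (f x y : ℕ) : val (fRel f x y) v = relB (v f) (v x) (v y) := by
  simp only [fRel, val_ex, val_and, val_fOPair, val_mem, push_zero, push_succ, relB]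

theorem val_fFunOn (f d : ℕ) : val (fFunOn f d) v = isFunOnB (v f) (v d) := by
  simp only [fFunOn, val_all, val_ex, val_and, val_imp, val_fOPair, val_fRel, val_mem, val_eq,
    push_zero, push_succ, isFunOnB]

theorem val_fFunInto (f d r : ℕ) : val (fFunInto f d r) v = isFunIntoB (v f) (v d) (v r) := by
  simp only [fFunInto, val_all, val_and, val_imp, val_fRel, val_fFunOn, val_mem,
    push_zero, push_succ, isFunIntoB]

theorem val_fInj (f d k : ℕ) : val (fInj f d k) v = isInjIntoB (v f) (v d) (v k) := by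
  simp only [fInj, val_all, val_and, val_imp, val_fRel, val_fFunOn, val_mem, val_eq,
    push_zero, push_succ, isInjIntoB]

theorem val_fBij (f d k : ℕ) : val (fBij f d k) v = isBijB (v f) (v d) (v k) := by
  simp only [fBij, val_all, val_ex, val_and, val_imp, val_fRel, val_fInj, val_mem,
    push_zero, push_succ, isBijB]

theorem val_fCardLe (d k : ℕ) : val (fCardLe d k) v = cardLeB (v d) (v k) := by
  simp only [fCardLe, val_ex, val_fInj, push_zero, push_succ, cardLeB]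

theorem val_fTrans (x : ℕ) : val (fTrans x) v = isTransB (v x) := by
  simp only [fTrans, val_all, val_imp, val_mem, val_fSub, push_zero, push_succ, isTransB]

theorem val_fOrd (x : ℕ) : val (fOrd x) v = isOrdB (v x) := by
  simp only [fOrd, val_all, val_and, val_imp, val_mem, val_fTrans, push_zero, push_succ, isOrdB]

theorem val_fCard (x : ℕ) : val (fCard x) v = isCardB (v x) := by
  simp only [fCard, val_all, val_ex, val_neg, val_and, val_imp, val_mem, val_fOrd, val_fBij,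
    push_zero, push_succ, isCardB]

theorem val_fAD (A w : ℕ) : val (fAD A w) v = isADB (v A) (v w) := by
  simp only [fAD, val_all, val_ex, val_neg, val_and, val_imp, val_mem, val_eq, val_fSub,
    push_zero, push_succ, isADB]

theorem val_fCtbl (s w : ℕ) : val (fCtbl s w) v = isCtblB (v s) (v w) := by
  simp only [fCtbl, val_ex, val_fInj, push_zero, push_succ, isCtblB]

theorem val_fCofinal (C κ w : ℕ) : val (fCofinal C κ w) v = isCofinalB (v C) (v κ) (v w) := by
  simp only [fCofinal, val_all, val_ex, val_and, val_imp, val_mem, val_fSub, val_fCtbl,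
    push_zero, push_succ, isCofinalB]

theorem val_fCofEq (κ w : ℕ) : val (fCofEq κ w) v = cofEqB (v κ) (v w) := by
  simp only [fCofEq, val_all, val_ex, val_neg, val_and, val_imp, val_mem, val_fCofinal, val_fBij,
    push_zero, push_succ, cofEqB]

theorem val_fEvDiff (f g w : ℕ) : val (fEvDiff f g w) v = evDiffB (v f) (v g) (v w) := by
  simp only [fEvDiff, val_all, val_ex, val_and, val_imp, val_mem, val_fRel,
    push_zero, push_succ, evDiffB]

theorem val_fUnguessed (F w : ℕ) : val (fUnguessed F w) v = isUnguessedB (v F) (v w) := by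
  simp only [fUnguessed, val_all, val_ex, val_and, val_imp, val_mem, val_fFunInto, val_fEvDiff,
    push_zero, push_succ, isUnguessedB]

theorem val_fCovLe (κ w : ℕ) : val (fCovLe κ w) v = covLeB (v κ) (v w) := by
  simp only [fCovLe, val_ex, val_and, val_fUnguessed, val_fCardLe,
    push_zero, push_succ, covLeB]

theorem val_fOpen (U A w : ℕ) : val (fOpen U A w) v = isOpenB (v U) (v A) (v w) := by
  simp only [fOpen, val_all, val_ex, val_neg, val_and, val_or, val_imp, val_mem,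
    push_zero, push_succ, isOpenB]

theorem val_fCover (c A w : ℕ) : val (fCover c A w) v = isCoverB (v c) (v A) (v w) := by
  simp only [fCover, val_all, val_ex, val_and, val_or, val_imp, val_mem, val_fOpen,
    push_zero, push_succ, isCoverB]

theorem val_fCoverSeq (P A w : ℕ) : val (fCoverSeq P A w) v = isCoverSeqB (v P) (v A) (v w) := by
  simp only [fCoverSeq, val_all, val_and, val_imp, val_fFunOn, val_fRel, val_fCover,
    push_zero, push_succ, isCoverSeqB]

theorem val_fInStar (t U c : ℕ) : val (fInStar t U c) v = inStarB (v t) (v U) (v c) := by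
  simp only [fInStar, val_ex, val_and, val_mem, push_zero, push_succ, inStarB]

theorem val_fStarSel (S P A w : ℕ) :
    val (fStarSel S P A w) v = isStarSelB (v S) (v P) (v A) (v w) := by
  simp only [fStarSel, val_all, val_ex, val_and, val_or, val_imp, val_mem, val_fFunOn, val_fRel,
    val_fInStar, push_zero, push_succ, isStarSelB]

theorem val_fStarRoth (A w : ℕ) : val (fStarRoth A w) v = starRothB (v A) (v w) := by
  simp only [fStarRoth, val_all, val_ex, val_imp, val_fCoverSeq, val_fStarSel,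
    push_zero, push_succ, starRothB]

theorem val_fConfig : val fConfig v = configB B := by
  simp only [fConfig, val_ex, val_and, val_fOmega, val_fCard, val_fAD, val_fBij, val_fCovLe,
    val_fCofEq, val_fStarRoth, push_zero, push_succ, configB]

end

section

variable {M : Type} [Membership M M] (v : ℕ → M)

theorem sat_fSub (x y : ℕ) : Sat (fSub x y) v ↔ SubIn (v x) (v y) := by
  simp only [fSub, sat_all, sat_imp, sat_mem, push_zero, push_succ, SubIn]

theorem sat_fUPair (z x y : ℕ) : Sat (fUPair z x y) v ↔ IsUPairIn (v z) (v x) (v y) := by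
  simp only [fUPair, sat_all, sat_iff, sat_or, sat_mem, sat_eq, push_zero, push_succ, IsUPairIn]

theorem sat_fOPair (z x y : ℕ) : Sat (fOPair z x y) v ↔ IsOPairIn (v z) (v x) (v y) := by
  simp only [fOPair, sat_ex, sat_and, sat_fUPair, push_zero, push_succ, IsOPairIn, and_assoc]

theorem sat_fEmpty (e : ℕ) : Sat (fEmpty e) v ↔ ∀ t : M, t ∉ v e := by
  simp only [fEmpty, sat_all, sat_neg, sat_mem, push_zero, push_succ]

theorem sat_fSucc (s n : ℕ) : Sat (fSucc s n) v ↔ ∀ t : M, t ∈ v s ↔ t ∈ v n ∨ t = v n := by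
  simp only [fSucc, sat_all, sat_iff, sat_or, sat_mem, sat_eq, push_zero, push_succ]

theorem sat_fInductive (x : ℕ) : Sat (fInductive x) v ↔ IsInductiveIn (v x) := by
  simp only [fInductive, sat_all, sat_ex, sat_and, sat_imp, sat_mem, sat_fEmpty, sat_fSucc,
    push_zero, push_succ, IsInductiveIn]

theorem sat_fOmega (x : ℕ) : Sat (fOmega x) v ↔ IsOmegaIn (v x) := by
  simp only [fOmega, sat_all, sat_and, sat_imp, sat_fInductive, sat_fSub, push_zero, push_succ,
    IsOmegaIn]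

theorem sat_fRel (f x y : ℕ) : Sat (fRel f x y) v ↔ RelIn (v f) (v x) (v y) := by
  simp only [fRel, sat_ex, sat_and, sat_fOPair, sat_mem, push_zero, push_succ, RelIn]

theorem sat_fFunOn (f d : ℕ) : Sat (fFunOn f d) v ↔ IsFunOnIn (v f) (v d) := by
  simp only [fFunOn, sat_all, sat_ex, sat_and, sat_imp, sat_fOPair, sat_fRel, sat_mem, sat_eq,
    push_zero, push_succ, IsFunOnIn, and_assoc]

theorem sat_fFunInto (f d r : ℕ) : Sat (fFunInto f d r) v ↔ IsFunIntoIn (v f) (v d) (v r) := by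
  simp only [fFunInto, sat_all, sat_and, sat_imp, sat_fRel, sat_fFunOn, sat_mem,
    push_zero, push_succ, IsFunIntoIn]

theorem sat_fInj (f d k : ℕ) : Sat (fInj f d k) v ↔ IsInjIntoIn (v f) (v d) (v k) := by
  simp only [fInj, sat_all, sat_and, sat_imp, sat_fRel, sat_fFunOn, sat_mem, sat_eq,
    push_zero, push_succ, IsInjIntoIn, and_assoc]

theorem sat_fBij (f d k : ℕ) : Sat (fBij f d k) v ↔ IsBijIn (v f) (v d) (v k) := by
  simp only [fBij, sat_all, sat_ex, sat_and, sat_imp, sat_fRel, sat_fInj, sat_mem,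
    push_zero, push_succ, IsBijIn]

theorem sat_fCardLe (d k : ℕ) : Sat (fCardLe d k) v ↔ CardLeIn (v d) (v k) := by
  simp only [fCardLe, sat_ex, sat_fInj, push_zero, push_succ, CardLeIn]

theorem sat_fTrans (x : ℕ) : Sat (fTrans x) v ↔ IsTransIn (v x) := by
  simp only [fTrans, sat_all, sat_imp, sat_mem, sat_fSub, push_zero, push_succ, IsTransIn]

theorem sat_fOrd (x : ℕ) : Sat (fOrd x) v ↔ IsOrdIn (v x) := by
  simp only [fOrd, sat_all, sat_and, sat_imp, sat_mem, sat_fTrans, push_zero, push_succ, IsOrdIn]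

theorem sat_fCard (x : ℕ) : Sat (fCard x) v ↔ IsCardIn (v x) := by
  simp only [fCard, sat_all, sat_ex, sat_neg, sat_and, sat_imp, sat_mem, sat_fOrd, sat_fBij,
    push_zero, push_succ, IsCardIn]

theorem sat_fAD (A w : ℕ) : Sat (fAD A w) v ↔ IsADIn (v A) (v w) := by
  simp only [fAD, sat_all, sat_ex, sat_neg, sat_and, sat_imp, sat_mem, sat_eq, sat_fSub,
    push_zero, push_succ, IsADIn, ne_eq]

theorem sat_fCtbl (s w : ℕ) : Sat (fCtbl s w) v ↔ IsCtblIn (v s) (v w) := by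
  simp only [fCtbl, sat_ex, sat_fInj, push_zero, push_succ, IsCtblIn]

theorem sat_fCofinal (C κ w : ℕ) : Sat (fCofinal C κ w) v ↔ IsCofinalIn (v C) (v κ) (v w) := by
  simp only [fCofinal, sat_all, sat_ex, sat_and, sat_imp, sat_mem, sat_fSub, sat_fCtbl,
    push_zero, push_succ, IsCofinalIn]

theorem sat_fCofEq (κ w : ℕ) : Sat (fCofEq κ w) v ↔ CofEqIn (v κ) (v w) := by
  simp only [fCofEq, sat_all, sat_ex, sat_neg, sat_and, sat_imp, sat_mem, sat_fCofinal, sat_fBij,
    push_zero, push_succ, CofEqIn]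

theorem sat_fEvDiff (f g w : ℕ) : Sat (fEvDiff f g w) v ↔ EvDiffIn (v f) (v g) (v w) := by
  simp only [fEvDiff, sat_all, sat_ex, sat_and, sat_imp, sat_mem, sat_fRel,
    push_zero, push_succ, EvDiffIn]

theorem sat_fUnguessed (F w : ℕ) : Sat (fUnguessed F w) v ↔ IsUnguessedIn (v F) (v w) := by
  simp only [fUnguessed, sat_all, sat_ex, sat_and, sat_imp, sat_mem, sat_fFunInto, sat_fEvDiff,
    push_zero, push_succ, IsUnguessedIn]

theorem sat_fCovLe (κ w : ℕ) : Sat (fCovLe κ w) v ↔ CovLeIn (v κ) (v w) := by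
  simp only [fCovLe, sat_ex, sat_and, sat_fUnguessed, sat_fCardLe,
    push_zero, push_succ, CovLeIn]

theorem sat_fOpen (U A w : ℕ) : Sat (fOpen U A w) v ↔ IsOpenIn (v U) (v A) (v w) := by
  simp only [fOpen, sat_all, sat_ex, sat_neg, sat_and, sat_or, sat_imp, sat_mem,
    push_zero, push_succ, IsOpenIn]

theorem sat_fCover (c A w : ℕ) : Sat (fCover c A w) v ↔ IsCoverIn (v c) (v A) (v w) := by
  simp only [fCover, sat_all, sat_ex, sat_and, sat_or, sat_imp, sat_mem, sat_fOpen,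
    push_zero, push_succ, IsCoverIn]

theorem sat_fCoverSeq (P A w : ℕ) : Sat (fCoverSeq P A w) v ↔ IsCoverSeqIn (v P) (v A) (v w) := by
  simp only [fCoverSeq, sat_all, sat_and, sat_imp, sat_fFunOn, sat_fRel, sat_fCover,
    push_zero, push_succ, IsCoverSeqIn]

theorem sat_fInStar (t U c : ℕ) : Sat (fInStar t U c) v ↔ InStarIn (v t) (v U) (v c) := by
  simp only [fInStar, sat_ex, sat_and, sat_mem, push_zero, push_succ, InStarIn]

theorem sat_fStarSel (S P A w : ℕ) :
    Sat (fStarSel S P A w) v ↔ IsStarSelIn (v S) (v P) (v A) (v w) := by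
  simp only [fStarSel, sat_all, sat_ex, sat_and, sat_or, sat_imp, sat_mem, sat_fFunOn, sat_fRel,
    sat_fInStar, push_zero, push_succ, IsStarSelIn, and_assoc]

theorem sat_fStarRoth (A w : ℕ) : Sat (fStarRoth A w) v ↔ StarRothIn (v A) (v w) := by
  simp only [fStarRoth, sat_all, sat_ex, sat_imp, sat_fCoverSeq, sat_fStarSel,
    push_zero, push_succ, StarRothIn]

theorem sat_fConfig : Sat fConfig v ↔ ∃ w κ A : M, IsOmegaIn w ∧ IsCardIn κ ∧ IsADIn A w ∧
    (∃ f : M, IsBijIn f A κ) ∧ CovLeIn κ w ∧ CofEqIn κ w ∧ StarRothIn A w := by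
  simp only [fConfig, sat_ex, sat_and, sat_fOmega, sat_fCard, sat_fAD, sat_fBij, sat_fCovLe,
    sat_fCofEq, sat_fStarRoth, push_zero, push_succ, and_assoc]

end

end Pool.Agent.StarRoth.BV
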