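import Pool.Agent.Lib.MP_a1c723_lc.BV.Stmts

/-!
# MP_a1c723_lc: the order type of `W` is a cardinal in the Boolean-valued model
-/

set_option autoImplicit false

namespace Pool.Agent.StarRoth.BV

open Pool.Agent.MPa4e7db

namespace Card

variable {B : Type} [CompleteBooleanAlgebra B] {W : Type} [LinearOrder W] [WellFoundedLT W]

theorem memB_ordN (t : BName B) (w : W) :
    memB t (ordN B w) = ⨆ v : {v : W // v < w}, eqB t (ordN B v.1) := by
  rw [ordN_eq, memB_mk]
  simp only [top_inf_eq]

theorem memB_kapN (t : BName B) : memB t (kapN B W) = ⨆ v : W, eqB t (ordN B v) := by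
  rw [kapN, memB_mk]
  simp only [top_inf_eq]

theorem memB_ordN_lt {v w : W} (h : v < w) : memB (ordN B v) (ordN B w) = ⊤ := by
  rw [memB_ordN, eq_top_iff]
  exact iSup_intro ⟨v, h⟩ (le_eqB_refl _ _)

theorem ordN_mem_kapN (v : W) : memB (ordN B v) (kapN B W) = ⊤ := by
  rw [memB_kapN, eq_top_iff]
  exact iSup_intro v (le_eqB_refl _ _)

theorem memB_ordN_self (w : W) : memB (ordN B w) (ordN B w) = ⊥ := by
  induction w using WellFoundedLT.induction with
  | _ w ih =>
    rw [eq_bot_iff]
    conv_lhs => rw [memB_ordN]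
    refine iSup_le fun i => ?_
    have h1 : eqB (ordN B w) (ordN B i.1) ≤ memB (ordN B i.1) (ordN B w) := by
      rw [memB_ordN_lt i.2]; exact le_top
    have h2 := memB_congr_right (le_refl (eqB (ordN B w) (ordN B i.1))) h1
    rwa [ih i.1 i.2] at h2

theorem eqB_ordN_ne {v w : W} (h : v ≠ w) : eqB (ordN B v) (ordN B w) = ⊥ := by
  rcases lt_or_gt_of_ne h with h | h
  · rw [eq_bot_iff]
    have h1 : eqB (ordN B v) (ordN B w) ≤ memB (ordN B v) (ordN B w) := by
      rw [memB_ordN_lt h]; exact le_top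
    have h2 := memB_congr_right (eqB.symm (le_refl (eqB (ordN B v) (ordN B w)))) h1
    rwa [memB_ordN_self] at h2
  · rw [eq_bot_iff]
    have h1 : eqB (ordN B v) (ordN B w) ≤ memB (ordN B w) (ordN B v) := by
      rw [memB_ordN_lt h]; exact le_top
    have h2 := memB_congr_right (le_refl (eqB (ordN B v) (ordN B w))) h1
    rwa [memB_ordN_self] at h2

theorem subB_ordN_of_mem {p : B} {y : BName B} {w : W} (h : p ≤ memB y (ordN B w)) :
    p ≤ subB y (ordN B w) := by
  refine le_iInf fun z => himp_intro fun q hq hz => ?_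
  rw [memB_ordN] at h
  refine iSup_elim (hq.trans h) fun v r hr hv => ?_
  have h1 := memB_congr_right hv (hr.trans hz)
  rw [memB_ordN] at h1 ⊢
  refine iSup_elim h1 fun u s _ hu => ?_
  exact iSup_intro ⟨u.1, u.2.trans v.2⟩ hu

theorem isTransB_ordN (p : B) (w : W) : p ≤ isTransB (ordN B w) :=
  le_iInf fun _ => himp_intro fun _ _ hy => subB_ordN_of_mem hy

theorem isTransB_kapN (p : B) : p ≤ isTransB (kapN B W) := by
  refine le_iInf fun y => himp_intro fun q _ hy => ?_
  refine le_iInf fun z => himp_intro fun r hr hz => ?_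
  rw [memB_kapN] at hy
  refine iSup_elim (hr.trans hy) fun v s hs hv => ?_
  have h1 := memB_congr_right hv (hs.trans hz)
  rw [memB_ordN] at h1
  rw [memB_kapN]
  refine iSup_elim h1 fun u t _ hu => ?_
  exact iSup_intro u.1 hu

theorem ext_isTransB : Ext (fun x : BName B => isTransB x) := by
  unfold isTransB subB
  exact ext_iInf fun y => ext_himp (ext_memB_right y)
    (ext_iInf fun z => ext_himp (ext_const _) (ext_memB_right z))

theorem isOrdB_kapN (p : B) : p ≤ isOrdB (kapN B W) := by
  refine le_inf (isTransB_kapN p) (le_iInf fun y => himp_intro fun q _ hy => ?_)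
  rw [memB_kapN] at hy
  refine iSup_elim hy fun v r _ hv => ?_
  exact ext_isTransB (eqB.symm hv) (isTransB_ordN r v)

/-- `relB` is extensional in the first coordinate -/
theorem relB_congr_left {p : B} {f x x' y : BName B} (h : p ≤ eqB x x') (h2 : p ≤ relB f x y) :
    p ≤ relB f x' y := by
  rw [relB_eq] at h2 ⊢
  exact memB_congr_left (opair_congr h (le_eqB_refl _ _)) h2

/-- `(x, y) ∈ f` and `f` a function on `d` imply `x ∈ d` -/
theorem mem_dom {p : B} {f d x y : BName B} (hf : p ≤ isFunOnB f d) (h : p ≤ relB f x y) :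
    p ≤ memB x d := by
  have h1 := hf.trans (inf_le_left.trans inf_le_left)
  rw [relB_eq] at h
  have h2 := himp_mp (iInf_mp h1 (opair x y)) h
  refine iSup_elim h2 fun x' q _ hx' => iSup_elim hx' fun y' r _ hy' => ?_
  have h3 := hy'.trans inf_le_right
  rw [isOPairB_eq] at h3
  exact memB_congr_left (eqB.symm (opair_inj_left h3)) (hy'.trans inf_le_left)

/-- a function is single valued -/
theorem fun_unique {p : B} {f d x y y' : BName B} (hf : p ≤ isFunOnB f d) (h : p ≤ relB f x y)
    (h' : p ≤ relB f x y') : p ≤ eqB y y' :=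
  himp_mp (iInf_mp (iInf_mp (iInf_mp (hf.trans inf_le_right) x) y) y') (le_inf h h')

theorem main [Uncountable W] (hW : ∀ w : W, (Set.Iio w).Countable) (F : Facts B W) {s : B}
    {f l : BName B} {v : W} (hl : s ≤ eqB l (ordN B v)) (hs : s ≤ isBijB f l (kapN B W)) :
    s = ⊥ := by
  have hinj := hs.trans inf_le_left
  have hsur := hs.trans inf_le_right
  have hfun : s ≤ isFunOnB f l := hinj.trans (inf_le_left.trans inf_le_left)
  have hcount : ∀ u : W, {a : W | s ⊓ relB f (ordN B u) (ordN B a) ≠ ⊥}.Countable := by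
    intro u
    apply F.ccc
    intro a a' haa
    rw [eq_bot_iff, ← eqB_ordN_ne (B := B) haa]
    exact fun_unique ((inf_le_left.trans inf_le_left).trans hfun)
      (inf_le_left.trans inf_le_right) (inf_le_right.trans inf_le_right)
  have hU : (⋃ u ∈ Set.Iio v, {a : W | s ⊓ relB f (ordN B u) (ordN B a) ≠ ⊥}).Countable :=
    (hW v).biUnion fun u _ => hcount u
  obtain ⟨a, ha⟩ : ∃ a : W, a ∉ ⋃ u ∈ Set.Iio v, {a : W | s ⊓ relB f (ordN B u) (ordN B a) ≠ ⊥} := by
    by_contra hcon
    push Not at hcon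
    exact Set.not_countable_univ (hU.mono fun a _ => hcon a)
  have ha' : ∀ u < v, s ⊓ relB f (ordN B u) (ordN B a) = ⊥ := by
    intro u hu
    by_contra hne
    exact ha (Set.mem_biUnion (show u ∈ Set.Iio v from hu) hne)
  have h1 : s ≤ ⨆ x : BName B, relB f x (ordN B a) := by
    refine himp_mp (iInf_mp hsur (ordN B a)) ?_
    rw [ordN_mem_kapN]; exact le_top
  rw [eq_bot_iff]
  refine iSup_elim h1 fun x q hq hx => ?_
  have h2 : q ≤ memB x l := mem_dom (hq.trans hfun) hx
  have h3 := memB_congr_right (hq.trans hl) h2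
  rw [memB_ordN] at h3
  refine iSup_elim h3 fun u r hr hu => ?_
  rw [← ha' u.1 u.2]
  exact le_inf (hr.trans hq) (relB_congr_left hu (hr.trans hx))

end Card

theorem cardStmt : CardStmt := by
  intro B _ W _ _ _ hW F
  rw [eq_top_iff]
  refine le_inf (Card.isOrdB_kapN _) (le_iInf fun l => himp_intro fun p _ hp => ?_)
  rw [Card.memB_kapN] at hp
  refine iSup_elim hp fun v q _ hq => compl_intro fun r hr hrf => ?_
  rw [eq_bot_iff]
  refine iSup_elim hrf fun f s hs hsf => ?_
  exact (Card.main hW F ((hs.trans hr).trans hq) hsf).le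

end Pool.Agent.StarRoth.BV
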