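import Mathlib
import Pool.Agent.Lib.MP_a1c723_lc.BV.Stmts

/-!
# MP_a1c723_lc, module COF: `cof([ω₁]^ω) = ω₁` in `V^B` for a c.c.c. algebra `B`
-/

set_option autoImplicit false

namespace Pool.Agent.StarRoth.BV

open Pool.Agent.MPa4e7db Pool.Agent.MP_5db68c_lc

namespace Cof

/-! ## Ordinals -/

section Ord

variable {B : Type} [CompleteBooleanAlgebra B] {W : Type} [LinearOrder W] [WellFoundedLT W]

theorem memB_ordN (t : BName B) (w : W) :
    memB t (ordN B w) = ⨆ v : {v : W // v < w}, eqB t (ordN B v.1) := by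
  rw [ordN_eq, memB_mk]
  simp

theorem memB_kapN (t : BName B) : memB t (kapN B W) = ⨆ v : W, eqB t (ordN B v) := by
  rw [kapN, memB_mk]
  simp

theorem ordN_mem_kapN (v : W) : memB (ordN B v) (kapN B W) = ⊤ := by
  rw [memB_kapN, eq_top_iff]
  exact iSup_intro v (le_eqB_refl _ _)

theorem ordN_mem_ordN {v w : W} (h : v < w) : memB (ordN B v) (ordN B w) = ⊤ := by
  rw [memB_ordN, eq_top_iff]
  exact iSup_intro ⟨v, h⟩ (le_eqB_refl _ _)

theorem ordN_self (v : W) : memB (ordN B v) (ordN B v) = ⊥ := by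
  induction v using WellFoundedLT.induction with
  | ind v ih =>
    rw [memB_ordN, eq_bot_iff]
    refine iSup_le fun u => ?_
    rw [← ih u.1 u.2]
    have h1 : eqB (ordN B v) (ordN B u.1) ≤ memB (ordN B u.1) (ordN B v) := by
      rw [ordN_mem_ordN u.2]
      exact le_top
    exact memB_congr_right le_rfl h1

theorem eqB_ordN_lt {v w : W} (h : v < w) : eqB (ordN B v) (ordN B w) = ⊥ := by
  rw [eq_bot_iff, ← ordN_self (B := B) v]
  have h1 : eqB (ordN B v) (ordN B w) ≤ memB (ordN B v) (ordN B w) := by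
    rw [ordN_mem_ordN h]
    exact le_top
  exact memB_congr_right (eqB.symm le_rfl) h1

theorem eqB_ordN_ne {v w : W} (h : v ≠ w) : eqB (ordN B v) (ordN B w) = ⊥ := by
  rcases lt_or_gt_of_ne h with h | h
  · exact eqB_ordN_lt h
  · rw [eqB_symm]
    exact eqB_ordN_lt h

end Ord

/-! ## Relations and graphs -/

section Rel

variable {B : Type} [CompleteBooleanAlgebra B]

theorem relB_congr {p : B} {f x x' y y' : BName B} (h1 : p ≤ eqB x x') (h2 : p ≤ eqB y y')
    (h : p ≤ relB f x y) : p ≤ relB f x' y' := by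
  rw [relB_eq] at h ⊢
  exact memB_congr_left (opair_congr h1 h2) h

theorem relB_graphN {ι : Type} (x y : ι → BName B) (s t : BName B) :
    relB (graphN x y) s t = ⨆ i, eqB s (x i) ⊓ eqB t (y i) := by
  rw [relB_eq, graphN, memB_mk]
  simp only [eqB_opair, top_inf_eq]

theorem isFunOnB_graphN {ι : Type} (x y : ι → BName B) (D : BName B)
    (hx : ∀ i j, i ≠ j → eqB (x i) (x j) = ⊥) (hD : ∀ t, memB t D = ⨆ i, eqB t (x i)) :
    isFunOnB (graphN x y) D = ⊤ := by
  rw [eq_top_iff]
  refine le_inf (le_inf ?_ ?_) ?_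
  · refine le_iInf fun z => himp_intro fun p _ hz => ?_
    rw [graphN, memB_mk] at hz
    refine iSup_elim hz fun i q _ hq => ?_
    refine iSup_intro (x i) (iSup_intro (y i) (le_inf ?_ ?_))
    · rw [hD]
      exact iSup_intro i (le_eqB_refl _ _)
    · rw [isOPairB_eq]
      exact hq.trans inf_le_right
  · refine le_iInf fun s => himp_intro fun p _ hs => ?_
    rw [hD] at hs
    refine iSup_elim hs fun i q _ hq => ?_
    refine iSup_intro (y i) ?_
    rw [relB_graphN]
    exact iSup_intro i (le_inf hq (le_eqB_refl _ _))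
  · refine le_iInf fun s => le_iInf fun t => le_iInf fun t' => himp_intro fun p _ hp => ?_
    have h1 := hp.trans inf_le_left
    have h2 := hp.trans inf_le_right
    rw [relB_graphN] at h1 h2
    refine iSup_elim h1 fun i q hq hqi => ?_
    refine iSup_elim (hq.trans h2) fun j r hr hrj => ?_
    by_cases hij : i = j
    · subst hij
      exact eqB.trans ((hr.trans hqi).trans inf_le_right) (eqB.symm (hrj.trans inf_le_right))
    · have h3 : r ≤ eqB (x i) (x j) :=
        eqB.trans (eqB.symm ((hr.trans hqi).trans inf_le_left)) (hrj.trans inf_le_left)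
      rw [hx i j hij] at h3
      exact h3.trans bot_le

theorem isInjIntoB_graphN {ι : Type} (x y : ι → BName B) (D K : BName B)
    (hx : ∀ i j, i ≠ j → eqB (x i) (x j) = ⊥) (hy : ∀ i j, i ≠ j → eqB (y i) (y j) = ⊥)
    (hD : ∀ t, memB t D = ⨆ i, eqB t (x i)) (hK : ∀ i, memB (y i) K = ⊤) :
    isInjIntoB (graphN x y) D K = ⊤ := by
  rw [eq_top_iff]
  refine le_inf (le_inf ?_ ?_) ?_
  · rw [isFunOnB_graphN x y D hx hD]
  · refine le_iInf fun s => le_iInf fun t => himp_intro fun p _ hp => ?_
    rw [relB_graphN] at hp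
    refine iSup_elim hp fun i q _ hq => ?_
    refine memB_congr_left (eqB.symm (hq.trans inf_le_right)) ?_
    rw [hK]
    exact le_top
  · refine le_iInf fun s => le_iInf fun s' => le_iInf fun t => himp_intro fun p _ hp => ?_
    have h1 := hp.trans inf_le_left
    have h2 := hp.trans inf_le_right
    rw [relB_graphN] at h1 h2
    refine iSup_elim h1 fun i q hq hqi => ?_
    refine iSup_elim (hq.trans h2) fun j r hr hrj => ?_
    by_cases hij : i = j
    · subst hij
      exact eqB.trans ((hr.trans hqi).trans inf_le_left) (eqB.symm (hrj.trans inf_le_left))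
    · have h3 : r ≤ eqB (y i) (y j) :=
        eqB.trans (eqB.symm ((hr.trans hqi).trans inf_le_right)) (hrj.trans inf_le_right)
      rw [hy i j hij] at h3
      exact h3.trans bot_le

theorem isBijB_graphN {ι : Type} (x y : ι → BName B) (D K : BName B)
    (hx : ∀ i j, i ≠ j → eqB (x i) (x j) = ⊥) (hy : ∀ i j, i ≠ j → eqB (y i) (y j) = ⊥)
    (hD : ∀ t, memB t D = ⨆ i, eqB t (x i)) (hK : ∀ t, memB t K = ⨆ i, eqB t (y i)) :
    isBijB (graphN x y) D K = ⊤ := by
  rw [eq_top_iff]
  refine le_inf ?_ ?_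
  · rw [isInjIntoB_graphN x y D K hx hy hD]
    intro i
    rw [hK, eq_top_iff]
    exact iSup_intro i (le_eqB_refl _ _)
  · refine le_iInf fun t => himp_intro fun p _ hp => ?_
    rw [hK] at hp
    refine iSup_elim hp fun i q _ hq => ?_
    refine iSup_intro (x i) ?_
    rw [relB_graphN]
    exact iSup_intro i (le_inf (le_eqB_refl _ _) hq)

/-! ### Elimination of the notions -/

theorem inj_total {p : B} {f d k x : BName B} (h : p ≤ isInjIntoB f d k) (hx : p ≤ memB x d) :
    p ≤ ⨆ y : BName B, relB f x y ⊓ memB y k := by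
  have h1 : p ≤ isFunOnB f d := (h.trans inf_le_left).trans inf_le_left
  have h2 : p ≤ ⨅ x : BName B, memB x d ⇨ ⨆ y : BName B, relB f x y :=
    (h1.trans inf_le_left).trans inf_le_right
  have h3 := himp_mp (iInf_mp h2 x) hx
  refine iSup_elim h3 fun y q hq hqy => iSup_intro y (le_inf hqy ?_)
  have h4 : p ≤ ⨅ x : BName B, ⨅ y : BName B, relB f x y ⇨ memB y k :=
    (h.trans inf_le_left).trans inf_le_right
  exact himp_mp (hq.trans (iInf_mp (iInf_mp h4 x) y)) hqy

theorem inj_inj {p : B} {f d k x x' y : BName B} (h : p ≤ isInjIntoB f d k)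
    (h1 : p ≤ relB f x y) (h2 : p ≤ relB f x' y) : p ≤ eqB x x' := by
  have h3 : p ≤ ⨅ x : BName B, ⨅ x' : BName B, ⨅ y : BName B,
      relB f x y ⊓ relB f x' y ⇨ eqB x x' := h.trans inf_le_right
  exact himp_mp (iInf_mp (iInf_mp (iInf_mp h3 x) x') y) (le_inf h1 h2)

theorem ext_isFunOnB (f : BName B) : Ext (fun d => isFunOnB f d) := by
  refine ext_inf (ext_inf ?_ ?_) (ext_const _)
  · refine ext_iInf fun z => ext_himp (ext_const _) (ext_iSup fun x => ext_iSup fun y => ?_)
    exact ext_inf (ext_memB_right _) (ext_const _)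
  · refine ext_iInf fun x => ext_himp (ext_memB_right _) (ext_const _)

theorem ext_isInjIntoB_dom (f k : BName B) : Ext (fun d => isInjIntoB f d k) :=
  ext_inf (ext_inf (ext_isFunOnB f) (ext_const _)) (ext_const _)

theorem ext_isInjIntoB_ran (f d : BName B) : Ext (fun k => isInjIntoB f d k) := by
  refine ext_inf (ext_inf (ext_const _) ?_) (ext_const _)
  exact ext_iInf fun x => ext_iInf fun y => ext_himp (ext_const _) (ext_memB_right _)

theorem ext_isBijB_ran (f d : BName B) : Ext (fun k => isBijB f d k) := by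
  refine ext_inf (ext_isInjIntoB_ran f d) ?_
  exact ext_iInf fun y => ext_himp (ext_memB_right _) (ext_const _)

theorem ext_isCtblB (w : BName B) : Ext (fun s => isCtblB s w) :=
  ext_iSup fun f => ext_isInjIntoB_dom f w

theorem ext_subB_left (k : BName B) : Ext (fun s => subB s k) :=
  ext_iInf fun z => ext_himp (ext_memB_right _) (ext_const _)

end Rel

/-! ## Antichains -/

section Anti

variable {B : Type} [CompleteBooleanAlgebra B]

theorem exists_max_antichain (T : Set B) :
    ∃ D : Set B, D ⊆ T ∧ (∀ a ∈ D, ∀ b ∈ D, a ≠ b → a ⊓ b = ⊥) ∧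
      ∀ t ∈ T, t ≠ ⊥ → ∃ d ∈ D, d ⊓ t ≠ ⊥ := by
  obtain ⟨D, hD⟩ := zorn_subset
    {D : Set B | D ⊆ T ∧ ∀ a ∈ D, ∀ b ∈ D, a ≠ b → a ⊓ b = ⊥} (by
      intro c hc hchain
      refine ⟨⋃₀ c, ⟨?_, ?_⟩, fun s hs => Set.subset_sUnion_of_mem hs⟩
      · exact Set.sUnion_subset fun s hs => (hc hs).1
      · rintro a ⟨s, hs, ha⟩ b ⟨t, ht, hb⟩ hab
        rcases hchain.total hs ht with h | h
        · exact (hc ht).2 a (h ha) b hb hab
        · exact (hc hs).2 a ha b (h hb) hab)
  refine ⟨D, hD.prop.1, hD.prop.2, fun t ht h0 => ?_⟩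
  by_contra hcon
  push Not at hcon
  have htD : t ∈ D := by
    have h1 : insert t D ∈ {D : Set B | D ⊆ T ∧ ∀ a ∈ D, ∀ b ∈ D, a ≠ b → a ⊓ b = ⊥} := by
      refine ⟨Set.insert_subset ht hD.prop.1, ?_⟩
      rintro a (rfl | ha) b (rfl | hb) hab
      · exact absurd rfl hab
      · rw [inf_comm]
        exact hcon b hb
      · exact hcon a ha
      · exact hD.prop.2 a ha b hb hab
    exact hD.le_of_ge h1 (Set.subset_insert t D) (Set.mem_insert t D)
  have h2 := hcon t htD
  rw [inf_idem] at h2
  exact h0 h2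

end Anti

/-! ## Countable sets in `V^B` -/

section Main

variable {B : Type} [CompleteBooleanAlgebra B] {W : Type} [LinearOrder W] [WellFoundedLT W]

/-- The members of a countable set among the ordinals below `κ` are, below a condition, covered by
a countable set. -/
theorem countable_possible (hF : ∀ (ι : Type) (f : ι → B), (∀ i j, i ≠ j → f i ⊓ f j = ⊥) →
      {i | f i ≠ ⊥}.Countable)
    {p : B} {h s : BName B} (hh : p ≤ isInjIntoB h s omegaN) :
    {a : W | p ⊓ memB (ordN B a) s ≠ ⊥}.Countable := by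
  have h1 : ∀ n : ℕ,
      {a : W | p ⊓ (memB (ordN B a) s ⊓ relB h (ordN B a) (natN n)) ≠ ⊥}.Countable := by
    intro n
    refine hF W _ ?_
    intro a b hab
    rw [eq_bot_iff]
    set q := p ⊓ (memB (ordN B a) s ⊓ relB h (ordN B a) (natN n)) ⊓
      (p ⊓ (memB (ordN B b) s ⊓ relB h (ordN B b) (natN n))) with hq
    have hqp : q ≤ p := inf_le_left.trans inf_le_left
    have h2 : q ≤ relB h (ordN B a) (natN n) :=
      (inf_le_left.trans inf_le_right).trans inf_le_right
    have h3 : q ≤ relB h (ordN B b) (natN n) :=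
      (inf_le_right.trans inf_le_right).trans inf_le_right
    have h4 := inj_inj (hqp.trans hh) h2 h3
    rw [eqB_ordN_ne hab] at h4
    exact h4
  refine (Set.countable_iUnion h1).mono ?_
  intro a ha
  by_contra hcon
  rw [Set.mem_iUnion] at hcon
  push Not at hcon
  apply ha
  rw [eq_bot_iff]
  have h2 : p ⊓ memB (ordN B a) s ≤ ⨆ y : BName B, relB h (ordN B a) y ⊓ memB y omegaN :=
    inj_total (inf_le_left.trans hh) inf_le_right
  refine iSup_elim h2 fun y q hq hqy => ?_
  have h3 : q ≤ memB y omegaN := hqy.trans inf_le_right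
  rw [memB_omegaN] at h3
  refine iSup_elim h3 fun n r hr hrn => ?_
  have h4 : p ⊓ (memB (ordN B a) s ⊓ relB h (ordN B a) (natN n)) = ⊥ := by
    have := hcon n
    simp only [Set.mem_ofPred_eq, not_not] at this
    exact this
  rw [← h4]
  refine le_inf ((hr.trans hq).trans inf_le_left) (le_inf ((hr.trans hq).trans inf_le_right) ?_)
  exact relB_congr (le_eqB_refl _ _) hrn ((hr.trans hqy).trans inf_le_left)

omit [WellFoundedLT W] in
theorem exists_bound [Uncountable W] (hW : ∀ w : W, (Set.Iio w).Countable) {S : Set W}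
    (hS : S.Countable) : ∃ g : W, ∀ v ∈ S, v < g := by
  have h1 : (⋃ v ∈ S, Set.Iic v).Countable := by
    refine hS.biUnion fun v _ => ?_
    rw [← Set.Iio_insert]
    exact (hW v).insert v
  have h2 : (⋃ v ∈ S, Set.Iic v) ≠ Set.univ := by
    intro h
    rw [h] at h1
    exact Set.not_countable_univ h1
  obtain ⟨g, hg⟩ := (Set.ne_univ_iff_exists_notMem _).mp h2
  refine ⟨g, fun v hv => ?_⟩
  by_contra hcon
  exact hg (Set.mem_biUnion hv (not_lt.mp hcon))

theorem ctbl_ordN (hW : ∀ w : W, (Set.Iio w).Countable) (v : W) :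
    isCtblB (ordN B v) omegaN = ⊤ := by
  have : Countable {u : W // u < v} := (hW v).to_subtype
  obtain ⟨e, he⟩ := exists_injective_nat {u : W // u < v}
  rw [eq_top_iff]
  refine iSup_intro (graphN (fun u : {u : W // u < v} => ordN B u.1) (fun u => natN (e u))) ?_
  rw [isInjIntoB_graphN]
  · intro i j hij
    exact eqB_ordN_ne fun h => hij (Subtype.ext h)
  · intro i j hij
    exact eqB_natN_ne fun h => hij (he h)
  · intro t
    exact memB_ordN t v
  · intro i
    exact natN_mem_omegaN _

theorem sub_ordN_kapN (v : W) : subB (ordN B v) (kapN B W) = ⊤ := by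
  rw [eq_top_iff]
  refine le_iInf fun z => himp_intro fun p _ hp => ?_
  rw [memB_ordN] at hp
  rw [memB_kapN]
  exact iSup_elim hp fun u q _ hq => iSup_intro u.1 hq

theorem isCofinalB_kapN [Uncountable W] (hW : ∀ w : W, (Set.Iio w).Countable)
    (hF : ∀ (ι : Type) (f : ι → B), (∀ i j, i ≠ j → f i ⊓ f j = ⊥) → {i | f i ≠ ⊥}.Countable) :
    isCofinalB (kapN B W) (kapN B W) omegaN = ⊤ := by
  rw [eq_top_iff]
  refine le_inf ?_ ?_
  · refine le_iInf fun c => himp_intro fun p _ hp => ?_
    rw [memB_kapN] at hp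
    refine iSup_elim hp fun v q _ hq => ?_
    refine (ext_inf (ext_subB_left _) (ext_isCtblB _)) (eqB.symm hq) ?_
    show q ≤ subB (ordN B v) (kapN B W) ⊓ isCtblB (ordN B v) omegaN
    rw [sub_ordN_kapN, ctbl_ordN hW]
    simp
  · refine le_iInf fun s => himp_intro fun p _ hp => ?_
    refine iSup_elim (hp.trans inf_le_right) fun f q hq hqf => ?_
    obtain ⟨g, hg⟩ := exists_bound hW (countable_possible (W := W) hF hqf)
    refine iSup_intro (ordN B g) (le_inf ?_ ?_)
    · rw [ordN_mem_kapN]
      exact le_top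
    · refine le_iInf fun z => himp_intro fun r hr hrz => ?_
      have h1 : q ≤ subB s (kapN B W) := hq.trans (hp.trans inf_le_left)
      have h2 : r ≤ memB z (kapN B W) := himp_mp (hr.trans (iInf_mp h1 z)) hrz
      rw [memB_kapN] at h2
      refine iSup_elim h2 fun v t ht htv => ?_
      by_cases hv : v < g
      · refine memB_congr_left (eqB.symm htv) ?_
        rw [ordN_mem_ordN hv]
        exact le_top
      · have h3 : q ⊓ memB (ordN B v) s = ⊥ := by
          by_contra hcon
          exact hv (hg v hcon)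
        have h4 : t ≤ q ⊓ memB (ordN B v) s :=
          le_inf (ht.trans hr) (memB_congr_left htv (ht.trans hrz))
        rw [h3] at h4
        exact h4.trans bot_le

/-- No cofinal family is in bijection with an ordinal below `κ`. -/
theorem no_small [Uncountable W] (hW : ∀ w : W, (Set.Iio w).Countable)
    (hF : ∀ (ι : Type) (f : ι → B), (∀ i j, i ≠ j → f i ⊓ f j = ⊥) → {i | f i ≠ ⊥}.Countable)
    {p : B} {C f : BName B} {v : W} (hC : p ≤ isCofinalB C (kapN B W) omegaN)
    (hf : p ≤ isInjIntoB f C (ordN B v)) : p = ⊥ := by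
  -- for each `u < v` only countably many ordinals can be in the member of `C` with index `u`
  have hu : ∀ u : W, {a : W | ∃ c : BName B,
      p ⊓ (memB c C ⊓ relB f c (ordN B u) ⊓ memB (ordN B a) c) ≠ ⊥}.Countable := by
    intro u
    obtain ⟨D, hDT, hDd, hDm⟩ := exists_max_antichain
      {b : B | ∃ c h : BName B,
        b ≤ p ⊓ (memB c C ⊓ relB f c (ordN B u)) ⊓ isInjIntoB h c omegaN}
    have hDc : {i : D | (i : B) ≠ ⊥}.Countable := by
      refine hF D (fun i => (i : B)) ?_
      intro i j hij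
      exact hDd i i.2 j j.2 fun h => hij (Subtype.ext h)
    have hch : ∀ i : D, ∃ c h : BName B,
        (i : B) ≤ p ⊓ (memB c C ⊓ relB f c (ordN B u)) ⊓ isInjIntoB h c omegaN :=
      fun i => hDT i.2
    choose cc hh hch using hch
    have hS : (⋃ i ∈ {i : D | (i : B) ≠ ⊥},
        {a : W | (i : B) ⊓ memB (ordN B a) (cc i) ≠ ⊥}).Countable := by
      refine hDc.biUnion fun i _ => ?_
      exact countable_possible hF ((hch i).trans inf_le_right)
    refine hS.mono ?_
    rintro a ⟨c, hc⟩
    -- choose an injection of `c` into `ω`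
    set b := p ⊓ (memB c C ⊓ relB f c (ordN B u) ⊓ memB (ordN B a) c) with hb
    have hbp : b ≤ p := inf_le_left
    have hbC : b ≤ memB c C := ((inf_le_right.trans inf_le_left).trans inf_le_left)
    have hbf : b ≤ relB f c (ordN B u) := ((inf_le_right.trans inf_le_left).trans inf_le_right)
    have hba : b ≤ memB (ordN B a) c := inf_le_right.trans inf_le_right
    have h1 : b ≤ isCtblB c omegaN := by
      have h2 : b ≤ ⨅ c : BName B, memB c C ⇨ subB c (kapN B W) ⊓ isCtblB c omegaN :=
        (hbp.trans hC).trans inf_le_left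
      exact (himp_mp (iInf_mp h2 c) hbC).trans inf_le_right
    have h2 : ∃ h : BName B, b ⊓ isInjIntoB h c omegaN ≠ ⊥ := by
      by_contra hcon
      push Not at hcon
      apply hc
      rw [eq_bot_iff]
      refine iSup_elim h1 fun h q hq hqh => ?_
      rw [← hcon h]
      exact le_inf hq hqh
    obtain ⟨h, hh0⟩ := h2
    obtain ⟨d, hd, hdb⟩ := hDm (b ⊓ isInjIntoB h c omegaN)
      ⟨c, h, le_inf (le_inf (inf_le_left.trans hbp)
        (le_inf (inf_le_left.trans hbC) (inf_le_left.trans hbf))) inf_le_right⟩ hh0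
    have hd0 : d ≠ ⊥ := by
      rintro rfl
      simp at hdb
    refine Set.mem_biUnion (x := (⟨d, hd⟩ : D)) hd0 ?_
    show d ⊓ memB (ordN B a) (cc ⟨d, hd⟩) ≠ ⊥
    intro hcon
    apply hdb
    rw [eq_bot_iff, ← hcon]
    set e := d ⊓ (b ⊓ isInjIntoB h c omegaN) with he
    have hed : e ≤ d := inf_le_left
    have heb : e ≤ b := inf_le_right.trans inf_le_left
    refine le_inf hed ?_
    have h3 : e ≤ eqB c (cc ⟨d, hd⟩) := by
      refine inj_inj ((heb.trans hbp).trans hf) (heb.trans hbf) ?_
      exact ((hed.trans (hch ⟨d, hd⟩)).trans inf_le_left).trans (inf_le_right.trans inf_le_right)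
    exact memB_congr_right h3 (heb.trans hba)
  have hS : (⋃ u ∈ Set.Iio v, {a : W | ∃ c : BName B,
      p ⊓ (memB c C ⊓ relB f c (ordN B u) ⊓ memB (ordN B a) c) ≠ ⊥}).Countable :=
    (hW v).biUnion fun u _ => hu u
  obtain ⟨a, ha⟩ := exists_bound hW hS
  have ha' : ∀ u, u < v → ∀ c : BName B,
      p ⊓ (memB c C ⊓ relB f c (ordN B u) ⊓ memB (ordN B a) c) = ⊥ := by
    intro u hu c
    by_contra hcon
    exact lt_irrefl a (ha a (Set.mem_biUnion (x := u) hu ⟨c, hcon⟩))
  -- the singleton of `a`
  have hsub : p ≤ subB (upair (ordN B a) (ordN B a)) (kapN B W) := by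
    refine le_iInf fun z => himp_intro fun q _ hq => ?_
    rw [memB_upair, sup_idem] at hq
    refine memB_congr_left (eqB.symm hq) ?_
    rw [ordN_mem_kapN]
    exact le_top
  have hct : p ≤ isCtblB (upair (ordN B a) (ordN B a)) omegaN := by
    refine iSup_intro (graphN (fun _ : Unit => ordN B a) (fun _ => natN 0)) ?_
    rw [isInjIntoB_graphN]
    · exact le_top
    · intro i j hij
      exact absurd (Subsingleton.elim i j) hij
    · intro i j hij
      exact absurd (Subsingleton.elim i j) hij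
    · intro t
      rw [memB_upair, sup_idem]
      simp
    · intro i
      exact natN_mem_omegaN _
  have h1 : p ≤ ⨆ c : BName B, memB c C ⊓ subB (upair (ordN B a) (ordN B a)) c := by
    have h2 : p ≤ ⨅ s : BName B, subB s (kapN B W) ⊓ isCtblB s omegaN ⇨
        ⨆ c : BName B, memB c C ⊓ subB s c := hC.trans inf_le_right
    exact himp_mp (iInf_mp h2 _) (le_inf hsub hct)
  rw [eq_bot_iff]
  refine iSup_elim h1 fun c q hq hqc => ?_
  have hqC : q ≤ memB c C := hqc.trans inf_le_left
  have hqa : q ≤ memB (ordN B a) c := by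
    refine himp_mp (iInf_mp (hqc.trans inf_le_right) (ordN B a)) ?_
    rw [memB_upair]
    exact (le_eqB_refl _ _).trans le_sup_left
  refine iSup_elim (inj_total (hq.trans hf) hqC) fun y r hr hry => ?_
  have hy : r ≤ memB y (ordN B v) := hry.trans inf_le_right
  rw [memB_ordN] at hy
  refine iSup_elim hy fun u t ht htu => ?_
  rw [← ha' u.1 u.2 c]
  refine le_inf ((ht.trans hr).trans hq) (le_inf (le_inf ((ht.trans hr).trans hqC) ?_)
    ((ht.trans hr).trans hqa))
  exact relB_congr (le_eqB_refl _ _) htu ((ht.trans hry).trans inf_le_left)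

end Main

end Cof

open Cof in
theorem cofStmt : CofStmt := by
  intro B _ W _ _ _ hW hB
  have hF := hB.ccc
  rw [cofEqB, eq_top_iff]
  refine le_inf ?_ ?_
  · refine iSup_intro (kapN B W) (le_inf ?_ ?_)
    · rw [isCofinalB_kapN hW hF]
    · refine iSup_intro (graphN (fun v : W => ordN B v) (fun v : W => ordN B v)) ?_
      rw [isBijB_graphN]
      · intro i j hij
        exact eqB_ordN_ne hij
      · intro i j hij
        exact eqB_ordN_ne hij
      · intro t
        exact memB_kapN t
      · intro t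
        exact memB_kapN t
  · refine le_iInf fun C => himp_intro fun p _ hp => le_iInf fun l => himp_intro fun q hq hql => ?_
    refine compl_intro fun r hr hrf => ?_
    rw [← le_bot_iff]
    refine iSup_elim hrf fun f s hs hsf => ?_
    rw [memB_kapN] at hql
    refine iSup_elim ((hs.trans hr).trans hql) fun v t ht htv => ?_
    have h1 : t ≤ isBijB f C (ordN B v) := ext_isBijB_ran f C htv (ht.trans hsf)
    exact (no_small hW hF ((((ht.trans hs).trans hr).trans hq).trans hp)
      (h1.trans inf_le_left)).le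

end Pool.Agent.StarRoth.BV
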