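import Pool.Agent.Lib.MP_a1c723_lc.BV.Star
import Pool.Agent.Lib.MP_a1c723_lc.BV.Formula
import Pool.Agent.Lib.MP_a1c723_lc.Converse

/-!
# MP_a1c723_lc: assembly of the modules
-/

set_option autoImplicit false

namespace Pool.Agent.StarRoth.BV

open Pool.Agent.MPa4e7db Pool.Agent.MP_5db68c_lc

/-- The configuration has Boolean value `⊤` as soon as the Boolean facts hold. -/
theorem configB_eq_top (hCard : CardStmt) (hCof : CofStmt) (hCov : CovStmt) (hFam : FamStmt)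
    {B : Type} [CompleteBooleanAlgebra B] (F : Facts B W1) : configB B = ⊤ := by
  have hA1 : ∀ w, (luz W1 w).Infinite := fun w => luz_infinite W1_Iio w
  have hA2 : ∀ v w, v ≠ w → (luz W1 v ∩ luz W1 w).Finite := fun v w h => luz_ad W1_Iio h
  have hA3 : ∀ w (k : ℕ), {v | v < w ∧ luz W1 w ∩ luz W1 v ⊆ Set.Iio k}.Finite :=
    fun w k => luz_luzin W1_Iio w k
  obtain ⟨h1, h2⟩ := hFam (B := B) (luz W1) hA1 hA2
  rw [eq_top_iff, configB]
  refine iSup_intro omegaN (iSup_intro (kapN B W1) (iSup_intro (famN B (luz W1)) ?_))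
  refine le_inf (le_inf (le_inf (le_inf (le_inf (le_inf ?_ ?_) ?_) ?_) ?_) ?_) ?_
  · rw [isOmegaB_eq]
    exact le_eqB_refl _ _
  · rw [hCard W1_Iio F]
  · rw [h1]
  · rw [h2]
  · rw [hCov F]
  · rw [hCof W1_Iio F]
  · rw [starStmt W1_Iio F (luz W1) hA3]

/-- The consistency theorem from the modules. -/
theorem consistency (hFacts : FactsStmt) (hAlg : AlgStmt) (hCCC : CCCStmt) (hDom : DomStmt)
    (hRan : RanStmt) (hModel : ModelStmt) (hCard : CardStmt) (hCof : CofStmt) (hCov : CovStmt)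
    (hFam : FamStmt) :
    ∃ (M : Type) (_ : Membership M M), ModelZFC M ∧ ∃ w κ A : M, IsOmegaIn w ∧ IsCardIn κ ∧
      IsADIn A w ∧ (∃ f : M, IsBijIn f A κ) ∧ CovLeIn κ w ∧ CofEqIn κ w ∧ StarRothIn A w := by
  obtain ⟨B, _, F⟩ := hFacts hAlg hCCC hDom hRan W1
  obtain ⟨M, _, hM, hval⟩ := hModel B F.nontriv
  refine ⟨M, _, hM, ?_⟩
  have h1 := hval fConfig fun v => by rw [val_fConfig, configB_eq_top hCard hCof hCov hFam F]
  obtain ⟨e, -⟩ := hM.infinity
  exact (sat_fConfig fun _ => e).1 (h1 _)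

end Pool.Agent.StarRoth.BV
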