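import Pool.Agent.Lib.MP_a1c723_lc.BV.Graph

/-!
# MP_a1c723_lc: `cov(M) ≤ κ` in the Boolean-valued model
-/

set_option autoImplicit false

namespace Pool.Agent.StarRoth.BV

open Pool.Agent.MPa4e7db

namespace Cov

variable {B : Type} [CompleteBooleanAlgebra B] {W : Type}

theorem relB_funN (r : ℕ → ℕ → B) (x y : BName B) :
    relB (funN r) x y =
      ⨆ i : ℕ × ℕ, r i.1 i.2 ⊓ (eqB x (natN i.1) ⊓ eqB y (natN i.2)) := by
  rw [relB_eq, funN, memB_mk]
  simp only [eqB_opair]

theorem le_relB_funN (r : ℕ → ℕ → B) (n k : ℕ) : r n k ≤ relB (funN r) (natN n) (natN k) := by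
  rw [relB_funN]
  exact iSup_intro (n, k) (le_inf le_rfl (le_inf (le_eqB_refl _ _) (le_eqB_refl _ _)))

theorem ext_relB (x y : BName B) : Ext (fun f : BName B => relB f x y) := by
  unfold relB
  exact ext_iSup fun z => ext_inf (ext_const _) (ext_memB_right z)

theorem ext_isFunIntoB (d r : BName B) : Ext (fun f : BName B => isFunIntoB f d r) := by
  unfold isFunIntoB isFunOnB
  refine ext_inf (ext_inf (ext_inf ?_ ?_) ?_) ?_
  · exact ext_iInf fun z => ext_himp (ext_memB_right z) (ext_const _)
  · exact ext_iInf fun x => ext_himp (ext_const _) (ext_iSup fun y => ext_relB x y)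
  · exact ext_iInf fun x => ext_iInf fun y => ext_iInf fun y' =>
      ext_himp (ext_inf (ext_relB x y) (ext_relB x y')) (ext_const _)
  · exact ext_iInf fun x => ext_iInf fun y => ext_himp (ext_relB x y) (ext_const _)

theorem isFunIntoB_funN {r : ℕ → ℕ → B} (hr : ∀ n k l, k ≠ l → r n k ⊓ r n l = ⊥)
    (ht : ∀ n, ⨆ k, r n k = ⊤) (p : B) : p ≤ isFunIntoB (funN r) omegaN omegaN := by
  refine le_inf (le_inf (le_inf ?_ ?_) ?_) ?_
  · refine le_iInf fun z => himp_intro fun q _ hz => ?_
    rw [funN, memB_mk] at hz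
    refine iSup_elim hz fun i s _ hi => ?_
    refine iSup_intro (natN i.1) (iSup_intro (natN i.2) (le_inf ?_ ?_))
    · rw [natN_mem_omegaN]; exact le_top
    · rw [isOPairB_eq]; exact hi.trans inf_le_right
  · refine le_iInf fun x => himp_intro fun q _ hx => ?_
    rw [memB_omegaN] at hx
    refine iSup_elim hx fun n s _ hn => ?_
    have h1 : s ≤ ⨆ k, r n k := by rw [ht]; exact le_top
    refine iSup_elim h1 fun k u hu hk => ?_
    refine iSup_intro (natN k) ?_
    exact Card.relB_congr_left (eqB.symm (hu.trans hn)) (hk.trans (le_relB_funN r n k))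
  · refine le_iInf fun x => le_iInf fun y => le_iInf fun y' => himp_intro fun q _ h => ?_
    rw [relB_funN, relB_funN] at h
    refine iSup_elim (h.trans inf_le_left) fun i s hs hi => ?_
    refine iSup_elim (hs.trans (h.trans inf_le_right)) fun j u hu hj => ?_
    refine Graph.eq_elim (x := fun n : ℕ => (natN n : BName B)) (fun a b hab => eqB_natN_ne hab)
      (s := x) (i := i.1) (j := j.1) ((hu.trans hi).trans (inf_le_right.trans inf_le_left))
      (hj.trans (inf_le_right.trans inf_le_left)) fun hij => ?_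
    by_cases hk : i.2 = j.2
    · have h1 : u ≤ eqB y (natN i.2) := (hu.trans hi).trans (inf_le_right.trans inf_le_right)
      have h2 : u ≤ eqB y' (natN j.2) := hj.trans (inf_le_right.trans inf_le_right)
      rw [← hk] at h2
      exact eqB.trans h1 (eqB.symm h2)
    · have h1 : u ≤ r i.1 i.2 := (hu.trans hi).trans inf_le_left
      have h2 : u ≤ r j.1 j.2 := hj.trans inf_le_left
      rw [← hij] at h2
      have h3 : u ≤ r i.1 i.2 ⊓ r i.1 j.2 := le_inf h1 h2
      rw [hr _ _ _ hk] at h3
      exact h3.trans bot_le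
  · refine le_iInf fun x => le_iInf fun y => himp_intro fun q _ h => ?_
    rw [relB_funN] at h
    refine iSup_elim h fun i s _ hi => ?_
    rw [memB_omegaN]
    exact iSup_intro i.2 (hi.trans (inf_le_right.trans inf_le_right))

end Cov

theorem covStmt : CovStmt := by
  intro B _ W _ _ F
  obtain ⟨r, hr, ht, hd, hg⟩ := F.ran
  rw [eq_top_iff]
  refine iSup_intro (BName.mk W (fun w => funN (r w)) (fun _ => ⊤)) (le_inf (le_inf ?_ ?_) ?_)
  · refine le_iInf fun f => himp_intro fun p _ hf => ?_
    rw [Graph.memB_mkTop] at hf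
    refine iSup_elim hf fun w q _ hw => ?_
    exact Cov.ext_isFunIntoB _ _ (eqB.symm hw) (Cov.isFunIntoB_funN (hr w) (ht w) q)
  · refine le_iInf fun g => himp_intro fun p _ hp => ?_
    have hpf : p ≤ isFunOnB g omegaN := hp.trans inf_le_left
    obtain ⟨w, hw⟩ := hg (fun n k => p ⊓ relB g (natN n) (natN k)) (by
      intro n k l hkl
      rw [eq_bot_iff, ← eqB_natN_ne (B := B) hkl]
      exact Card.fun_unique ((inf_le_left.trans inf_le_left).trans hpf)
        (inf_le_left.trans inf_le_right) (inf_le_right.trans inf_le_right))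
    refine iSup_intro (funN (r w)) (le_inf ?_ ?_)
    · rw [Graph.mem_mkTop (fun w => funN (r w)) w]; exact le_top
    · have h1 : p ≤ ⨆ n₀ : ℕ, ⨅ n : ℕ, ⨅ (_ : n₀ ≤ n), ⨅ k : ℕ,
          (r w n k ⊓ (p ⊓ relB g (natN n) (natN k)))ᶜ := by rw [hw]; exact le_top
      refine iSup_elim h1 fun n₀ q hq hn => ?_
      refine iSup_intro (natN n₀) (le_inf ?_ ?_)
      · rw [natN_mem_omegaN]; exact le_top
      · refine le_iInf fun m => le_iInf fun k => himp_intro fun s hs h => ?_
        have h2 := h.trans (inf_le_left.trans inf_le_right)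
        have h3 := h.trans inf_le_right
        rw [Cov.relB_funN] at h2
        refine iSup_elim h2 fun i u hu hi => ?_
        have hi1 : u ≤ eqB m (natN i.1) := hi.trans (inf_le_right.trans inf_le_left)
        have hi2 : u ≤ eqB k (natN i.2) := hi.trans (inf_le_right.trans inf_le_right)
        rcases lt_or_ge i.1 n₀ with hlt | hge
        · refine memB_congr_left (eqB.symm hi1) ?_
          rw [memB_natN_lt hlt]; exact le_top
        · have h4 : u ≤ relB g (natN i.1) (natN i.2) := by
            have h5 := hu.trans h3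
            rw [relB_eq] at h5 ⊢
            exact memB_congr_left (opair_congr hi1 hi2) h5
          have h5 : u ≤ (r w i.1 i.2 ⊓ (p ⊓ relB g (natN i.1) (natN i.2)))ᶜ :=
            (hu.trans (hs.trans hn)).trans
              ((iInf_le _ i.1).trans ((iInf_le _ hge).trans (iInf_le _ i.2)))
          exact compl_mp h5 (le_inf (hi.trans inf_le_left)
            (le_inf (hu.trans (hs.trans hq)) h4))
  · refine iSup_intro (graphN (fun w => funN (r w)) (ordN B)) ?_
    refine (Graph.isBijB_graphN (fun v w hvw => ?_) (fun v w hvw => Card.eqB_ordN_ne hvw) ⊤).trans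
      inf_le_left
    rw [eq_bot_iff]
    have h1 : eqB (funN (r v)) (funN (r w)) ≤
        ⨆ n : ℕ, ⨆ k : ℕ, ⨆ l : ℕ, ⨆ (_ : k ≠ l), r v n k ⊓ r w n l := by
      rw [hd v w hvw]; exact le_top
    refine iSup_elim h1 fun n p hp h2 => iSup_elim h2 fun k q hq h3 =>
      iSup_elim h3 fun l s hs h4 => iSup_elim h4 fun hkl u hu h5 => ?_
    have h6 : u ≤ eqB (funN (r v)) (funN (r w)) := hu.trans (hs.trans (hq.trans hp))
    have h7 : u ≤ relB (funN (r w)) (natN n) (natN k) :=
      Cov.ext_relB _ _ h6 ((h5.trans inf_le_left).trans (Cov.le_relB_funN (r v) n k))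
    have h8 : u ≤ relB (funN (r w)) (natN n) (natN l) :=
      (h5.trans inf_le_right).trans (Cov.le_relB_funN (r w) n l)
    have h9 : u ≤ isFunOnB (funN (r w)) omegaN :=
      (Cov.isFunIntoB_funN (hr w) (ht w) u).trans inf_le_left
    have h10 := Card.fun_unique h9 h7 h8
    rwa [eqB_natN_ne hkl] at h10

end Pool.Agent.StarRoth.BV
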