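import Pool.Agent.Lib.MP_a1c723_lc.BV.Graph

/-!
# MP_a1c723_lc: the ground model family is almost disjoint of the size of `W`
-/

set_option autoImplicit false

namespace Pool.Agent.StarRoth.BV

open Pool.Agent.MPa4e7db

namespace FamN

variable {B : Type} [CompleteBooleanAlgebra B] {W : Type}

theorem memB_natSetN (t : BName B) (s : Set ℕ) :
    memB t (natSetN B s) = ⨆ n : s, eqB t (natN n.1) := by
  rw [natSetN, memB_mk]
  simp only [top_inf_eq]

theorem mem_natSetN {s : Set ℕ} {n : ℕ} (h : n ∈ s) : memB (natN n) (natSetN B s) = ⊤ := by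
  rw [memB_natSetN, eq_top_iff]
  exact iSup_intro ⟨n, h⟩ (le_eqB_refl _ _)

theorem notMem_natSetN {s : Set ℕ} {n : ℕ} (h : n ∉ s) : memB (natN n) (natSetN B s) = ⊥ := by
  rw [memB_natSetN, eq_bot_iff]
  refine iSup_le fun i => ?_
  have h1 : n ≠ i.1 := fun h2 => h (h2 ▸ i.2)
  rw [eqB_natN_ne h1]

theorem eqB_natSetN_ne {s t : Set ℕ} (h : s ≠ t) : eqB (natSetN B s) (natSetN B t) = ⊥ := by
  have key : ∀ {s t : Set ℕ} {n : ℕ}, n ∈ s → n ∉ t → eqB (natSetN B s) (natSetN B t) = ⊥ := by
    intro s t n hs ht
    rw [eq_bot_iff, ← notMem_natSetN (B := B) ht]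
    refine memB_congr_right le_rfl ?_
    rw [mem_natSetN hs]; exact le_top
  by_contra hne
  apply h
  ext n
  constructor
  · intro hn
    by_contra hn'
    exact hne (key hn hn')
  · intro hn
    by_contra hn'
    rw [eqB_symm] at hne
    exact hne (key hn hn')

theorem memB_natN_ge {m k : ℕ} (h : k ≤ m) : memB (natN m : BName B) (natN k) = ⊥ := by
  rw [memB_natN, eq_bot_iff]
  refine iSup_le fun i => ?_
  have h1 : m ≠ i.1 := by have := i.2; omega
  rw [eqB_natN_ne h1]

theorem memB_famN (t : BName B) (A : W → Set ℕ) :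
    memB t (famN B A) = ⨆ w : W, eqB t (natSetN B (A w)) :=
  Graph.memB_mkTop t _

theorem isADB_famN (A : W → Set ℕ) (hinf : ∀ w, (A w).Infinite)
    (had : ∀ v w, v ≠ w → (A v ∩ A w).Finite) (p : B) : p ≤ isADB (famN B A) omegaN := by
  refine le_inf ?_ ?_
  · refine le_iInf fun a => himp_intro fun q _ ha => ?_
    rw [memB_famN] at ha
    refine iSup_elim ha fun w r _ hw => ?_
    refine le_inf ?_ ?_
    · refine le_iInf fun z => himp_intro fun s hs hz => ?_
      have h1 := memB_congr_right (hs.trans hw) hz
      rw [memB_natSetN] at h1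
      rw [memB_omegaN]
      refine iSup_elim h1 fun n u _ hu => ?_
      exact iSup_intro n.1 hu
    · refine le_iInf fun n => himp_intro fun s hs hn => ?_
      rw [memB_omegaN] at hn
      refine iSup_elim hn fun k u hu hk => ?_
      obtain ⟨m, hm, hmk⟩ := (hinf w).exists_gt k
      refine iSup_intro (natN m) (le_inf ?_ ?_)
      · refine memB_congr_right (eqB.symm ((hu.trans hs).trans hw)) ?_
        rw [mem_natSetN hm]; exact le_top
      · refine compl_intro fun v hv hvm => ?_
        have h1 := memB_congr_right (hv.trans hk) hvm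
        rw [memB_natN_ge hmk.le] at h1
        exact eq_bot_iff.mpr h1
  · refine le_iInf fun a => le_iInf fun b => himp_intro fun q _ h => ?_
    have ha := h.trans (inf_le_left.trans inf_le_left)
    have hb := h.trans (inf_le_left.trans inf_le_right)
    have hne := h.trans inf_le_right
    rw [memB_famN] at ha hb
    refine iSup_elim ha fun v r hr hv => ?_
    refine iSup_elim (hr.trans hb) fun w s hs hw => ?_
    by_cases hvw : v = w
    · subst hvw
      exact compl_mp ((hs.trans hr).trans hne) (eqB.trans (hs.trans hv) (eqB.symm hw))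
    · obtain ⟨k, hk⟩ := (had v w hvw).bddAbove
      refine iSup_intro (natN (k + 1)) (le_inf ?_ ?_)
      · rw [natN_mem_omegaN]; exact le_top
      · refine le_iInf fun m => himp_intro fun u hu hm => ?_
        have h1 := memB_congr_right ((hu.trans hs).trans hv) (hm.trans inf_le_left)
        have h2 := memB_congr_right (hu.trans hw) (hm.trans inf_le_right)
        rw [memB_natSetN] at h1
        refine iSup_elim h1 fun i x hx hi => ?_
        by_cases hiw : i.1 ∈ A w
        · refine memB_congr_left (eqB.symm hi) ?_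
          have h3 : i.1 ≤ k := hk ⟨i.2, hiw⟩
          rw [memB_natN_lt (by omega)]; exact le_top
        · have h3 := memB_congr_left hi (hx.trans h2)
          rw [notMem_natSetN hiw] at h3
          exact h3.trans bot_le

end FamN

theorem famStmt : FamStmt := by
  intro B _ W _ _ A hinf had
  refine ⟨eq_top_iff.mpr (FamN.isADB_famN A hinf had _), eq_top_iff.mpr ?_⟩
  refine iSup_intro (graphN (fun w => natSetN B (A w)) (ordN B)) ?_
  refine Graph.isBijB_graphN (fun v w hvw => FamN.eqB_natSetN_ne fun h => ?_)
    (fun v w hvw => Card.eqB_ordN_ne hvw) _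
  have h1 := had v w hvw
  rw [h, Set.inter_self] at h1
  exact hinf w h1

end Pool.Agent.StarRoth.BV
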