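import Pool.Agent.Lib.MP_a1c723_lc.BV.Card

/-!
# MP_a1c723_lc: names of bijections between indexed families of pairwise different names
-/

set_option autoImplicit false

namespace Pool.Agent.StarRoth.BV

open Pool.Agent.MPa4e7db

namespace Graph

variable {B : Type} [CompleteBooleanAlgebra B] {ι : Type}

theorem memB_mkTop (t : BName B) (x : ι → BName B) :
    memB t (BName.mk ι x (fun _ => ⊤)) = ⨆ i : ι, eqB t (x i) := by
  rw [memB_mk]
  simp only [top_inf_eq]

theorem mem_mkTop (x : ι → BName B) (i : ι) : memB (x i) (BName.mk ι x (fun _ => ⊤)) = ⊤ := by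
  rw [memB_mkTop, eq_top_iff]
  exact iSup_intro i (le_eqB_refl _ _)

theorem relB_graphN (x y : ι → BName B) (s t : BName B) :
    relB (graphN x y) s t = ⨆ i : ι, eqB s (x i) ⊓ eqB t (y i) := by
  rw [relB_eq, graphN, memB_mkTop]
  simp only [eqB_opair]

/-- elimination for an indexed family of pairwise different names -/
theorem eq_elim {x : ι → BName B} (hx : ∀ i j, i ≠ j → eqB (x i) (x j) = ⊥) {p ψ : B} {s : BName B}
    {i j : ι} (h1 : p ≤ eqB s (x i)) (h2 : p ≤ eqB s (x j)) (h3 : i = j → p ≤ ψ) : p ≤ ψ := by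
  by_cases h : i = j
  · exact h3 h
  · have h4 : p ≤ eqB (x i) (x j) := eqB.trans (eqB.symm h1) h2
    rw [hx i j h] at h4
    exact h4.trans bot_le

theorem isFunOnB_graphN {x y : ι → BName B} (hx : ∀ i j, i ≠ j → eqB (x i) (x j) = ⊥) (p : B) :
    p ≤ isFunOnB (graphN x y) (BName.mk ι x (fun _ => ⊤)) := by
  refine le_inf (le_inf ?_ ?_) ?_
  · refine le_iInf fun z => himp_intro fun q _ hz => ?_
    rw [graphN, memB_mkTop] at hz
    refine iSup_elim hz fun i r _ hi => ?_
    refine iSup_intro (x i) (iSup_intro (y i) (le_inf ?_ ?_))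
    · rw [mem_mkTop]; exact le_top
    · rw [isOPairB_eq]; exact hi
  · refine le_iInf fun s => himp_intro fun q _ hs => ?_
    rw [memB_mkTop] at hs
    refine iSup_elim hs fun i r _ hi => ?_
    refine iSup_intro (y i) ?_
    rw [relB_graphN]
    exact iSup_intro i (le_inf hi (le_eqB_refl _ _))
  · refine le_iInf fun s => le_iInf fun t => le_iInf fun t' => himp_intro fun q _ h => ?_
    rw [relB_graphN, relB_graphN] at h
    refine iSup_elim (h.trans inf_le_left) fun i r hr hi => ?_
    refine iSup_elim (hr.trans (h.trans inf_le_right)) fun j u hu hj => ?_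
    refine eq_elim hx ((hu.trans hi).trans inf_le_left) (hj.trans inf_le_left) fun hij => ?_
    subst hij
    exact eqB.trans ((hu.trans hi).trans inf_le_right) (eqB.symm (hj.trans inf_le_right))

theorem isBijB_graphN {x y : ι → BName B} (hx : ∀ i j, i ≠ j → eqB (x i) (x j) = ⊥)
    (hy : ∀ i j, i ≠ j → eqB (y i) (y j) = ⊥) (p : B) :
    p ≤ isBijB (graphN x y) (BName.mk ι x (fun _ => ⊤)) (BName.mk ι y (fun _ => ⊤)) := by
  refine le_inf (le_inf (le_inf (isFunOnB_graphN hx p) ?_) ?_) ?_
  · refine le_iInf fun s => le_iInf fun t => himp_intro fun q _ h => ?_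
    rw [relB_graphN] at h
    refine iSup_elim h fun i r _ hi => ?_
    rw [memB_mkTop]
    exact iSup_intro i (hi.trans inf_le_right)
  · refine le_iInf fun s => le_iInf fun s' => le_iInf fun t => himp_intro fun q _ h => ?_
    rw [relB_graphN, relB_graphN] at h
    refine iSup_elim (h.trans inf_le_left) fun i r hr hi => ?_
    refine iSup_elim (hr.trans (h.trans inf_le_right)) fun j u hu hj => ?_
    refine eq_elim hy ((hu.trans hi).trans inf_le_right) (hj.trans inf_le_right) fun hij => ?_
    subst hij
    exact eqB.trans ((hu.trans hi).trans inf_le_left) (eqB.symm (hj.trans inf_le_left))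
  · refine le_iInf fun t => himp_intro fun q _ ht => ?_
    rw [memB_mkTop] at ht
    refine iSup_elim ht fun i r _ hi => ?_
    refine iSup_intro (x i) ?_
    rw [relB_graphN]
    exact iSup_intro i (le_inf (le_eqB_refl _ _) hi)

end Graph

end Pool.Agent.StarRoth.BV
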