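import Pool.Agent.Lib.MP_5db68c_lc.Defs

/-!
# MP_a1c723_lc: the notions of the question inside a model of set theory

All notions below are *internal* to an arbitrary structure `(M, ∈)`: a type `M` with a binary
relation, written `x ∈ a` through an arbitrary instance of `Membership M M`. All quantifiers run
over the elements of `M`.
-/

set_option autoImplicit false

namespace Pool.Agent.StarRoth.BV

variable {M : Type} [Membership M M]

/-- `x ⊆ y`. -/
def SubIn (x y : M) : Prop := ∀ z : M, z ∈ x → z ∈ y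

/-- `z = {x, y}`. -/
def IsUPairIn (z x y : M) : Prop := ∀ t : M, t ∈ z ↔ t = x ∨ t = y

/-- `z = (x, y) = {{x}, {x, y}}` (Kuratowski pair). -/
def IsOPairIn (z x y : M) : Prop :=
  ∃ a b : M, IsUPairIn a x x ∧ IsUPairIn b x y ∧ IsUPairIn z a b

/-- `v` is an inductive set: it contains the empty set and with `n` also `n ∪ {n}`. -/
def IsInductiveIn (v : M) : Prop :=
  (∃ e : M, (∀ t : M, t ∉ e) ∧ e ∈ v) ∧
    ∀ n : M, n ∈ v → ∃ s : M, (∀ t : M, t ∈ s ↔ t ∈ n ∨ t = n) ∧ s ∈ v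

/-- `w = ω`: the least inductive set. -/
def IsOmegaIn (w : M) : Prop := IsInductiveIn w ∧ ∀ v : M, IsInductiveIn v → SubIn w v

/-- `(x, y) ∈ f`. -/
def RelIn (f x y : M) : Prop := ∃ z : M, IsOPairIn z x y ∧ z ∈ f

/-- `f` is a function with domain `d`. -/
def IsFunOnIn (f d : M) : Prop :=
  (∀ z : M, z ∈ f → ∃ x y : M, x ∈ d ∧ IsOPairIn z x y) ∧
  (∀ x : M, x ∈ d → ∃ y : M, RelIn f x y) ∧
  (∀ x y y' : M, RelIn f x y ∧ RelIn f x y' → y = y')

/-- `f` is a function from `d` to `r`. -/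
def IsFunIntoIn (f d r : M) : Prop := IsFunOnIn f d ∧ ∀ x y : M, RelIn f x y → y ∈ r

/-- `f` is an injective function from `d` into `k`. -/
def IsInjIntoIn (f d k : M) : Prop :=
  IsFunOnIn f d ∧ (∀ x y : M, RelIn f x y → y ∈ k) ∧
    ∀ x x' y : M, RelIn f x y ∧ RelIn f x' y → x = x'

/-- `f` is a bijection from `d` onto `k`. -/
def IsBijIn (f d k : M) : Prop := IsInjIntoIn f d k ∧ ∀ y : M, y ∈ k → ∃ x : M, RelIn f x y

/-- `|d| ≤ |k|`. -/
def CardLeIn (d k : M) : Prop := ∃ f : M, IsInjIntoIn f d k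

/-- `x` is a transitive set. -/
def IsTransIn (x : M) : Prop := ∀ y : M, y ∈ x → SubIn y x

/-- `x` is an ordinal: a transitive set of transitive sets. -/
def IsOrdIn (x : M) : Prop := IsTransIn x ∧ ∀ y : M, y ∈ x → IsTransIn y

/-- `κ` is a cardinal: an ordinal that is not in bijection with any of its elements. -/
def IsCardIn (κ : M) : Prop := IsOrdIn κ ∧ ∀ l : M, l ∈ κ → ¬ ∃ f : M, IsBijIn f l κ

/-- `A` is an almost disjoint family of infinite subsets of `w = ω`. -/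
def IsADIn (A w : M) : Prop :=
  (∀ a : M, a ∈ A → SubIn a w ∧ ∀ n : M, n ∈ w → ∃ m : M, m ∈ a ∧ m ∉ n) ∧
  ∀ a b : M, (a ∈ A ∧ b ∈ A) ∧ a ≠ b → ∃ n : M, n ∈ w ∧ ∀ m : M, m ∈ a ∧ m ∈ b → m ∈ n

/-- `s` is countable: it injects into `w = ω`. -/
def IsCtblIn (s w : M) : Prop := ∃ f : M, IsInjIntoIn f s w

/-- `C` is a cofinal family of countable subsets of `κ`. -/
def IsCofinalIn (C κ w : M) : Prop :=
  (∀ c : M, c ∈ C → SubIn c κ ∧ IsCtblIn c w) ∧
    ∀ s : M, SubIn s κ ∧ IsCtblIn s w → ∃ c : M, c ∈ C ∧ SubIn s c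

/-- `cof([κ]^ω) = κ` for the cardinal `κ`: some cofinal family of countable subsets of `κ` has
cardinality `κ`, and none has a cardinality less than `κ`. -/
def CofEqIn (κ w : M) : Prop :=
  (∃ C : M, IsCofinalIn C κ w ∧ ∃ f : M, IsBijIn f C κ) ∧
    ∀ C : M, IsCofinalIn C κ w → ∀ l : M, l ∈ κ → ¬ ∃ f : M, IsBijIn f C l

/-- The functions `f` and `g` on `w = ω` agree only finitely often: `{m ∈ ω : f(m) = g(m)}` is
bounded. -/
def EvDiffIn (f g w : M) : Prop :=
  ∃ n : M, n ∈ w ∧ ∀ m k : M, (m ∈ w ∧ RelIn f m k) ∧ RelIn g m k → m ∈ n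

/-- `F` is a set of functions from `ω` to `ω` such that no single function from `ω` to `ω` agrees
infinitely often with every member of `F`. -/
def IsUnguessedIn (F w : M) : Prop :=
  (∀ f : M, f ∈ F → IsFunIntoIn f w w) ∧
    ∀ g : M, IsFunIntoIn g w w → ∃ f : M, f ∈ F ∧ EvDiffIn f g w

/-- `cov(M) ≤ κ`, where `cov(M)` is the least cardinality of a set `F` of functions from `ω` to
`ω` such that no single function agrees infinitely often with every member of `F`. -/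
def CovLeIn (κ w : M) : Prop := ∃ F : M, IsUnguessedIn F w ∧ CardLeIn F κ

/-- `U` is an open subset of the Isbell-Mrówka space `Ψ(A) = ω ∪ A`: a subset such that for every
`a ∈ A` in `U` all but finitely many elements of `a` are in `U`. -/
def IsOpenIn (U A w : M) : Prop :=
  (∀ t : M, t ∈ U → t ∈ w ∨ t ∈ A) ∧
    ∀ a : M, a ∈ A ∧ a ∈ U → ∃ n : M, n ∈ w ∧ ∀ m : M, m ∈ a ∧ m ∉ U → m ∈ n

/-- `c` is an open cover of `Ψ(A)`. -/
def IsCoverIn (c A w : M) : Prop :=
  (∀ U : M, U ∈ c → IsOpenIn U A w) ∧ ∀ t : M, t ∈ w ∨ t ∈ A → ∃ U : M, U ∈ c ∧ t ∈ U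

/-- `P` is a sequence (a function with domain `w = ω`) of open covers of `Ψ(A)`. -/
def IsCoverSeqIn (P A w : M) : Prop :=
  IsFunOnIn P w ∧ ∀ n c : M, RelIn P n c → IsCoverIn c A w

/-- `t` is in the star of `U` with respect to `c`: some `V ∈ c` that meets `U` contains `t`. -/
def InStarIn (t U c : M) : Prop := ∃ V : M, (V ∈ c ∧ t ∈ V) ∧ ∃ s : M, s ∈ V ∧ s ∈ U

/-- `S` is a sequence of elements `S(n) ∈ P(n)` whose stars cover `Ψ(A)`. -/
def IsStarSelIn (S P A w : M) : Prop :=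
  IsFunOnIn S w ∧ (∀ n c U : M, RelIn P n c ∧ RelIn S n U → U ∈ c) ∧
    ∀ t : M, t ∈ w ∨ t ∈ A →
      ∃ n c U : M, (RelIn P n c ∧ RelIn S n U) ∧ InStarIn t U c

/-- `Ψ(A)` is star-Rothberger. -/
def StarRothIn (A w : M) : Prop :=
  ∀ P : M, IsCoverSeqIn P A w → ∃ S : M, IsStarSelIn S P A w

end Pool.Agent.StarRoth.BV
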