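import Pool.Agent.Lib.MP_a1c723_lc.BV.Defs
import Pool.Agent.Lib.MP_a4e7db_lc.Omega

/-!
# MP_a1c723_lc: names for the ordinals below `W`, for the almost disjoint family and for families
of functions
-/

set_option autoImplicit false

namespace Pool.Agent.StarRoth.BV

open Pool.Agent.MPa4e7db

variable {B : Type} [CompleteBooleanAlgebra B] {W : Type} [LinearOrder W] [WellFoundedLT W]

/-- The canonical name of (the von Neumann ordinal of) `w : W`. -/
noncomputable def ordN (B : Type) [CompleteBooleanAlgebra B] {W : Type} [LinearOrder W]
    [WellFoundedLT W] : W → BName B :=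
  (wellFounded_lt (α := W)).fix fun w rec =>
    BName.mk {v : W // v < w} (fun v => rec v.1 v.2) (fun _ => ⊤)

/-- The canonical name of the order type of `W`. -/
noncomputable def kapN (B : Type) [CompleteBooleanAlgebra B] (W : Type) [LinearOrder W]
    [WellFoundedLT W] : BName B :=
  BName.mk W (ordN B) (fun _ => ⊤)

/-- The canonical name of a set of natural numbers. -/
noncomputable def natSetN (B : Type) [CompleteBooleanAlgebra B] (s : Set ℕ) : BName B :=
  BName.mk s (fun n => natN n.1) (fun _ => ⊤)

/-- The canonical name of the family `A`. -/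
noncomputable def famN (B : Type) [CompleteBooleanAlgebra B] {W : Type} (A : W → Set ℕ) :
    BName B :=
  BName.mk W (fun w => natSetN B (A w)) (fun _ => ⊤)

/-- The name of the set of pairs `{(x i, y i) : i ∈ ι}`. -/
noncomputable def graphN {ι : Type} (x y : ι → BName B) : BName B :=
  BName.mk ι (fun i => opair (x i) (y i)) (fun _ => ⊤)

/-- The name of a function `ω → ω` given by the Boolean values `r n k` of `f(n) = k`. -/
noncomputable def funN (r : ℕ → ℕ → B) : BName B :=
  BName.mk (ℕ × ℕ) (fun i => opair (natN i.1) (natN i.2)) (fun i => r i.1 i.2)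

theorem ordN_eq (w : W) :
    ordN B w = BName.mk {v : W // v < w} (fun v => ordN B v.1) (fun _ => ⊤) := by
  unfold ordN
  exact WellFounded.fix_eq _ _ _

end Pool.Agent.StarRoth.BV
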