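import Pool.Agent.Lib.MP_a1c723_lc.BV.Base
import Pool.Agent.Lib.MP_a1c723_lc.BV.Stmts

/-!
# MP_a1c723_lc: the Luzin family is star-Rothberger in `V^B` (module STAR)
-/

set_option autoImplicit false

namespace Pool.Agent.StarRoth.BV

open Pool.Agent.MPa4e7db

variable {B : Type} [CompleteBooleanAlgebra B] {W : Type} [LinearOrder W] [WellFoundedLT W]

/-! ### Consequences of the countable chain condition -/

omit [WellFoundedLT W] in
theorem exists_bound [Uncountable W] (hW : ∀ w : W, (Set.Iio w).Countable) {C : Set W}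
    (hC : C.Countable) : ∃ γ : W, ∀ w ∈ C, w < γ := by
  by_contra hcon
  push Not at hcon
  have h1 : (Set.univ : Set W) ⊆ ⋃ w ∈ C, (Set.Iio w ∪ {w}) := by
    intro γ _
    obtain ⟨w, hw, hw1⟩ := hcon γ
    simp only [Set.mem_iUnion]
    refine ⟨w, hw, ?_⟩
    rcases hw1.lt_or_eq with h | h
    · exact Or.inl h
    · exact Or.inr h
  have h2 : (Set.univ : Set W).Countable :=
    (hC.biUnion fun w _ => (hW w).union (Set.countable_singleton w)).mono h1
  exact Set.not_countable_univ h2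

theorem exists_countable_iSup (F : Facts B W) (a : W → B) :
    ∃ C : Set W, C.Countable ∧ ∀ γ : W, (∀ w ∈ C, w < γ) →
      (⨆ w, a w) ≤ ⨆ w : {w : W // w < γ}, a w.1 := by
  refine ⟨{w | first a w ≠ ⊥}, F.ccc W (first a) (first_disj a), fun γ hγ => ?_⟩
  rw [← iSup_first a]
  refine iSup_le fun w => ?_
  by_cases h : first a w = ⊥
  · rw [h]; exact bot_le
  · exact iSup_intro (⟨w, hγ w h⟩ : {w : W // w < γ}) (first_le a w)

theorem exists_sup_le [Uncountable W] (hW : ∀ w : W, (Set.Iio w).Countable) (F : Facts B W)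
    {κ : Type} [Countable κ] (a : κ → W → B) :
    ∃ γ : W, ∀ n, (⨆ w, a n w) ≤ ⨆ w : {w : W // w < γ}, a n w.1 := by
  choose C hC hC1 using fun n => exists_countable_iSup F (a n)
  obtain ⟨γ, hγ⟩ := exists_bound hW (Set.countable_iUnion hC)
  exact ⟨γ, fun n => hC1 n γ fun w hw => hγ w (Set.mem_iUnion.2 ⟨n, hw⟩)⟩

/-! ### The combinatorial core -/

/-- The Boolean value of the statement that there are unboundedly many `v` with `e v n k`. -/
def unb (e : W → ℕ → ℕ → B) (n k : ℕ) : B := ⨅ γ : W, ⨆ v : {v : W // γ ≤ v}, e v.1 n k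

omit [WellFoundedLT W] in
theorem unb_le (e : W → ℕ → ℕ → B) (n k : ℕ) (γ : W) :
    unb e n k ≤ ⨆ v : {v : W // γ ≤ v}, e v.1 n k := iInf_le _ γ

theorem le_iSup_unb [Uncountable W] (hW : ∀ w : W, (Set.Iio w).Countable) (F : Facts B W)
    {p : B} (e : W → ℕ → ℕ → B) (n : ℕ) (hp : ∀ w, p ≤ ⨆ k, e w n k) :
    p ≤ ⨆ k, unb e n k := by
  obtain ⟨γ, hγ⟩ := exists_sup_le hW F (fun (k : ℕ) (w : W) => (⨆ v : {v : W // w ≤ v}, e v.1 n k)ᶜ)
  refine (hp γ).trans (iSup_mono fun k => ?_)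
  have h1 := hγ k
  rw [← compl_iInf] at h1
  have h2 : (unb e n k)ᶜ ≤ (e γ n k)ᶜ := by
    refine h1.trans (iSup_le fun w => ?_)
    rw [compl_le_compl_iff_le]
    exact iSup_intro (⟨γ, w.2.le⟩ : {v : W // w.1 ≤ v}) le_rfl
  rwa [compl_le_compl_iff_le] at h2

theorem exists_next [Uncountable W] (hW : ∀ w : W, (Set.Iio w).Countable) (F : Facts B W)
    (e : W → ℕ → ℕ → B) (γ : W) :
    ∃ γ' : W, γ < γ' ∧ ∀ n k, unb e n k ≤ ⨆ v : {v : W // γ ≤ v ∧ v < γ'}, e v.1 n k := by
  classical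
  obtain ⟨γ₁, h1⟩ := exists_sup_le hW F
    (fun (x : ℕ × ℕ) (w : W) => if γ ≤ w then e w x.1 x.2 else ⊥)
  obtain ⟨γ₂, h2⟩ := exists_bound hW (Set.countable_singleton γ)
  refine ⟨max γ₁ γ₂, lt_of_lt_of_le (h2 γ rfl) (le_max_right _ _), fun n k => ?_⟩
  refine (unb_le e n k γ).trans ?_
  have h3 : (⨆ v : {v : W // γ ≤ v}, e v.1 n k) ≤ ⨆ w : W, if γ ≤ w then e w n k else ⊥ := by
    refine iSup_le fun v => ?_
    refine le_iSup_of_le v.1 ?_
    rw [if_pos v.2]
  refine h3.trans ((h1 (n, k)).trans (iSup_le fun w => ?_))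
  by_cases h : γ ≤ w.1
  · rw [if_pos h]
    exact iSup_intro (⟨w.1, h, lt_of_lt_of_le w.2 (le_max_left _ _)⟩ :
      {v : W // γ ≤ v ∧ v < max γ₁ γ₂}) le_rfl
  · rw [if_neg h]
    exact bot_le

theorem exists_blocks [Uncountable W] (hW : ∀ w : W, (Set.Iio w).Countable) (F : Facts B W)
    (e : W → ℕ → ℕ → B) :
    ∃ (γ : ℕ → W) (δ : W), StrictMono γ ∧ (∀ j, γ j < δ) ∧
      ∀ j n k, unb e n k ≤ ⨆ v : {v : W // γ j ≤ v ∧ v < γ (j + 1)}, e v.1 n k := by
  choose nx hnx1 hnx2 using exists_next hW F e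
  obtain ⟨w₀⟩ : Nonempty W := inferInstance
  let γ : ℕ → W := fun j => Nat.rec w₀ (fun _ w => nx w) j
  have hγ : ∀ j, γ (j + 1) = nx (γ j) := fun j => rfl
  obtain ⟨δ, hδ⟩ := exists_bound hW (Set.countable_range γ)
  refine ⟨γ, δ, strictMono_nat_of_lt_succ fun j => ?_, fun j => hδ _ ⟨j, rfl⟩, fun j n k => ?_⟩
  · rw [hγ]
    exact hnx1 _
  · rw [hγ]
    exact hnx2 _ n k

theorem star_comb [Uncountable W] (hW : ∀ w : W, (Set.Iio w).Countable) (F : Facts B W)
    (A : W → Set ℕ) (hA : ∀ w (k : ℕ), {v | v < w ∧ A w ∩ A v ⊆ Set.Iio k}.Finite)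
    (p : B) (e : W → ℕ → ℕ → B) (he : ∀ w n, Monotone (e w n))
    (hp : ∀ w n, p ≤ ⨆ k, e w n k) :
    ∃ (δ : W) (σ : ℕ → ℕ × ℕ × W → B), (∀ n x y, x ≠ y → σ n x ⊓ σ n y = ⊥) ∧
      (∀ n, p ≤ ⨆ x, σ n x) ∧ (∀ n x, σ n x ≤ e x.2.2 n x.2.1) ∧
      ∀ α, δ ≤ α → p ≤ ⨆ n : ℕ, ⨆ x : ℕ × ℕ × W, ⨆ M : ℕ,
        ⨆ (_ : ∃ i ∈ A α ∩ A x.2.2, M ≤ i ∧ x.2.1 ≤ i), σ n x ⊓ e α n M := by
  classical
  obtain ⟨γ, δ, hγ, hδ, hb⟩ := exists_blocks hW F e
  -- the first colour
  let c : ℕ → ℕ → B := fun n => first (unb e n)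
  have hc : ∀ n, p ≤ ⨆ k, c n k := by
    intro n
    rw [iSup_first]
    exact le_iSup_unb hW F e n fun w => hp w n
  -- the first element of the block with this colour
  let f : ℕ → ℕ → ℕ → W → B := fun n k j v => if γ j ≤ v ∧ v < γ (j + 1) then e v n k else ⊥
  let s : ℕ → ℕ → ℕ → W → B := fun n k j => first (f n k j)
  have hs : ∀ n k j, unb e n k ≤ ⨆ v, s n k j v := by
    intro n k j
    rw [iSup_first]
    refine (hb j n k).trans (iSup_le fun v => le_iSup_of_le v.1 ?_)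
    simp only [f]
    rw [if_pos v.2]
  have hsf : ∀ n k j v, s n k j v ≤ f n k j v := fun n k j v => first_le _ _
  -- the eventual separation
  let Q : W → ℕ → ℕ → Prop := fun α M j => ∀ i, j ≤ i → ∀ v, γ i ≤ v → v < γ (i + 1) →
    ¬ (A α ∩ A v ⊆ Set.Iio M)
  have hQ : ∀ α, δ ≤ α → ∀ M, ∃ j, Q α M j := by
    intro α hα M
    have h1 : ∀ᶠ i in Filter.atTop, ∀ v ∈ {v | v < α ∧ A α ∩ A v ⊆ Set.Iio M},
        ¬ (γ i ≤ v ∧ v < γ (i + 1)) := by
      rw [Filter.eventually_all_finite (hA α M)]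
      intro v _
      by_cases h : ∃ j, v < γ j
      · obtain ⟨j, hj⟩ := h
        filter_upwards [Filter.eventually_ge_atTop j] with i hi h2
        exact absurd (hj.trans_le (hγ.monotone hi)) (not_lt.2 h2.1)
      · push Not at h
        exact Filter.Eventually.of_forall fun i h2 => absurd (h (i + 1)) (not_le.2 h2.2)
    obtain ⟨j, hj⟩ := Filter.eventually_atTop.1 h1
    refine ⟨j, fun i hi v hv1 hv2 hcon => hj i hi v ⟨?_, hcon⟩ ⟨hv1, hv2⟩⟩
    exact (hv2.trans (hδ _)).trans_le hα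
  let E : W → ℕ → ℕ → B := fun α n j =>
    ⨆ M : ℕ, ⨆ k : ℕ, ⨆ (_ : k ≤ M ∧ Q α M j), c n k ⊓ e α n M
  have hE : ∀ α, δ ≤ α → ∀ n, p ≤ ⨆ j, E α n j := by
    intro α hα n
    refine iSup_elim (hc n) fun k q hq hqk => ?_
    refine iSup_elim (hq.trans (hp α n)) fun M r hr hrM => ?_
    obtain ⟨j, hj⟩ := hQ α hα (max k M)
    refine iSup_intro j (iSup_intro (max k M) (iSup_intro k
      (iSup_intro ⟨le_max_left _ _, hj⟩ (le_inf (hr.trans hqk) ?_))))
    exact hrM.trans (he α n (le_max_right _ _))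
  let e' : W → ℕ → ℕ → B := fun α n j => if δ ≤ α then E α n j ⊔ pᶜ else ⊤
  have he' : ∀ α n, ⨆ j, e' α n j = ⊤ := by
    intro α n
    by_cases hα : δ ≤ α
    · have h1 : ∀ j, e' α n j = E α n j ⊔ pᶜ := fun j => if_pos hα
      rw [eq_top_iff]
      have h2 : (⊤ : B) ≤ p ⊔ pᶜ := by rw [sup_compl_eq_top]
      refine h2.trans (sup_le ((hE α hα n).trans (iSup_mono fun j => ?_)) (le_iSup_of_le 0 ?_))
      · rw [h1]; exact le_sup_left
      · rw [h1]; exact le_sup_right
    · rw [eq_top_iff]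
      refine le_iSup_of_le 0 ?_
      have h1 : e' α n 0 = ⊤ := if_neg hα
      rw [h1]
  obtain ⟨h, hh1, hh2, hh3⟩ := F.dom e' he'
  refine ⟨δ, fun n x => h n x.1 ⊓ (c n x.2.1 ⊓ s n x.2.1 x.1 x.2.2), ?_, ?_, ?_, ?_⟩
  · rintro n ⟨j, k, v⟩ ⟨j', k', v'⟩ hne
    rw [eq_bot_iff]
    by_cases hj : j = j'
    · subst hj
      by_cases hk : k = k'
      · subst hk
        have hv : v ≠ v' := by
          rintro rfl
          exact hne rfl
        have h1 : s n k j v ⊓ s n k j v' = ⊥ := first_disj _ _ _ hv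
        rw [← h1]
        exact le_inf (inf_le_left.trans (inf_le_right.trans inf_le_right))
          (inf_le_right.trans (inf_le_right.trans inf_le_right))
      · have h1 : c n k ⊓ c n k' = ⊥ := first_disj _ _ _ hk
        rw [← h1]
        exact le_inf (inf_le_left.trans (inf_le_right.trans inf_le_left))
          (inf_le_right.trans (inf_le_right.trans inf_le_left))
    · rw [← hh1 n j j' hj]
      exact le_inf (inf_le_left.trans inf_le_left) (inf_le_right.trans inf_le_left)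
  · intro n
    refine iSup_elim (le_top.trans_eq (hh2 n).symm : p ≤ _) fun j q hq hqj => ?_
    refine iSup_elim (hq.trans (hc n)) fun k r hr hrk => ?_
    refine iSup_elim ((hrk.trans (first_le _ _)).trans (hs n k j)) fun v t ht htv => ?_
    exact iSup_intro (j, k, v) (le_inf ((ht.trans hr).trans hqj) (le_inf (ht.trans hrk) htv))
  · rintro n ⟨j, k, v⟩
    refine (inf_le_right.trans inf_le_right).trans ((hsf n k j v).trans ?_)
    simp only [f]
    split_ifs
    · exact le_rfl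
    · exact bot_le
  · intro α hα
    have h1 := hh3 α 0
    have h2 : p ≤ ⨆ m : ℕ, ⨆ (_ : 0 ≤ m), ⨆ k : ℕ, ⨆ j : ℕ, ⨆ (_ : j ≤ k), h m k ⊓ e' α m j := by
      rw [h1]; exact le_top
    refine iSup_elim h2 fun n q1 hq1 h3 => iSup_elim h3 fun _ q2 hq2 h4 =>
      iSup_elim h4 fun k q3 hq3 h5 => iSup_elim h5 fun j q4 hq4 h6 =>
      iSup_elim h6 fun hjk q hq h7 => ?_
    have hqp : q ≤ p := hq.trans (hq4.trans (hq3.trans (hq2.trans hq1)))
    have h8 : q ≤ E α n j ⊔ pᶜ := by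
      have h9 : e' α n j = E α n j ⊔ pᶜ := if_pos hα
      rw [← h9]
      exact h7.trans inf_le_right
    have h10 : q ≤ E α n j := sup_elim h8 (fun r _ h => h) (fun r hr h => compl_mp h (hr.trans hqp))
    refine iSup_elim h10 fun M r1 hr1 h11 => iSup_elim h11 fun k' r2 hr2 h12 =>
      iSup_elim h12 fun hM r hr h13 => ?_
    have hrq : r ≤ q := hr.trans (hr2.trans hr1)
    refine iSup_elim (((h13.trans inf_le_left).trans (first_le _ _)).trans (hs n k' k))
      fun v t ht htv => ?_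
    by_cases hv : γ k ≤ v ∧ v < γ (k + 1)
    · obtain ⟨i, hi, hiM⟩ : ∃ i ∈ A α ∩ A v, M ≤ i := by
        have h14 := hM.2 k hjk v hv.1 hv.2
        rw [Set.not_subset] at h14
        obtain ⟨i, hi, hi2⟩ := h14
        exact ⟨i, hi, not_lt.1 hi2⟩
      refine iSup_intro n (iSup_intro (k, k', v) (iSup_intro M (iSup_intro
        ⟨i, hi, hiM, hM.1.trans hiM⟩ (le_inf (le_inf ?_ (le_inf ?_ htv)) ?_))))
      · exact (ht.trans hrq).trans (h7.trans inf_le_left)
      · exact ht.trans (h13.trans inf_le_left)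
      · exact ht.trans (h13.trans inf_le_right)
    · have h15 : t ≤ f n k' k v := htv.trans (hsf _ _ _ _)
      simp only [f] at h15
      rw [if_neg hv] at h15
      exact h15.trans bot_le

/-! ### The star-Rothberger property -/

theorem le_inStarB {p : B} {t U c V s : BName B} (h1 : p ≤ memB V c) (h2 : p ≤ memB t V)
    (h3 : p ≤ memB s V) (h4 : p ≤ memB s U) : p ≤ inStarB t U c :=
  iSup_intro V (le_inf (le_inf h1 h2) (iSup_intro s (le_inf h3 h4)))

theorem ext_inStarB (U c : BName B) : Ext (fun t => inStarB t U c) :=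
  ext_iSup fun V => ext_inf (ext_inf (ext_const _) (ext_memB_left V)) (ext_const _)

/-- The value of `A_w ∖ k ⊆ V`. -/
def tailB (A : W → Set ℕ) (V : W → ℕ → BName B) (w : W) (n k : ℕ) : B :=
  ⨅ m : ℕ, ⨅ (_ : m ∈ A w ∧ k ≤ m), memB (natN m) (V w n)

omit [LinearOrder W] [WellFoundedLT W] in
theorem tailB_mono (A : W → Set ℕ) (V : W → ℕ → BName B) (w : W) (n : ℕ) :
    Monotone (tailB A V w n) := by
  intro k k' hk
  refine le_iInf fun m => le_iInf fun hm => ?_
  exact iInf_le_of_le m (iInf_le_of_le ⟨hm.1, hk.trans hm.2⟩ le_rfl)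

omit [LinearOrder W] [WellFoundedLT W] in
theorem tailB_mem {A : W → Set ℕ} {V : W → ℕ → BName B} {w : W} {n k m : ℕ} {p : B}
    (h : p ≤ tailB A V w n k) (hm : m ∈ A w) (hk : k ≤ m) : p ≤ memB (natN m) (V w n) :=
  h.trans (iInf_le_of_le m (iInf_le_of_le ⟨hm, hk⟩ le_rfl))

omit [LinearOrder W] [WellFoundedLT W] in
theorem le_iSup_tailB {A : W → Set ℕ} {V : W → ℕ → BName B} {w : W} {n : ℕ} {p : B}
    (h1 : p ≤ isOpenB (V w n) (famN B A) omegaN) (h2 : p ≤ memB (natSetN B (A w)) (V w n)) :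
    p ≤ ⨆ k, tailB A V w n k := by
  have h3 := himp_mp (iInf_mp (h1.trans inf_le_right) (natSetN B (A w)))
    (le_inf ((natSetN_mem_famN (B := B) A w).symm ▸ le_top) h2)
  refine iSup_elim h3 fun x q hq hx => ?_
  have h4 := hx.trans inf_le_left
  rw [memB_omegaN] at h4
  refine iSup_elim h4 fun k r hr hrk => ?_
  refine iSup_intro k (le_iInf fun m => le_iInf fun hm => ?_)
  have h5 := iInf_mp ((hr.trans hx).trans inf_le_right) (natN m)
  -- by contradiction
  have h6 : r ≤ (memB (natN m) (V w n))ᶜᶜ := by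
    refine compl_intro fun s hs hs1 => ?_
    have h7 : s ≤ memB (natN m) x := himp_mp (hs.trans h5)
      (le_inf ((natN_mem_natSetN (B := B) hm.1).symm ▸ le_top) hs1)
    have h8 : s ≤ memB (natN m) (natN k) := memB_congr_right (hs.trans hrk) h7
    rw [memB_natN] at h8
    rw [eq_bot_iff]
    refine h8.trans (iSup_le fun i => ?_)
    rw [eqB_natN_ne]
    have := i.2
    omega
  rwa [compl_compl] at h6

theorem starStmt : StarStmt := by
  intro B _ W _ _ _ hW F A hA
  classical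
  rw [eq_top_iff, starRothB]
  refine le_iInf fun P => himp_intro fun p _ hp => ?_
  have hpf : p ≤ isFunOnB P omegaN := hp.trans inf_le_left
  -- the covers
  have hc : ∀ n : ℕ, ∃ c : BName B, p ≤ relB P (natN n) c := by
    intro n
    obtain ⟨c, hc⟩ := exists_max (ext_relB_right P (natN n))
    exact ⟨c, (isFunOnB_total hpf ((natN_mem_omegaN (B := B) n).symm ▸ le_top)).trans hc⟩
  choose c hc using hc
  have hcov : ∀ n, p ≤ isCoverB (c n) (famN B A) omegaN := fun n =>
    himp_mp (iInf_mp (iInf_mp (hp.trans inf_le_right) (natN n)) (c n)) (hc n)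
  -- an element of the cover containing a given point
  have hU : ∀ (n : ℕ) (t : BName B), p ≤ memB t omegaN ⊔ memB t (famN B A) →
      ∃ U : BName B, p ≤ memB U (c n) ∧ p ≤ memB t U := by
    intro n t ht
    obtain ⟨U, hU⟩ := exists_max (ext_inf (ext_memB_left (c n)) (ext_memB_right t))
    have h1 := (himp_mp (iInf_mp ((hcov n).trans inf_le_right) t) ht).trans hU
    exact ⟨U, h1.trans inf_le_left, h1.trans inf_le_right⟩
  have htA : ∀ w, p ≤ memB (natSetN B (A w)) omegaN ⊔ memB (natSetN B (A w)) (famN B A) := by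
    intro w
    rw [natSetN_mem_famN, sup_top_eq]
    exact le_top
  have htN : ∀ m, p ≤ memB (natN m) omegaN ⊔ memB (natN m) (famN B A) := by
    intro m
    rw [natN_mem_omegaN, top_sup_eq]
    exact le_top
  choose V hV1 hV2 using fun (w : W) (n : ℕ) => hU n _ (htA w)
  choose N hN1 hN2 using fun (m : ℕ) (n : ℕ) => hU n _ (htN m)
  have hVo : ∀ w n, p ≤ isOpenB (V w n) (famN B A) omegaN := fun w n =>
    himp_mp (iInf_mp ((hcov n).trans inf_le_left) (V w n)) (hV1 w n)
  -- the combinatorial core for the even indices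
  let V2 : W → ℕ → BName B := fun w n => V w (2 * n)
  obtain ⟨δ, σ, hσ1, hσ2, hσ3, hσ4⟩ := star_comb hW F A hA p (tailB A V2)
    (fun w n => tailB_mono A V2 w n)
    (fun w n => le_iSup_tailB (hVo w (2 * n)) (hV2 w (2 * n)))
  let T : ℕ → BName B := fun n => mix (σ n) (fun x => V2 x.2.2 n)
  have hT : ∀ n x, σ n x ≤ eqB (T n) (V2 x.2.2 n) := fun n x => le_eqB_mix (hσ1 n) x
  have hT1 : ∀ n, p ≤ memB (T n) (c (2 * n)) := by
    intro n
    refine iSup_elim (hσ2 n) fun x q hq hqx => ?_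
    exact memB_congr_left (eqB.symm (hqx.trans (hT n x))) (hq.trans (hV1 x.2.2 (2 * n)))
  have hT2 : ∀ α, δ ≤ α → p ≤ ⨆ n, inStarB (natSetN B (A α)) (T n) (c (2 * n)) := by
    intro α hα
    refine iSup_elim (hσ4 α hα) fun n q1 hq1 h1 => iSup_elim h1 fun x q2 hq2 h2 =>
      iSup_elim h2 fun M q3 hq3 h3 => iSup_elim h3 fun hi q hq h4 => ?_
    obtain ⟨i, ⟨hiα, hiv⟩, hiM, hik⟩ := hi
    have hqp : q ≤ p := hq.trans (hq3.trans (hq2.trans hq1))
    refine iSup_intro n (le_inStarB (V := V α (2 * n)) (s := natN i)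
      (hqp.trans (hV1 α _)) (hqp.trans (hV2 α _)) ?_ ?_)
    · exact tailB_mem (V := V2) (h4.trans inf_le_right) hiα hiM
    · exact memB_congr_right (eqB.symm ((h4.trans inf_le_left).trans (hT n x)))
        (tailB_mem (V := V2) ((h4.trans inf_le_left).trans (hσ3 n x)) hiv hik)
  -- the odd indices
  have : Countable {v : W // v < δ} := (hW δ).to_subtype
  obtain ⟨g, hg⟩ := exists_surjective_nat (ℕ ⊕ {v : W // v < δ})
  let T' : ℕ → BName B := fun n => Sum.elim (fun m => N m (2 * n + 1)) (fun v => V v.1 (2 * n + 1)) (g n)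
  have hT' : ∀ n, p ≤ memB (T' n) (c (2 * n + 1)) := by
    intro n
    simp only [T']
    rcases g n with m | v
    · exact hN1 m _
    · exact hV1 v.1 _
  have hTN : ∀ m, p ≤ ⨆ n, inStarB (natN m) (T' n) (c (2 * n + 1)) := by
    intro m
    obtain ⟨n, hn⟩ := hg (Sum.inl m)
    have h1 : T' n = N m (2 * n + 1) := by simp only [T', hn, Sum.elim_inl]
    refine iSup_intro n (le_inStarB (V := T' n) (s := natN m) (hT' n) ?_ ?_ ?_) <;>
    · rw [h1]; exact hN2 m _
  have hTA : ∀ v, v < δ → p ≤ ⨆ n, inStarB (natSetN B (A v)) (T' n) (c (2 * n + 1)) := by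
    intro v hv
    obtain ⟨n, hn⟩ := hg (Sum.inr ⟨v, hv⟩)
    have h1 : T' n = V v (2 * n + 1) := by simp only [T', hn, Sum.elim_inr]
    refine iSup_intro n (le_inStarB (V := T' n) (s := natSetN B (A v)) (hT' n) ?_ ?_ ?_) <;>
    · rw [h1]; exact hV2 v _
  -- the selection
  let Sv : ℕ → BName B := fun n => if n % 2 = 0 then T (n / 2) else T' (n / 2)
  have hSe : ∀ n, Sv (2 * n) = T n := by
    intro n
    simp only [Sv]
    rw [if_pos (by omega)]
    congr 1
    omega
  have hSo : ∀ n, Sv (2 * n + 1) = T' n := by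
    intro n
    simp only [Sv]
    rw [if_neg (by omega)]
    congr 1
    omega
  have hS : ∀ n, p ≤ memB (Sv n) (c n) := by
    intro n
    rcases Nat.even_or_odd' n with ⟨k, rfl | rfl⟩
    · rw [hSe]; exact hT1 k
    · rw [hSo]; exact hT' k
  let S : BName B := graphN natN Sv
  have hSrel : ∀ n, (⊤ : B) ≤ relB S (natN n) (Sv n) := by
    intro n
    rw [relB_graphN]
    exact iSup_intro n (le_inf (le_eqB_refl _ _) (le_eqB_refl _ _))
  have hStar : ∀ (t : BName B) (q : B), q ≤ ⨆ n, inStarB t (Sv n) (c n) → q ≤ p →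
      q ≤ ⨆ n : BName B, ⨆ c : BName B, ⨆ U : BName B, relB P n c ⊓ relB S n U ⊓ inStarB t U c := by
    intro t q h hq
    refine iSup_elim h fun n r hr hrn => ?_
    exact iSup_intro (natN n) (iSup_intro (c n) (iSup_intro (Sv n)
      (le_inf (le_inf ((hr.trans hq).trans (hc n)) (le_top.trans (hSrel n))) hrn)))
  refine iSup_intro S (le_inf (le_inf ?_ ?_) ?_)
  · refine isFunOnB_graphN _ _ _ _ (fun t => memB_omegaN t) fun i j => ?_
    by_cases hij : i = j
    · subst hij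
      exact le_eqB_refl _ _
    · rw [eqB_natN_ne hij, inf_bot_eq]
      exact bot_le
  · refine le_iInf fun n => le_iInf fun c' => le_iInf fun U => himp_intro fun q hq h => ?_
    have h1 : q ≤ relB S n U := h.trans inf_le_right
    rw [relB_graphN] at h1
    refine iSup_elim h1 fun i r hr hri => ?_
    have h2 : r ≤ relB P (natN i) c' :=
      relB_congr (hri.trans inf_le_left) (le_eqB_refl _ _) (hr.trans (h.trans inf_le_left))
    have h3 : r ≤ eqB (c i) c' :=
      isFunOnB_unique ((hr.trans hq).trans hpf) ((hr.trans hq).trans (hc i)) h2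
    exact memB_congr_right h3 (memB_congr_left (eqB.symm (hri.trans inf_le_right))
      ((hr.trans hq).trans (hS i)))
  · refine le_iInf fun t => himp_intro fun q hq h => ?_
    refine hStar t q ?_ hq
    refine sup_elim h (fun r hr h1 => ?_) (fun r hr h1 => ?_)
    · rw [memB_omegaN] at h1
      refine iSup_elim h1 fun m s hs hsm => ?_
      refine iSup_elim (((hs.trans hr).trans hq).trans (hTN m)) fun n r' hr' h2 => ?_
      refine iSup_intro (2 * n + 1) ?_
      rw [hSo]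
      exact ext_inStarB _ _ (eqB.symm (hr'.trans hsm)) h2
    · rw [memB_famN] at h1
      refine iSup_elim h1 fun α s hs hsα => ?_
      by_cases hα : δ ≤ α
      · refine iSup_elim (((hs.trans hr).trans hq).trans (hT2 α hα)) fun n r' hr' h2 => ?_
        refine iSup_intro (2 * n) ?_
        rw [hSe]
        exact ext_inStarB _ _ (eqB.symm (hr'.trans hsα)) h2
      · refine iSup_elim (((hs.trans hr).trans hq).trans (hTA α (not_le.1 hα)))
          fun n r' hr' h2 => ?_
        refine iSup_intro (2 * n + 1) ?_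
        rw [hSo]
        exact ext_inStarB _ _ (eqB.symm (hr'.trans hsα)) h2

end Pool.Agent.StarRoth.BV
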